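import Pool.Agent.Two9.Final

/-!
Classes which contain all bipartite graphs, or all complements of bipartite graphs, or all split
graphs.
-/

set_option autoImplicit false
set_option linter.unusedSectionVars false

namespace Pool.Agent.Two9

open Finset Classical

/-- The graph with the edges `s` between `A` and its complement; `A` is a clique if `a`, its
complement is a clique if `b`. -/
def bg {V : Type} (A : Finset V) (a b : Bool) (s : Finset (V × V)) : SimpleGraph V where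
  Adj x y := x ≠ y ∧ ((x ∈ A ∧ y ∈ A ∧ a = true) ∨ (x ∉ A ∧ y ∉ A ∧ b = true) ∨
    (x ∈ A ∧ y ∉ A ∧ (x, y) ∈ s) ∨ (y ∈ A ∧ x ∉ A ∧ (y, x) ∈ s))
  symm := ⟨fun x y h => by
    obtain ⟨h1, h2⟩ := h
    exact ⟨h1.symm, by tauto⟩⟩
  loopless := ⟨fun x h => h.1 rfl⟩

lemma bg_inj {V : Type} [Fintype V] (A : Finset V) (a b : Bool) (s s' : Finset (V × V))
    (hs : s ⊆ A ×ˢ Aᶜ) (hs' : s' ⊆ A ×ˢ Aᶜ) (h : bg A a b s = bg A a b s') : s = s' := by
  have key : ∀ t : Finset (V × V), t ⊆ A ×ˢ Aᶜ → ∀ p, p ∈ t ↔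
      p ∈ A ×ˢ Aᶜ ∧ (bg A a b t).Adj p.1 p.2 := by
    rintro t ht ⟨x, y⟩
    constructor
    · intro hp
      refine ⟨ht hp, ?_⟩
      obtain ⟨hx, hy⟩ := mem_product.mp (ht hp)
      have hy' : y ∉ A := mem_compl.mp hy
      refine ⟨fun hxy => hy' ?_, Or.inr (Or.inr (Or.inl ⟨hx, hy', hp⟩))⟩
      have hxy' : x = y := hxy
      exact hxy' ▸ hx
    · rintro ⟨hp, hadj⟩
      obtain ⟨hx, hy⟩ := mem_product.mp hp
      have hy' : y ∉ A := mem_compl.mp hy
      have hx' : x ∈ A := hx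
      obtain ⟨_, h2⟩ := hadj
      rcases h2 with h2 | h2 | h2 | h2
      · exact absurd h2.2.1 hy'
      · exact absurd hx' h2.1
      · exact h2.2.2
      · exact absurd h2.1 hy'
  ext p
  rw [key s hs p, key s' hs' p, h]

lemma class_card {V : Type} [Fintype V] (C : Set (SimpleGraph V))
    (hC : (∀ G : SimpleGraph V, G.Colorable 2 → G ∈ C) ∨
      (∀ G : SimpleGraph V, Gᶜ.Colorable 2 → G ∈ C) ∨
      (∀ G : SimpleGraph V, (∃ s : Set V, G.IsClique s ∧ G.IsIndepSet sᶜ) → G ∈ C)) :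
    2 ^ ((Fintype.card V / 2) * (Fintype.card V - Fintype.card V / 2)) ≤ Nat.card C := by
  obtain ⟨A, -, hA⟩ := exists_subset_card_eq (s := (univ : Finset V))
    (n := Fintype.card V / 2) (by rw [card_univ]; omega)
  have hmem : ∃ a b : Bool, ∀ s, bg A a b s ∈ C := by
    rcases hC with h | h | h
    · refine ⟨false, false, fun s => h _ ?_⟩
      refine ⟨SimpleGraph.Coloring.mk (fun x => if x ∈ A then (0 : Fin 2) else 1) ?_⟩
      intro x y hxy
      obtain ⟨_, h2⟩ := hxy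
      rcases h2 with h2 | h2 | h2 | h2
      · exact absurd h2.2.2 (by simp)
      · exact absurd h2.2.2 (by simp)
      · simp [h2.1, h2.2.1]
      · simp [h2.1, h2.2.1]
    · refine ⟨true, true, fun s => h _ ?_⟩
      refine ⟨SimpleGraph.Coloring.mk (fun x => if x ∈ A then (0 : Fin 2) else 1) ?_⟩
      intro x y hxy
      obtain ⟨hne, h2⟩ := hxy
      by_cases hx : x ∈ A <;> by_cases hy : y ∈ A
      · exact absurd ⟨hne, Or.inl ⟨hx, hy, rfl⟩⟩ h2
      · simp [hx, hy]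
      · simp [hx, hy]
      · exact absurd ⟨hne, Or.inr (Or.inl ⟨hx, hy, rfl⟩)⟩ h2
    · refine ⟨true, false, fun s => h _ ⟨(A : Set V), ?_, ?_⟩⟩
      · intro x hx y hy hne
        exact ⟨hne, Or.inl ⟨hx, hy, rfl⟩⟩
      · intro x hx y hy hne hadj
        obtain ⟨_, h2⟩ := hadj
        have hx' : x ∉ A := hx
        have hy' : y ∉ A := hy
        rcases h2 with h2 | h2 | h2 | h2
        · exact hx' h2.1
        · exact absurd h2.2.2 (by simp)
        · exact hx' h2.1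
        · exact hy' h2.1
  obtain ⟨a, b, hab⟩ := hmem
  have h1 : (A ×ˢ Aᶜ : Finset (V × V)).card =
      (Fintype.card V / 2) * (Fintype.card V - Fintype.card V / 2) := by
    rw [card_product, card_compl, hA]
  rw [← h1, ← card_powerset, ← Fintype.card_coe, ← Nat.card_eq_fintype_card]
  apply Nat.card_le_card_of_injective
    (fun s : ((A ×ˢ Aᶜ : Finset (V × V)).powerset) => (⟨bg A a b s.1, hab s.1⟩ : C))
  intro s s' hss
  apply Subtype.ext
  exact bg_inj A a b s.1 s'.1 (mem_powerset.mp s.2) (mem_powerset.mp s'.2)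
    (congrArg Subtype.val hss)

/-- The main theorem. -/
theorem main : ∀ ε : ℝ, 0 < ε → ∃ n₀ : ℕ, ∀ n : ℕ, n₀ ≤ n →
    (Nat.card {G : SimpleGraph (Fin n) // ¬ Rec G} : ℝ) ≤ 2 ^ ((2 / 9 + ε) * (n : ℝ) ^ 2) ∧
    ∀ C : Set (SimpleGraph (Fin n)),
      ((∀ G : SimpleGraph (Fin n), G.Colorable 2 → G ∈ C) ∨
        (∀ G : SimpleGraph (Fin n), Gᶜ.Colorable 2 → G ∈ C) ∨
        (∀ G : SimpleGraph (Fin n), (∃ s : Set (Fin n), G.IsClique s ∧ G.IsIndepSet sᶜ) →
          G ∈ C)) →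
      (Nat.card {G : SimpleGraph (Fin n) // G ∈ C ∧ ¬ Rec G} : ℝ) ≤
        2 ^ (-(1 / 36 - ε) * (n : ℝ) ^ 2) * Nat.card C := by
  intro ε hε
  obtain ⟨n₀, hn₀⟩ := count_V (ε / 2) (by positivity)
  obtain ⟨n₁, hn₁⟩ := exists_nat_gt (1 / ε)
  refine ⟨max (max n₀ n₁) 1, fun n hn => ?_⟩
  have h0 : n₀ ≤ n := (le_max_left _ _).trans ((le_max_left _ _).trans hn)
  have h1 : n₁ ≤ n := (le_max_right _ _).trans ((le_max_left _ _).trans hn)
  have h2 : 1 ≤ n := (le_max_right _ _).trans hn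
  have hr : (1 : ℝ) ≤ n := by exact_mod_cast h2
  have hεn : 1 ≤ ε * (n : ℝ) ^ 2 := by
    have h3 : 1 / ε < (n : ℝ) := lt_of_lt_of_le hn₁ (by exact_mod_cast h1)
    rw [div_lt_iff₀ hε] at h3
    nlinarith
  have hc := hn₀ (Fin n) (by rw [Fintype.card_fin]; exact h0)
  rw [Fintype.card_fin] at hc
  refine ⟨hc.trans (Real.rpow_le_rpow_of_exponent_le (by norm_num) (by nlinarith)), ?_⟩
  intro C hC
  have hcl := class_card C hC
  rw [Fintype.card_fin] at hcl
  have hle : (Nat.card {G : SimpleGraph (Fin n) // G ∈ C ∧ ¬ Rec G} : ℝ) ≤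
      Nat.card {G : SimpleGraph (Fin n) // ¬ Rec G} := by
    exact_mod_cast Nat.card_le_card_of_injective
      (fun G : {G : SimpleGraph (Fin n) // G ∈ C ∧ ¬ Rec G} =>
        (⟨G.1, G.2.2⟩ : {G : SimpleGraph (Fin n) // ¬ Rec G}))
      (by
        intro G G' h
        have h' : G.1 = G'.1 := congrArg
          (Subtype.val : {G : SimpleGraph (Fin n) // ¬ Rec G} → SimpleGraph (Fin n)) h
        exact Subtype.ext h')
  have hcl' : (2 : ℝ) ^ ((n : ℝ) ^ 2 / 4 - 1 / 4) ≤ Nat.card C := by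
    have h3 : ((2 ^ ((n / 2) * (n - n / 2)) : ℕ) : ℝ) ≤ Nat.card C := by exact_mod_cast hcl
    refine le_trans ?_ h3
    rw [Nat.cast_pow, Nat.cast_ofNat, ← Real.rpow_natCast 2 ((n / 2) * (n - n / 2))]
    apply Real.rpow_le_rpow_of_exponent_le (by norm_num)
    rw [Nat.cast_mul, Nat.cast_sub (Nat.div_le_self n 2)]
    rcases Nat.even_or_odd' n with ⟨k, hk | hk⟩
    · have : n / 2 = k := by omega
      rw [this, hk]; push_cast; nlinarith
    · have : n / 2 = k := by omega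
      rw [this, hk]; push_cast; nlinarith
  calc (Nat.card {G : SimpleGraph (Fin n) // G ∈ C ∧ ¬ Rec G} : ℝ)
      ≤ 2 ^ ((2 / 9 + ε / 2) * (n : ℝ) ^ 2) := hle.trans hc
    _ ≤ 2 ^ (-(1 / 36 - ε) * (n : ℝ) ^ 2 + ((n : ℝ) ^ 2 / 4 - 1 / 4)) := by
        apply Real.rpow_le_rpow_of_exponent_le (by norm_num)
        nlinarith
    _ = 2 ^ (-(1 / 36 - ε) * (n : ℝ) ^ 2) * 2 ^ ((n : ℝ) ^ 2 / 4 - 1 / 4) := by
        rw [Real.rpow_add (by norm_num)]
    _ ≤ _ := mul_le_mul_of_nonneg_left hcl' (by positivity)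

end Pool.Agent.Two9
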