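import Pool.Agent.Two9.Targets

/-!
# Two9: ASY, the asymptotic estimate
-/

set_option autoImplicit false

namespace Pool.Agent.Two9

open Finset Classical

theorem p_ASY : T_ASY := by
  intro ε K hε
  have hl2 : 0 < Real.log 2 := Real.log_pos (by norm_num)
  obtain ⟨n₀, hn₀⟩ := exists_nat_ge (((11 * K + 10 : ℝ) / (ε * Real.log 2)) ^ 2)
  refine ⟨n₀ + 1, fun n hn => ?_⟩
  have hn1 : (1 : ℝ) ≤ n := by exact_mod_cast (by omega : 1 ≤ n)
  have hn0 : (0 : ℝ) < n := by linarith
  have hnn : (n₀ : ℝ) ≤ n := by exact_mod_cast (by omega : n₀ ≤ n)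
  set s := Real.sqrt n with hs
  have hs0 : 0 < s := Real.sqrt_pos.2 hn0
  have hs1 : 1 ≤ s := by
    rw [hs]
    exact Real.one_le_sqrt.2 hn1
  have hss : s ^ 2 = n := Real.sq_sqrt hn0.le
  have hC : (11 * K + 10 : ℝ) ≤ s * (ε * Real.log 2) := by
    have h1 : ((11 * K + 10 : ℝ) / (ε * Real.log 2)) ≤ s := by
      apply Real.le_sqrt_of_sq_le
      exact hn₀.trans hnn
    rwa [div_le_iff₀ (by positivity)] at h1
  have hlog : Real.log n ≤ 2 * s := by
    have h1 : Real.log n = 2 * Real.log s := by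
      rw [← hss, Real.log_pow]
      norm_num
    have h2 := Real.log_le_sub_one_of_pos hs0
    linarith
  have hlog0 : 0 ≤ Real.log n := Real.log_nonneg hn1
  have hlog2 : Real.log 2 ≤ 1 := by
    have := Real.log_le_sub_one_of_pos (by norm_num : (0 : ℝ) < 2)
    linarith
  have hK : (0 : ℝ) ≤ K := Nat.cast_nonneg K
  push_cast
  have hpos : (0 : ℝ) < ((n : ℝ) ^ n * (n : ℝ) ^ 2) ^ K * (n : ℝ) ^ n * ((n : ℝ) ^ 2) ^ n *
      2 ^ (4 * n) * 2 ^ (K * n + K) := by positivity
  rw [← Real.log_le_log_iff hpos (by positivity)]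
  have e1 : Real.log (((n : ℝ) ^ n * (n : ℝ) ^ 2) ^ K * (n : ℝ) ^ n * ((n : ℝ) ^ 2) ^ n *
      2 ^ (4 * n) * 2 ^ (K * n + K)) =
      K * (n * Real.log n + 2 * Real.log n) + n * Real.log n + n * (2 * Real.log n) +
        (4 * n) * Real.log 2 + (K * n + K) * Real.log 2 := by
    rw [Real.log_mul (by positivity) (by positivity), Real.log_mul (by positivity) (by positivity),
      Real.log_mul (by positivity) (by positivity), Real.log_mul (by positivity) (by positivity),
      Real.log_pow, Real.log_mul (by positivity) (by positivity), Real.log_pow, Real.log_pow,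
      Real.log_pow, Real.log_pow, Real.log_pow, Real.log_pow]
    push_cast
    ring
  rw [e1, Real.log_rpow (by norm_num)]
  -- everything is at most a multiple of `n * s`
  have hns : (n : ℝ) ≤ n * s := by nlinarith
  have a1 : Real.log n * n ≤ 2 * (n * s) := by nlinarith
  have a2 : Real.log n ≤ 2 * (n * s) := by nlinarith
  have a3 : (1 : ℝ) ≤ n * s := by nlinarith
  have b1 : K * (n * Real.log n + 2 * Real.log n) ≤ K * (6 * (n * s)) := by
    apply mul_le_mul_of_nonneg_left _ hK
    linarith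
  have b2 : (4 * n) * Real.log 2 ≤ 4 * (n * s) := by nlinarith
  have b3 : (K * n + K) * Real.log 2 ≤ K * (2 * (n * s)) := by
    have h1 : (K * n + K) * Real.log 2 ≤ (K * n + K) * 1 :=
      mul_le_mul_of_nonneg_left hlog2 (by positivity)
    have h2 : (K * n + K : ℝ) ≤ K * (2 * (n * s)) := by nlinarith
    linarith
  have c1 : K * (n * Real.log n + 2 * Real.log n) + n * Real.log n + n * (2 * Real.log n) +
      (4 * n) * Real.log 2 + (K * n + K) * Real.log 2 ≤ (11 * K + 10) * (n * s) := by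
    have d1 : (0 : ℝ) ≤ K * (n * s) := by positivity
    nlinarith
  refine c1.trans ?_
  have c2 : (11 * K + 10) * (n * s) ≤ (s * (ε * Real.log 2)) * (n * s) :=
    mul_le_mul_of_nonneg_right hC (by positivity)
  refine c2.trans (le_of_eq ?_)
  have c3 : s * (ε * Real.log 2) * (n * s) = ε * n * s ^ 2 * Real.log 2 := by ring
  rw [c3, hss]
  ring

end Pool.Agent.Two9
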