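import Pool.Agent.Two9.Targets

set_option autoImplicit false

namespace Pool.Agent.Two9

open Finset Classical

namespace BAL_

variable {V : Type} [Fintype V]

lemma mem_orb2 (Γ : Subgroup (Equiv.Perm V)) (p q : V × V) :
    q ∈ orb2 Γ p ↔ ∃ g ∈ Γ, g p.1 = q.1 ∧ g p.2 = q.2 := by
  simp [orb2]

lemma mem_orb (Γ : Subgroup (Equiv.Perm V)) (a b : V) : b ∈ orb Γ a ↔ ∃ g ∈ Γ, g a = b := by
  simp [orb]

lemma self_mem (Γ : Subgroup (Equiv.Perm V)) (p : V × V) : p ∈ orb2 Γ p :=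
  (mem_orb2 Γ p p).2 ⟨1, Γ.one_mem, rfl, rfl⟩

lemma card_le (Γ : Subgroup (Equiv.Perm V)) (a b : V) (h : eqv Γ a b) :
    (orb2 Γ (a, b)).card ≤ (orb Γ a).card := by
  refine Finset.card_le_card_of_injOn Prod.fst ?_ ?_
  · intro q hq
    obtain ⟨g, hg, h1, _⟩ := (mem_orb2 Γ _ _).1 hq
    exact (mem_orb Γ _ _).2 ⟨g, hg, h1⟩
  · intro q hq q' hq' heq
    obtain ⟨g, hg, h1, h2⟩ := (mem_orb2 Γ _ _).1 hq
    obtain ⟨g', hg', h1', h2'⟩ := (mem_orb2 Γ _ _).1 hq'
    refine Prod.ext heq ?_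
    have h3 : g a = g' a := by
      have h1a : g a = q.1 := h1
      have h1b : g' a = q'.1 := h1'
      rw [h1a, h1b]; exact heq
    have h4 : (g'⁻¹ * g) a = a := by
      rw [Equiv.Perm.mul_apply, h3, ← Equiv.Perm.mul_apply, inv_mul_cancel, Equiv.Perm.one_apply]
    have h5 := (h _ (Γ.mul_mem (Γ.inv_mem hg') hg)).1 h4
    rw [Equiv.Perm.mul_apply, Equiv.Perm.inv_eq_iff_eq] at h5
    have h6 : g b = q.2 := h2
    have h7 : g' b = q'.2 := h2'
    rw [← h6, ← h7, h5]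

end BAL_

theorem p_BAL : T_BAL := by
  intro V _ Γ α M hM C hC hE
  set C0 := C.filter (fun a => α a = a) with hC0
  set C1 := C.filter (fun a => α a ≠ a ∧ α a ∈ orb Γ a) with hC1
  have hsub : C0 ×ˢ C1 ⊆ univ.filter (fun p : V × V => (α p.1, α p.2) ∉ orb2 Γ p) := by
    rintro ⟨a, b⟩ hp
    rw [Finset.mem_product] at hp
    obtain ⟨ha, hb⟩ := hp
    rw [hC0, Finset.mem_filter] at ha
    rw [hC1, Finset.mem_filter] at hb
    rw [Finset.mem_filter]
    refine ⟨Finset.mem_univ _, fun hmem => ?_⟩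
    obtain ⟨g, hg, h1, h2⟩ := (BAL_.mem_orb2 Γ _ _).1 hmem
    have h1' : g a = a := h1.trans ha.2
    have h3 := (hE a ha.1 b hb.1 g hg).1 h1'
    have h2' : g b = α b := h2
    exact hb.2.1 (h2'.symm.trans h3)
  rw [← Finset.card_product]
  refine (Finset.card_le_mul_card_image (f := orb2 Γ) (C0 ×ˢ C1) 2 ?_).trans ?_
  · intro O hO
    obtain ⟨p, hp, rfl⟩ := Finset.mem_image.1 hO
    rw [Finset.mem_product] at hp
    have hpa : p.1 ∈ C := (Finset.mem_filter.1 hp.1).1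
    have hpb : p.2 ∈ C := (Finset.mem_filter.1 hp.2).1
    have h1 : (orb2 Γ p).card ≤ 2 := by
      have := BAL_.card_le Γ p.1 p.2 (hE _ hpa _ hpb)
      rwa [hC _ hpa] at this
    refine le_trans (Finset.card_le_card ?_) h1
    intro q hq
    have h2 := (Finset.mem_filter.1 hq).2
    rw [← h2]
    exact BAL_.self_mem Γ q
  · exact Nat.mul_le_mul_left 2 ((Finset.card_le_card (Finset.image_subset_image hsub)).trans hM)

end Pool.Agent.Two9
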