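import Pool.Agent.Two9.Targets

set_option autoImplicit false
set_option linter.unusedSectionVars false

namespace Pool.Agent.Two9

open Finset Classical

theorem p_BIN : T_BIN := by
  intro ε hε
  have h2 : (1 : ℝ) < 2 ^ (ε / 2) := Real.one_lt_rpow (by norm_num) (by positivity)
  obtain ⟨x, hx⟩ : ∃ x : ℝ, x = min (2 ^ (ε / 2) - 1) 1 := ⟨_, rfl⟩
  have hx0 : 0 < x := by
    rw [hx]
    exact lt_min (by linarith) one_pos
  have hx1 : x ≤ 1 := by rw [hx]; exact min_le_right _ _
  have hx2 : 1 + x ≤ 2 ^ (ε / 2) := by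
    have : x ≤ 2 ^ (ε / 2) - 1 := by rw [hx]; exact min_le_left _ _
    linarith
  have hlog : Real.log x ≤ 0 := Real.log_nonpos hx0.le hx1
  have hl2 : 0 < Real.log 2 := Real.log_pos (by norm_num)
  refine ⟨ε / 2 * Real.log 2 / (1 - Real.log x), by
    have : 0 < 1 - Real.log x := by linarith
    positivity, fun P _ => ?_⟩
  set η := ε / 2 * Real.log 2 / (1 - Real.log x) with hη
  have hη1 : -(η * Real.log x) ≤ ε / 2 * Real.log 2 := by
    have h3 : 0 < 1 - Real.log x := by linarith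
    have h4 : η * (1 - Real.log x) = ε / 2 * Real.log 2 := by
      rw [hη]
      field_simp
    have h5 : 0 ≤ η := by
      rw [hη]
      positivity
    nlinarith
  set N : ℝ := (Fintype.card P : ℝ) with hN
  have hN0 : 0 ≤ N := Nat.cast_nonneg _
  have h3 : ((univ.filter (fun E : Finset P => (E.card : ℝ) ≤ η * N)).card : ℝ) ≤
      ∑ E ∈ univ.filter (fun E : Finset P => (E.card : ℝ) ≤ η * N),
        x ^ E.card * x ^ (-(η * N)) := by
    rw [Finset.card_eq_sum_ones, Nat.cast_sum]
    refine Finset.sum_le_sum (fun E hE => ?_)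
    rw [Nat.cast_one, ← Real.rpow_natCast x, ← Real.rpow_add hx0]
    have h4 := (Finset.mem_filter.1 hE).2
    exact Real.one_le_rpow_of_pos_of_le_one_of_nonpos hx0 hx1 (by linarith)
  have h4 : ∑ E ∈ univ.filter (fun E : Finset P => (E.card : ℝ) ≤ η * N),
        x ^ E.card * x ^ (-(η * N)) ≤ ∑ E : Finset P, x ^ E.card * x ^ (-(η * N)) :=
    Finset.sum_le_sum_of_subset_of_nonneg (Finset.filter_subset _ _)
      (fun _ _ _ => by positivity)
  have h5 : ∑ E : Finset P, x ^ E.card = (1 + x) ^ Fintype.card P := by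
    have := Fintype.sum_pow_mul_eq_add_pow P x 1
    rw [add_comm 1 x, ← this]
    refine Finset.sum_congr rfl (fun E _ => ?_)
    rw [one_pow, mul_one]
  rw [← Finset.sum_mul] at h3
  rw [← Finset.sum_mul, ← Finset.sum_mul, h5] at h4
  refine (h3.trans h4).trans ?_
  have h6 : (1 + x) ^ Fintype.card P ≤ (2 : ℝ) ^ (ε / 2 * N) := by
    rw [Real.rpow_mul (by norm_num), hN, Real.rpow_natCast]
    exact pow_le_pow_left₀ (by linarith) hx2 _
  have h7 : x ^ (-(η * N)) ≤ (2 : ℝ) ^ (ε / 2 * N) := by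
    rw [Real.rpow_def_of_pos hx0, Real.rpow_def_of_pos (by norm_num)]
    refine Real.exp_le_exp.2 ?_
    nlinarith
  calc (1 + x) ^ Fintype.card P * x ^ (-(η * N)) ≤ 2 ^ (ε / 2 * N) * 2 ^ (ε / 2 * N) :=
        mul_le_mul h6 h7 (by positivity) (by positivity)
    _ = 2 ^ (ε * N) := by
        rw [← Real.rpow_add (by norm_num)]
        congr 1
        ring

end Pool.Agent.Two9
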