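import Pool.Agent.Two9.Targets

/-!
Target CLASSES: the number of classes (sum over the types).
-/

set_option autoImplicit false
set_option linter.unusedSectionVars false

namespace Pool.Agent.Two9

open Finset Classical

namespace CLASSES_

theorem sum_type {V : Type} [Fintype V] (τ : V → Fin 4) (h : Fin 4 → ℝ) :
    ∑ a : V, h (τ a) = ∑ i : Fin 4, ((univ.filter (fun a => τ a = i)).card : ℝ) * h i := by
  have h1 : ∀ a : V, h (τ a) = ∑ i : Fin 4, if τ a = i then h i else 0 := by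
    intro a
    rw [Finset.sum_ite_eq]
    simp
  rw [Finset.sum_congr rfl (fun a _ => h1 a), Finset.sum_comm]
  refine Finset.sum_congr rfl (fun i _ => ?_)
  rw [← Finset.sum_filter, Finset.sum_const, nsmul_eq_mul]

theorem sum_type2 {V : Type} [Fintype V] (τ : V → Fin 4) (h : Fin 4 → Fin 4 → ℝ) :
    ∑ p : V × V, h (τ p.1) (τ p.2) = ∑ i : Fin 4, ∑ j : Fin 4,
      ((univ.filter (fun a => τ a = i)).card : ℝ) *
        (((univ.filter (fun a => τ a = j)).card : ℝ) * h i j) := by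
  rw [Fintype.sum_prod_type]
  have h1 : ∀ a : V, ∑ b : V, h (τ a) (τ b) = (fun i => ∑ j : Fin 4,
      ((univ.filter (fun a => τ a = j)).card : ℝ) * h i j) (τ a) := fun a => sum_type τ (h (τ a))
  rw [Finset.sum_congr rfl (fun a _ => h1 a)]
  refine (sum_type τ (fun i => ∑ j : Fin 4,
      ((univ.filter (fun a => τ a = j)).card : ℝ) * h i j)).trans ?_
  refine Finset.sum_congr rfl (fun i _ => ?_)
  rw [Finset.mul_sum]

/-- the weights without the pairs of `T` and the complement of `I` -/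
noncomputable def wm (i j : Fin 4) : ℝ :=
  if (i = 0 ∧ (j = 2 ∨ j = 3)) ∨ (j = 0 ∧ (i = 2 ∨ i = 3)) then 0 else ((2 * wt i j : ℕ) : ℝ)⁻¹

theorem ty0 {V : Type} [Fintype V] (Γ : Subgroup (Equiv.Perm V)) (I : Finset V) (a : V) :
    ty Γ I a = 0 ↔ a ∈ I ∧ (orb Γ a).card = 1 := by
  unfold ty
  split_ifs with h1 h2 h3
  · simp [h1, h2]
  · simp [h2]
  · simp [h1]
  · simp [h1]

theorem ty01 {V : Type} [Fintype V] (Γ : Subgroup (Equiv.Perm V)) (I : Finset V) (a : V) :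
    (ty Γ I a = 2 ∨ ty Γ I a = 3) ↔ a ∉ I := by
  unfold ty
  split_ifs with h1 h2 h3
  · simp [h1]
  · simp [h1]
  · simp [h1]
  · simp [h1]

theorem tyI {V : Type} [Fintype V] (Γ : Subgroup (Equiv.Perm V)) (I : Finset V) (a : V) :
    (ty Γ I a = 0 ∨ ty Γ I a = 1) ↔ a ∈ I := by
  unfold ty
  split_ifs with h1 h2 h3
  · simp [h1]
  · simp [h1]
  · simp [h1]
  · simp [h1]

theorem wtsum (c : Fin 4 → ℝ) :
    ∑ i : Fin 4, ∑ j : Fin 4, c i * (c j * ((2 * wt i j : ℕ) : ℝ)⁻¹) =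
      c 0 ^ 2 / 2 + c 0 * c 1 / 2 + c 1 ^ 2 / 4 + c 1 * c 2 / 4 + c 1 * c 3 / 6 +
        c 2 ^ 2 / 8 + c 2 * c 3 / 6 + c 3 ^ 2 / 6 + c 0 * (c 2 / 2 + c 3 / 3) := by
  have w00 : wt 0 0 = 1 := rfl
  have w01 : wt 0 1 = 2 := rfl
  have w02 : wt 0 2 = 2 := rfl
  have w03 : wt 0 3 = 3 := rfl
  have w10 : wt 1 0 = 2 := rfl
  have w11 : wt 1 1 = 2 := rfl
  have w12 : wt 1 2 = 4 := rfl
  have w13 : wt 1 3 = 6 := rfl
  have w20 : wt 2 0 = 2 := rfl
  have w21 : wt 2 1 = 4 := rfl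
  have w22 : wt 2 2 = 4 := rfl
  have w23 : wt 2 3 = 6 := rfl
  have w30 : wt 3 0 = 3 := rfl
  have w31 : wt 3 1 = 6 := rfl
  have w32 : wt 3 2 = 6 := rfl
  have w33 : wt 3 3 = 3 := rfl
  simp only [Fin.sum_univ_four, w00, w01, w02, w03, w10, w11, w12, w13, w20, w21, w22, w23, w30, w31, w32, w33]
  push_cast
  ring

theorem wmsum (c : Fin 4 → ℝ) :
    ∑ i : Fin 4, ∑ j : Fin 4, c i * (c j * wm i j) =
      c 0 ^ 2 / 2 + c 0 * c 1 / 2 + c 1 ^ 2 / 4 + c 1 * c 2 / 4 + c 1 * c 3 / 6 +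
        c 2 ^ 2 / 8 + c 2 * c 3 / 6 + c 3 ^ 2 / 6 := by
  have w00 : wm 0 0 = 1 / 2 := by
    unfold wm
    rw [if_neg (by decide), show wt 0 0 = 1 from rfl]
    norm_num
  have w01 : wm 0 1 = 1 / 4 := by
    unfold wm
    rw [if_neg (by decide), show wt 0 1 = 2 from rfl]
    norm_num
  have w02 : wm 0 2 = 0 := by
    unfold wm
    rw [if_pos (by decide)]
  have w03 : wm 0 3 = 0 := by
    unfold wm
    rw [if_pos (by decide)]
  have w10 : wm 1 0 = 1 / 4 := by
    unfold wm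
    rw [if_neg (by decide), show wt 1 0 = 2 from rfl]
    norm_num
  have w11 : wm 1 1 = 1 / 4 := by
    unfold wm
    rw [if_neg (by decide), show wt 1 1 = 2 from rfl]
    norm_num
  have w12 : wm 1 2 = 1 / 8 := by
    unfold wm
    rw [if_neg (by decide), show wt 1 2 = 4 from rfl]
    norm_num
  have w13 : wm 1 3 = 1 / 12 := by
    unfold wm
    rw [if_neg (by decide), show wt 1 3 = 6 from rfl]
    norm_num
  have w20 : wm 2 0 = 0 := by
    unfold wm
    rw [if_pos (by decide)]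
  have w21 : wm 2 1 = 1 / 8 := by
    unfold wm
    rw [if_neg (by decide), show wt 2 1 = 4 from rfl]
    norm_num
  have w22 : wm 2 2 = 1 / 8 := by
    unfold wm
    rw [if_neg (by decide), show wt 2 2 = 4 from rfl]
    norm_num
  have w23 : wm 2 3 = 1 / 12 := by
    unfold wm
    rw [if_neg (by decide), show wt 2 3 = 6 from rfl]
    norm_num
  have w30 : wm 3 0 = 0 := by
    unfold wm
    rw [if_pos (by decide)]
  have w31 : wm 3 1 = 1 / 12 := by
    unfold wm
    rw [if_neg (by decide), show wt 3 1 = 6 from rfl]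
    norm_num
  have w32 : wm 3 2 = 1 / 12 := by
    unfold wm
    rw [if_neg (by decide), show wt 3 2 = 6 from rfl]
    norm_num
  have w33 : wm 3 3 = 1 / 6 := by
    unfold wm
    rw [if_neg (by decide), show wt 3 3 = 3 from rfl]
    norm_num
  simp only [Fin.sum_univ_four, w00, w01, w02, w03, w10, w11, w12, w13, w20, w21, w22, w23, w30, w31, w32, w33]
  ring

theorem wt_pos (i j : Fin 4) : 0 < wt i j := by
  fin_cases i <;> fin_cases j <;> simp [wt]

end CLASSES_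

open CLASSES_ in
theorem p_CLASSES (h1 : T_NCSUM) (h2 : T_WT) (h3 : T_EXC) (h4 : T_TZ) (h5 : T_INEQ) :
    T_CLASSES := by
  intro V _ Γ L f N X T I e g hL hN hf hI hX hT he1 he2
  set R := lnk (Γ : Set (Equiv.Perm V)) f N X T I e with hR
  set n : ℕ := Fintype.card V with hn
  set E : Finset (V × V) := univ.filter (exc Γ L f N I) with hE
  set F : Finset (V × V) := univ.filter (fun p : V × V => (p.1 ∈ T ∧ p.2 ∉ I) ∨
    (p.2 ∈ T ∧ p.1 ∉ I)) with hF
  set τ : V → Fin 4 := ty Γ I with hτ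
  set c : Fin 4 → ℝ := fun i => ((univ.filter (fun a => τ a = i)).card : ℝ) with hc
  set H : ℝ := ((big Γ L \ (I ∪ N)).card : ℝ) with hH
  have hL' : (0 : ℝ) < L := Nat.cast_pos.mpr hL
  -- the sizes of the classes
  have hsz : ∀ p : V × V, p ∉ E → ((cls R p).card : ℝ)⁻¹ ≤
      ((2 * wt (τ p.1) (τ p.2) : ℕ) : ℝ)⁻¹ := by
    intro p hp
    have hp' : ¬ exc Γ L f N I (p.1, p.2) := by
      intro hh
      exact hp (Finset.mem_filter.mpr ⟨Finset.mem_univ _, hh⟩)
    have h := h2 V Γ L f N X T I e hN hf hI hX p.1 p.2 hp'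
    have hpos : 0 < 2 * wt (τ p.1) (τ p.2) := Nat.mul_pos (by norm_num) (wt_pos _ _)
    apply inv_anti₀
    · exact_mod_cast hpos
    · exact_mod_cast h
  -- the exceptional classes
  have hexc : (((E.image (cls R)).card : ℕ) : ℝ) ≤ (8 + 2 * H) * n + (n : ℝ) ^ 2 / L := by
    have h := h3 V Γ L f N X T I e hN hX
    have h' : (L : ℝ) * (((E.image (cls R)).card : ℕ) : ℝ) ≤
        L * (8 + 2 * H) * n + (n : ℝ) ^ 2 := by
      rw [hH, hn]
      exact_mod_cast h
    have e1 : (L : ℝ) * ((8 + 2 * H) * n + (n : ℝ) ^ 2 / L) =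
        L * (8 + 2 * H) * n + (n : ℝ) ^ 2 := by
      field_simp
    have h'' : (L : ℝ) * (((E.image (cls R)).card : ℕ) : ℝ) ≤
        L * ((8 + 2 * H) * n + (n : ℝ) ^ 2 / L) := by rw [e1]; exact h'
    exact le_of_mul_le_mul_left h'' hL'
  obtain ⟨hI2, hTZ⟩ := h4 V Γ f N X T I e g he1 he2
  -- the numbers of the types
  have hc0 : (T.card : ℝ) = c 0 := by
    rw [hc, hT]
    simp only
    congr 2
    ext a
    rw [Finset.mem_filter, Finset.mem_filter, hτ, ty0]
    simp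
  have hcI : (I.card : ℝ) = c 0 + c 1 := by
    rw [hc]
    simp only
    rw [← Nat.cast_add, ← Finset.card_union_of_disjoint]
    · congr 2
      ext a
      rw [Finset.mem_union, Finset.mem_filter, Finset.mem_filter, ← tyI Γ I a]
      simp [hτ]
    · rw [Finset.disjoint_filter]
      intro a _ h
      rw [h]
      decide
  have hcn : (n : ℝ) = c 0 + c 1 + c 2 + c 3 := by
    have h := sum_type τ (fun _ => (1 : ℝ))
    simp only [Finset.sum_const, Finset.card_univ, nsmul_eq_mul, mul_one,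
      Fin.sum_univ_four] at h
    exact h
  have hcpos : ∀ i, 0 ≤ c i := fun i => Nat.cast_nonneg _
  have hle : c 0 + c 1 ≤ c 2 + c 3 := by
    have h : (2 : ℝ) * I.card ≤ n := by exact_mod_cast hI2
    rw [hcI, hcn] at h
    linarith
  -- first estimate
  have hA : (nc R : ℝ) ≤ (8 + 2 * H) * n + (n : ℝ) ^ 2 / L +
      (c 0 ^ 2 / 2 + c 0 * c 1 / 2 + c 1 ^ 2 / 4 + c 1 * c 2 / 4 + c 1 * c 3 / 6 + c 2 ^ 2 / 8 +
        c 2 * c 3 / 6 + c 3 ^ 2 / 6 + c 0 * (c 2 / 2 + c 3 / 3)) := by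
    have h : (nc R : ℝ) ≤ (((E.image (cls R)).card : ℕ) : ℝ) +
        ∑ p ∈ Eᶜ, ((cls R p).card : ℝ)⁻¹ := by
      refine (h1 (V × V) R E).trans (le_of_eq ?_)
      have e1 : ∀ (d d' : DecidableEq (Finset (V × V))),
          (@Finset.image _ _ d (cls R) E).card = (@Finset.image _ _ d' (cls R) E).card := by
        intro d d'
        rw [Subsingleton.elim d d']
      have e2 : ∀ (d d' : DecidableEq (V × V)),
          ∑ p ∈ (@compl _ (@BooleanAlgebra.toCompl _ (@Finset.booleanAlgebra _ _ d)) E),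
            ((cls R p).card : ℝ)⁻¹ =
          ∑ p ∈ (@compl _ (@BooleanAlgebra.toCompl _ (@Finset.booleanAlgebra _ _ d')) E),
            ((cls R p).card : ℝ)⁻¹ := by
        intro d d'
        rw [Subsingleton.elim d d']
      rw [e1 _ _, e2 _ _]
    have hs : ∑ p ∈ Eᶜ, ((cls R p).card : ℝ)⁻¹ ≤
        ∑ p : V × V, ((2 * wt (τ p.1) (τ p.2) : ℕ) : ℝ)⁻¹ := by
      calc ∑ p ∈ Eᶜ, ((cls R p).card : ℝ)⁻¹
          ≤ ∑ p ∈ Eᶜ, ((2 * wt (τ p.1) (τ p.2) : ℕ) : ℝ)⁻¹ :=
            Finset.sum_le_sum (fun p hp => hsz p (Finset.mem_compl.mp hp))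
        _ ≤ _ := Finset.sum_le_sum_of_subset_of_nonneg (Finset.subset_univ _)
            (fun p _ _ => inv_nonneg.mpr (Nat.cast_nonneg _))
    rw [sum_type2 τ (fun i j => ((2 * wt i j : ℕ) : ℝ)⁻¹)] at hs
    have hs' := hs.trans (le_of_eq (wtsum c))
    linarith
  -- second estimate
  have hB : (nc R : ℝ) ≤ (8 + 2 * H) * n + (n : ℝ) ^ 2 / L +
      (c 0 ^ 2 / 2 + c 0 * c 1 / 2 + c 1 ^ 2 / 4 + c 1 * c 2 / 4 + c 1 * c 3 / 6 + c 2 ^ 2 / 8 +
        c 2 * c 3 / 6 + c 3 ^ 2 / 6 + c 0 * (c 2 + c 3 - c 0 - c 1)) := by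
    have h : (nc R : ℝ) ≤ ((((E ∪ F).image (cls R)).card : ℕ) : ℝ) +
        ∑ p ∈ (E ∪ F)ᶜ, ((cls R p).card : ℝ)⁻¹ := by
      refine (h1 (V × V) R (E ∪ F)).trans (le_of_eq ?_)
      have e1 : ∀ (d d' : DecidableEq (Finset (V × V))),
          (@Finset.image _ _ d (cls R) (E ∪ F)).card =
            (@Finset.image _ _ d' (cls R) (E ∪ F)).card := by
        intro d d'
        rw [Subsingleton.elim d d']
      have e2 : ∀ (d d' : DecidableEq (V × V)),
          ∑ p ∈ (@compl _ (@BooleanAlgebra.toCompl _ (@Finset.booleanAlgebra _ _ d)) (E ∪ F)),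
            ((cls R p).card : ℝ)⁻¹ =
          ∑ p ∈ (@compl _ (@BooleanAlgebra.toCompl _ (@Finset.booleanAlgebra _ _ d')) (E ∪ F)),
            ((cls R p).card : ℝ)⁻¹ := by
        intro d d'
        rw [Subsingleton.elim d d']
      rw [e1 _ _, e2 _ _]
    have hi : ((((E ∪ F).image (cls R)).card : ℕ) : ℝ) ≤
        (((E.image (cls R)).card : ℕ) : ℝ) + (((F.image (cls R)).card : ℕ) : ℝ) := by
      rw [Finset.image_union]
      exact_mod_cast Finset.card_union_le _ _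
    have hF2 : (((F.image (cls R)).card : ℕ) : ℝ) ≤ c 0 * (c 2 + c 3 - c 0 - c 1) := by
      have h6 : (((F.image (cls R)).card : ℕ) : ℝ) ≤ ((T.card * (n - 2 * I.card) : ℕ) : ℝ) := by
        exact_mod_cast hTZ
      refine h6.trans (le_of_eq ?_)
      rw [Nat.cast_mul, Nat.cast_sub hI2, hc0]
      push_cast
      rw [hcI, hcn]
      ring
    have hs : ∑ p ∈ (E ∪ F)ᶜ, ((cls R p).card : ℝ)⁻¹ ≤
        ∑ p : V × V, wm (τ p.1) (τ p.2) := by
      have hnn : ∀ i j, 0 ≤ wm i j := by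
        intro i j
        unfold wm
        split_ifs
        · exact le_refl _
        · exact inv_nonneg.mpr (Nat.cast_nonneg _)
      calc ∑ p ∈ (E ∪ F)ᶜ, ((cls R p).card : ℝ)⁻¹
          ≤ ∑ p ∈ (E ∪ F)ᶜ, wm (τ p.1) (τ p.2) := by
            refine Finset.sum_le_sum (fun p hp => ?_)
            rw [Finset.mem_compl, Finset.mem_union, not_or] at hp
            refine (hsz p hp.1).trans (le_of_eq ?_)
            unfold wm
            rw [if_neg]
            intro hh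
            apply hp.2
            rw [hF, Finset.mem_filter]
            refine ⟨Finset.mem_univ _, ?_⟩
            rw [hτ, ty0, ty0, ty01, ty01] at hh
            rw [hT, Finset.mem_filter, Finset.mem_filter]
            exact hh
        _ ≤ _ := Finset.sum_le_sum_of_subset_of_nonneg (Finset.subset_univ _)
            (fun p _ _ => hnn _ _)
    rw [sum_type2 τ wm] at hs
    have hs' := hs.trans (le_of_eq (wmsum c))
    linarith
  have hfin := h5 (c 0) (c 1) (c 2) (c 3) (hcpos 0) (hcpos 1) (hcpos 2) (hcpos 3) hle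
  rw [← hcn] at hfin
  rcases min_cases (c 2 / 2 + c 3 / 3) (c 2 + c 3 - c 0 - c 1) with ⟨h6, -⟩ | ⟨h6, -⟩
  · rw [h6] at hfin
    linarith
  · rw [h6] at hfin
    linarith

end Pool.Agent.Two9
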