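import Pool.Agent.Two9.Targets

set_option autoImplicit false
set_option linter.unusedSectionVars false

namespace Pool.Agent.Two9

open Finset Classical

namespace CODEA_

lemma eqv_iff {P : Type} (r : P → P → Prop) (Q : P → Prop) (h : ∀ p q, r p q → (Q p ↔ Q q))
    {p q : P} (hpq : Relation.EqvGen r p q) : Q p ↔ Q q := by
  induction hpq with
  | rel p q hr => exact h p q hr
  | refl p => exact Iff.rfl
  | symm p q _ ih => exact ih.symm
  | trans p q s _ _ ih1 ih2 => exact ih1.trans ih2

lemma exS {P : Type} [Fintype P] (r : P → P → Prop) :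
    ∃ S : Finset (Finset P), S.card = nc r ∧ ∀ p, cls r p ∈ S :=
  ⟨univ.image (cls r), rfl, fun _ => Finset.mem_image_of_mem _ (Finset.mem_univ _)⟩

end CODEA_

theorem p_CODEA : T_CODEA := by
  intro V _ r
  obtain ⟨S, hS, hS'⟩ := CODEA_.exS r
  have hc : (2 : ℕ) ^ nc r = (S.powerset).card := by
    rw [Finset.card_powerset, hS]
  rw [hc]
  refine Finset.card_le_card_of_injOn
    (fun G : SimpleGraph V => S.filter (fun C => ∀ p ∈ C, G.Adj p.1 p.2)) ?_ ?_
  · intro G _
    exact Finset.mem_powerset.2 (Finset.filter_subset _ _)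
  · have key : ∀ G : SimpleGraph V, (∀ p q, r p q → (G.Adj p.1 p.2 ↔ G.Adj q.1 q.2)) →
        ∀ a b : V, G.Adj a b ↔ cls r (a, b) ∈
          S.filter (fun C => ∀ p ∈ C, G.Adj p.1 p.2) := by
      intro G hG a b
      rw [Finset.mem_filter]
      constructor
      · intro hab
        refine ⟨hS' _, fun p hp => ?_⟩
        have h1 : Relation.EqvGen r (a, b) p := (Finset.mem_filter.1 hp).2
        exact (CODEA_.eqv_iff r (fun p => G.Adj p.1 p.2) hG h1).1 hab
      · intro h
        exact h.2 (a, b) (Finset.mem_filter.2 ⟨Finset.mem_univ _, Relation.EqvGen.refl _⟩)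
    intro G hG H hH hGH
    have hG' := (Finset.mem_filter.1 hG).2
    have hH' := (Finset.mem_filter.1 hH).2
    ext a b
    rw [key G hG' a b, key H hH' a b]
    have hGH' : S.filter (fun C => ∀ p ∈ C, G.Adj p.1 p.2) =
      S.filter (fun C => ∀ p ∈ C, H.Adj p.1 p.2) := hGH
    rw [hGH']

end Pool.Agent.Two9
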