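import Pool.Agent.Two9.Targets

set_option autoImplicit false
set_option linter.unusedSectionVars false

namespace Pool.Agent.Two9

open Finset Classical

theorem p_CODEB (h1 : T_CODEA) : T_CODEB := by
  intro V _ K D U F hF
  set n := Fintype.card V with hn
  set Ω : Finset (Code V K) := univ.filter (fun ω => ω.2.2.2.2.card ≤ D) with hΩ
  have hsub : F ⊆ (Ω.filter (fun ω => nc (rel ω) ≤ U)).biUnion (fun ω =>
      univ.filter (fun G : SimpleGraph V => ∀ p q, rel ω p q →
        (G.Adj p.1 p.2 ↔ G.Adj q.1 q.2))) := by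
    intro G hG
    obtain ⟨ω, h2, h3, h4⟩ := hF G hG
    rw [Finset.mem_biUnion]
    refine ⟨ω, ?_, ?_⟩
    · rw [Finset.mem_filter, hΩ, Finset.mem_filter]
      exact ⟨⟨Finset.mem_univ _, h2⟩, h3⟩
    · rw [Finset.mem_filter]
      exact ⟨Finset.mem_univ _, h4⟩
  have h5 : F.card ≤ (Ω.filter (fun ω => nc (rel ω) ≤ U)).card * 2 ^ U := by
    refine (Finset.card_le_card hsub).trans (Finset.card_biUnion_le_card_mul _ _ _ ?_)
    intro ω hω
    exact (h1 V (rel ω)).trans (Nat.pow_le_pow_right (by norm_num) (Finset.mem_filter.1 hω).2)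
  refine h5.trans (Nat.mul_le_mul_right _ ((Finset.card_le_card (Finset.filter_subset _ _)).trans ?_))
  have h6 : Ω = (univ : Finset (Fin K → Equiv.Perm V × V × V)) ×ˢ
      ((univ : Finset (V → V)) ×ˢ ((univ : Finset (V → V × V)) ×ˢ
        ((univ : Finset (Finset V × Finset V × Finset V × Finset V)) ×ˢ
          (univ.filter (fun E : Finset (V × V) => E.card ≤ D))))) := by
    ext ω
    simp only [hΩ, Finset.mem_filter, Finset.mem_univ, true_and, Finset.mem_product]
  rw [h6]
  simp only [Finset.card_product, Finset.card_univ, Fintype.card_fun, Fintype.card_prod,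
    Fintype.card_fin, Fintype.card_perm, Fintype.card_finset]
  rw [← hn]
  have h7 : n.factorial * (n * n) ≤ n ^ n * n ^ 2 := by
    rw [sq]
    exact Nat.mul_le_mul_right _ (Nat.factorial_le_pow n)
  have h8 : (n.factorial * (n * n)) ^ K ≤ (n ^ n * n ^ 2) ^ K := Nat.pow_le_pow_left h7 K
  have h9 : 2 ^ n * (2 ^ n * (2 ^ n * 2 ^ n)) = 2 ^ (4 * n) := by
    rw [← pow_add, ← pow_add, ← pow_add]
    congr 1
    ring
  rw [h9, ← sq]
  calc (n.factorial * n ^ 2) ^ K * (n ^ n * ((n ^ 2) ^ n * (2 ^ (4 * n) *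
          (univ.filter (fun E : Finset (V × V) => E.card ≤ D)).card)))
      ≤ (n ^ n * n ^ 2) ^ K * (n ^ n * ((n ^ 2) ^ n * (2 ^ (4 * n) *
          (univ.filter (fun E : Finset (V × V) => E.card ≤ D)).card))) := by
        rw [sq]
        rw [sq] at h8
        exact Nat.mul_le_mul_right _ h8
    _ = _ := by ring

end Pool.Agent.Two9
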