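import Pool.Agent.Two9.Targets

/-!
The collision lemma.
-/

set_option autoImplicit false

namespace Pool.Agent.Two9

open Finset Classical

namespace COL_

variable {V : Type}

theorem al_eq (ψ : V → Equiv.Perm V) (w w' x y : V) :
    al ψ w w' x = y ↔ ψ w x = ψ w' y := by
  unfold al
  rw [Equiv.Perm.mul_apply, Equiv.Perm.inv_eq_iff_eq]

/-- One vertex `l` with base `b`. -/
theorem one {G H : SimpleGraph V} {ψ : V → Equiv.Perm V} (hH : Hyp G H ψ) {W : Finset V}
    {l b w : V} (hl : l ∈ W) (hb : b ∈ W) (hlb : l ≠ b) (hlw : l ≠ w) (hbw : b ≠ w)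
    (h1 : ∀ u ∈ W, al ψ l b u = u) (h2 : ∀ u ∈ W, al ψ l w u = u) :
    ∃ v v' : V, v ∉ W ∧ v' ∉ W ∧ ¬ (G.Adj l v ↔ G.Adj l v') ∧
      ∀ t ∈ W, t ≠ l → t ≠ b → (G.Adj t v ↔ G.Adj t v') := by
  have hll : ψ l l = l := hH.fix l
  have hbl : ψ b l = l := by
    have := (al_eq ψ l b l l).1 (h1 l hl)
    rw [← this, hll]
  -- the vertex v
  obtain ⟨v, hv, hvd⟩ : ∃ v, v ≠ l ∧ ¬ (G.Adj l v ↔ H.Adj l (ψ l v)) := by
    by_contra hcon
    push Not at hcon
    refine hH.non ⟨⟨ψ l, ?_⟩⟩
    intro x y
    by_cases hx : x = l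
    · by_cases hy : y = l
      · subst hx
        subst hy
        simp
      · subst hx
        rw [hll]
        exact (hcon y hy).symm
    · by_cases hy : y = l
      · subst hy
        rw [hll, G.adj_comm, H.adj_comm]
        exact (hcon x hx).symm
      · exact (hH.adj l x y hx hy).symm
  have hvb : v ≠ b := by
    rintro rfl
    apply hvd
    have e1 := (al_eq ψ l w l l).1 (h2 l hl)
    have e2 := (al_eq ψ l w v v).1 (h2 v hb)
    have e3 := hH.adj w l v hlw hbw
    rw [← e1, ← e2, hll] at e3
    exact e3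
  set v' := al ψ l b v with hv'
  have hv'e : ψ l v = ψ b v' := (al_eq ψ l b v v').1 rfl
  have hv'b : v' ≠ b := by
    intro h
    apply hvb
    have : al ψ l b v = al ψ l b b := by rw [h1 b hb]; exact h
    exact (al ψ l b).injective this
  have hdist : ¬ (G.Adj l v ↔ G.Adj l v') := by
    intro h
    apply hvd
    rw [h]
    have e3 := hH.adj b l v' hlb hv'b
    rw [hbl, ← hv'e] at e3
    exact e3
  have hne : v ≠ v' := by
    intro h
    apply hdist
    rw [← h]
  refine ⟨v, v', ?_, ?_, hdist, ?_⟩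
  · intro h
    exact hne (h1 v h).symm
  · intro h
    have e4 : al ψ l b v' = al ψ l b v := by rw [h1 v' h]
    exact hne ((al ψ l b).injective e4).symm
  · intro t ht htl htb
    have e5 := (al_eq ψ l b t t).1 (h1 t ht)
    have e6 := hH.adj l t v htl hv
    have e7 := hH.adj b t v' htb hv'b
    rw [← e5, ← hv'e] at e7
    rw [e6, e7]

end COL_

open COL_ in
theorem p_COL : T_COL := by
  intro V _ G H ψ hH W c hc
  -- the classes and the bases
  let cl : V → Finset V := fun l => W.filter (fun x => c x = c l)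
  let base : Finset (Finset V) → V → V := fun γ d =>
    if h : (W.filter (fun x => c x = γ)).Nonempty then h.choose else d
  have hbase : ∀ γ d, (W.filter (fun x => c x = γ)).Nonempty →
      base γ d ∈ W ∧ c (base γ d) = γ := by
    intro γ d h
    have h1 : base γ d = h.choose := dif_pos h
    rw [h1]
    exact mem_filter.1 h.choose_spec
  have hbd : ∀ γ d d', (W.filter (fun x => c x = γ)).Nonempty → base γ d = base γ d' := by
    intro γ d d' h
    have h1 : base γ d = h.choose := dif_pos h
    have h2 : base γ d' = h.choose := dif_pos h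
    rw [h1, h2]
  let I : Finset V := W.filter (fun l => 3 ≤ (cl l).card ∧ l ≠ base (c l) l)
  have hIW : I ⊆ W := filter_subset _ _
  have key : ∀ l ∈ I, ∃ v v' : V, v ∉ W ∧ v' ∉ W ∧ ¬ (G.Adj l v ↔ G.Adj l v') ∧
      ∀ t ∈ I, t ≠ l → (G.Adj t v ↔ G.Adj t v') := by
    intro l hl
    obtain ⟨hlW, hl3, hlb⟩ := mem_filter.1 hl
    have hne : (W.filter (fun x => c x = c l)).Nonempty := ⟨l, mem_filter.2 ⟨hlW, rfl⟩⟩
    obtain ⟨hb1, hb2⟩ := hbase (c l) l hne
    set b := base (c l) l with hb
    obtain ⟨w, hw, hwn⟩ : ∃ w ∈ cl l, w ∉ ({l, b} : Finset V) := by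
      by_contra hcon
      push Not at hcon
      have h1 : (cl l).card ≤ ({l, b} : Finset V).card := card_le_card hcon
      have h2 : ({l, b} : Finset V).card ≤ 2 := card_le_two
      omega
    obtain ⟨hwW, hwc⟩ := mem_filter.1 hw
    simp only [mem_insert, mem_singleton, not_or] at hwn
    obtain ⟨v, v', g1, g2, g3, g4⟩ := one hH hlW hb1 hlb (Ne.symm hwn.1) (Ne.symm hwn.2)
      (hc l hlW b hb1 hb2.symm) (hc l hlW w hwW hwc.symm)
    refine ⟨v, v', g1, g2, g3, fun t ht htl => g4 t (hIW ht) htl ?_⟩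
    intro htb
    obtain ⟨_, _, ht3⟩ := mem_filter.1 ht
    apply ht3
    rw [htb, hb2]
    exact hbd (c l) l b hne
  choose! e1 e2 k1 k2 k3 k4 using key
  refine ⟨I, fun l => (e1 l, e2 l), hIW, ?_, ?_, ?_⟩
  · have h1 : (W \ I).card ≤ 2 * ((W \ I).image c).card := by
      refine card_le_mul_card_image (W \ I) 2 fun γ hγ => ?_
      obtain ⟨x, hx, rfl⟩ := mem_image.1 hγ
      obtain ⟨hxW, hxI⟩ := mem_sdiff.1 hx
      have hne : (W.filter (fun y => c y = c x)).Nonempty := ⟨x, mem_filter.2 ⟨hxW, rfl⟩⟩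
      by_cases h3 : 3 ≤ (cl x).card
      · have : (W \ I).filter (fun y => c y = c x) ⊆ {base (c x) x} := by
          intro y hy
          obtain ⟨hy1, hy2⟩ := mem_filter.1 hy
          obtain ⟨hyW, hyI⟩ := mem_sdiff.1 hy1
          rw [mem_singleton]
          by_contra hyb
          apply hyI
          refine mem_filter.2 ⟨hyW, ?_, ?_⟩
          · have : cl y = cl x := by
              simp only [cl, hy2]
            rw [this]
            exact h3
          · rw [hy2, hbd (c x) y x hne]
            exact hyb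
        refine (card_le_card this).trans ?_
        simp
      · have : (W \ I).filter (fun y => c y = c x) ⊆ cl x := by
          intro y hy
          obtain ⟨hy1, hy2⟩ := mem_filter.1 hy
          exact mem_filter.2 ⟨(mem_sdiff.1 hy1).1, hy2⟩
        have h4 := card_le_card this
        omega
    have h2 : ((W \ I).image c).card ≤ (univ.image c).card :=
      card_le_card (image_subset_image (subset_univ _))
    have h3 : (W \ I).card + I.card = W.card := card_sdiff_add_card_eq_card hIW
    omega
  · intro l hl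
    exact ⟨k1 l hl, k2 l hl, k3 l hl⟩
  · intro l hl t ht htl
    exact k4 l hl t ht htl

end Pool.Agent.Two9
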