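import Pool.Agent.Two9.Targets

/-!
# The components of the forest (job COMP)

The functions on the classes together with the functions `g l` are independent over the field with
two elements.
-/

set_option autoImplicit false

namespace Pool.Agent.Two9

open Finset Classical

namespace COMP_

theorem cls_eq {P : Type} [Fintype P] {r : P → P → Prop} {a b : P} (h : r a b) :
    cls r a = cls r b := by
  have h1 : Relation.EqvGen r a b := Relation.EqvGen.rel _ _ h
  unfold cls
  ext q
  simp only [mem_filter, mem_univ, true_and]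
  exact ⟨fun h2 => Relation.EqvGen.trans _ _ _ (Relation.EqvGen.symm _ _ h1) h2,
    fun h2 => Relation.EqvGen.trans _ _ _ h1 h2⟩

end COMP_

theorem p_COMP : T_COMP := by
  intro V _ Z I e g h1 h2 r hr
  set C : Finset (Finset V) := Z.image (cls r) with hC
  let w : V → V → ZMod 2 := fun l z => if g l z then 1 else 0
  let F : ({c // c ∈ C} → ZMod 2) × ({l // l ∈ I} → ZMod 2) → ({z // z ∈ Z} → ZMod 2) :=
    fun x z => x.1 ⟨cls r z.1, mem_image_of_mem _ z.2⟩ + ∑ l : {l // l ∈ I}, x.2 l * w l.1 z.1
  have hF : Function.Injective F := by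
    rintro ⟨c, a⟩ ⟨c', a'⟩ h
    have ha : a = a' := by
      funext l
      obtain ⟨z1, z2, hne⟩ := h1 l.1 l.2
      have e1 := congrFun h ⟨(e l.1).1, z1⟩
      have e2 := congrFun h ⟨(e l.1).2, z2⟩
      simp only [F] at e1 e2
      have hcl : (⟨cls r (e l.1).1, mem_image_of_mem _ z1⟩ : {c // c ∈ C}) =
          ⟨cls r (e l.1).2, mem_image_of_mem _ z2⟩ :=
        Subtype.ext (COMP_.cls_eq (hr l.1 l.2))
      rw [hcl] at e1
      have e3 : ∑ t : {l // l ∈ I}, a t * (w t.1 (e l.1).1 - w t.1 (e l.1).2) =
          ∑ t : {l // l ∈ I}, a' t * (w t.1 (e l.1).1 - w t.1 (e l.1).2) := by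
        simp only [mul_sub, sum_sub_distrib]
        linear_combination e1 - e2
      have e4 : ∀ b : {l // l ∈ I} → ZMod 2,
          ∑ t : {l // l ∈ I}, b t * (w t.1 (e l.1).1 - w t.1 (e l.1).2) =
            b l * (w l.1 (e l.1).1 - w l.1 (e l.1).2) := by
        intro b
        refine Finset.sum_eq_single l (fun t _ ht => ?_) (fun hl => absurd (mem_univ l) hl)
        have h3 : g t.1 (e l.1).1 ↔ g t.1 (e l.1).2 :=
          h2 l.1 l.2 t.1 t.2 fun h4 => ht (Subtype.ext h4)
        have h5 : w t.1 (e l.1).1 = w t.1 (e l.1).2 := by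
          simp only [w, h3]
        rw [h5, sub_self, mul_zero]
      rw [e4, e4] at e3
      have hw : w l.1 (e l.1).1 - w l.1 (e l.1).2 = 1 := by
        simp only [w]
        by_cases p1 : g l.1 (e l.1).1 <;> by_cases p2 : g l.1 (e l.1).2
        · exact absurd (iff_of_true p1 p2) hne
        · rw [if_pos p1, if_neg p2]; decide
        · rw [if_neg p1, if_pos p2]; decide
        · exact absurd (iff_of_false p1 p2) hne
      rwa [hw, mul_one, mul_one] at e3
    subst ha
    have hc : c = c' := by
      funext ⟨s, hs⟩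
      obtain ⟨z, hz, rfl⟩ := mem_image.1 hs
      have e1 := congrFun h ⟨z, hz⟩
      exact add_right_cancel e1
    rw [hc]
  have hcard := Fintype.card_le_of_injective F hF
  rw [Fintype.card_prod, Fintype.card_fun, Fintype.card_fun, Fintype.card_fun, ZMod.card,
    Fintype.card_coe, Fintype.card_coe, Fintype.card_coe, ← pow_add] at hcard
  exact (Nat.pow_le_pow_iff_right (by norm_num)).1 hcard

end Pool.Agent.Two9
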