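import Pool.Agent.Two9.Targets

set_option autoImplicit false

/-!
# DVD: the sizes of the orbits of the entries divide the size of an orbit of pairs
-/

namespace Pool.Agent.Two9

open Finset Classical

namespace DVD_

theorem dvd_aux {V : Type} [Fintype V] (Γ : Subgroup (Equiv.Perm V)) (p : V × V)
    (f : V × V → V) (hf : ∀ (g : Equiv.Perm V) (q : V × V), f (g q.1, g q.2) = g (f q)) :
    (orb Γ (f p)).card ∣ (orb2 Γ p).card := by
  have h1 : ∀ q ∈ orb2 Γ p, f q ∈ orb Γ (f p) := by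
    intro q hq
    simp only [orb2, orb, mem_filter, mem_univ, true_and] at hq ⊢
    obtain ⟨g, hg, h1, h2⟩ := hq
    refine ⟨g, hg, ?_⟩
    rw [← hf g p, h1, h2]
  have h2 : ∀ x ∈ orb Γ (f p), ((orb2 Γ p).filter (fun q => f q = x)).card =
      ((orb2 Γ p).filter (fun q => f q = f p)).card := by
    intro x hx
    simp only [orb, mem_filter, mem_univ, true_and] at hx
    obtain ⟨g, hg, rfl⟩ := hx
    refine card_nbij' (fun q => (g⁻¹ q.1, g⁻¹ q.2)) (fun q => (g q.1, g q.2)) ?_ ?_ ?_ ?_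
    · intro q hq
      simp only [orb2, coe_filter, mem_filter, mem_univ, true_and, Set.mem_ofPred_eq] at hq ⊢
      obtain ⟨⟨h, hh, h1, h2⟩, h3⟩ := hq
      refine ⟨⟨g⁻¹ * h, Γ.mul_mem (Γ.inv_mem hg) hh, ?_, ?_⟩, ?_⟩
      · simp [h1]
      · simp [h2]
      · rw [hf g⁻¹ q, h3]; simp
    · intro q hq
      simp only [orb2, coe_filter, mem_filter, mem_univ, true_and, Set.mem_ofPred_eq] at hq ⊢
      obtain ⟨⟨h, hh, h1, h2⟩, h3⟩ := hq
      refine ⟨⟨g * h, Γ.mul_mem hg hh, ?_, ?_⟩, ?_⟩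
      · simp [h1]
      · simp [h2]
      · rw [hf g q, h3]
    · intro q hq
      simp
    · intro q hq
      simp
  rw [card_eq_sum_card_fiberwise h1, sum_congr rfl h2, sum_const, smul_eq_mul]
  exact Dvd.intro _ rfl

end DVD_

/-- DVD -/
theorem p_DVD : T_DVD := by
  intro V _ Γ a b
  exact ⟨DVD_.dvd_aux Γ (a, b) Prod.fst (fun g q => rfl),
    DVD_.dvd_aux Γ (a, b) Prod.snd (fun g q => rfl)⟩

end Pool.Agent.Two9
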