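import Pool.Agent.Two9.Targets

/-!
# The number of classes which contain exceptional pairs (job Two9-EXC)
-/

set_option autoImplicit false

namespace Pool.Agent.Two9

open Finset Classical

namespace EXC_

theorem card_le {P Q : Type} [DecidableEq Q] (F : Finset P) (c : P → Q) (S1 S2 S3 S4 S5 S6 : Finset P)
    (h : ∀ p ∈ F, p ∈ S1 ∨ p ∈ S2 ∨ p ∈ S3 ∨ p ∈ S4 ∨ p ∈ S5 ∨ p ∈ S6) :
    (F.image c).card ≤ (S1.image c).card + (S2.image c).card + S3.card + S4.card + S5.card +
      S6.card := by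
  have h1 : F.image c ⊆ S1.image c ∪ S2.image c ∪ S3.image c ∪ S4.image c ∪ S5.image c ∪
      S6.image c := by
    intro q hq
    obtain ⟨p, hp, rfl⟩ := Finset.mem_image.1 hq
    simp only [Finset.mem_union]
    rcases h p hp with h | h | h | h | h | h
    · exact Or.inl (Or.inl (Or.inl (Or.inl (Or.inl (Finset.mem_image_of_mem c h)))))
    · exact Or.inl (Or.inl (Or.inl (Or.inl (Or.inr (Finset.mem_image_of_mem c h)))))
    · exact Or.inl (Or.inl (Or.inl (Or.inr (Finset.mem_image_of_mem c h))))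
    · exact Or.inl (Or.inl (Or.inr (Finset.mem_image_of_mem c h)))
    · exact Or.inl (Or.inr (Finset.mem_image_of_mem c h))
    · exact Or.inr (Finset.mem_image_of_mem c h)
  have h2 := Finset.card_le_card h1
  have u1 := Finset.card_union_le (S1.image c ∪ S2.image c ∪ S3.image c ∪ S4.image c ∪ S5.image c)
    (S6.image c)
  have u2 := Finset.card_union_le (S1.image c ∪ S2.image c ∪ S3.image c ∪ S4.image c) (S5.image c)
  have u3 := Finset.card_union_le (S1.image c ∪ S2.image c ∪ S3.image c) (S4.image c)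
  have u4 := Finset.card_union_le (S1.image c ∪ S2.image c) (S3.image c)
  have u5 := Finset.card_union_le (S1.image c) (S2.image c)
  have v3 := Finset.card_image_le (s := S3) (f := c)
  have v4 := Finset.card_image_le (s := S4) (f := c)
  have v5 := Finset.card_image_le (s := S5) (f := c)
  have v6 := Finset.card_image_le (s := S6) (f := c)
  omega

end EXC_

open EXC_ in
theorem p_EXC (h1 : T_EXC1) (h2 : T_EXC2) : T_EXC := by
  intro V _ Γ L f N X T I e hN hX
  have hNX : N ⊆ X := by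
    intro v hv
    have h3 := hN hv
    unfold big at h3
    rw [Finset.mem_filter] at h3
    apply hX
    rcases h3.2 with h4 | h4
    · omega
    · omega
  obtain ⟨a1, a2⟩ := h1 V Γ f N X T I e
  have a2 := a2 hNX
  obtain ⟨b1, b2, b3, b4⟩ := h2 V Γ L f N (big Γ L \ (I ∪ N))
  have key := card_le (univ.filter (exc Γ L f N I))
    (cls (lnk (Γ : Set (Equiv.Perm V)) f N X T I e))
    (univ.filter (fun p : V × V => orb Γ p.1 = orb Γ p.2))
    (univ.filter (fun p : V × V => p.1 ∈ N ∧ p.2 ∈ N ∧ f p.1 = f p.2))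
    (univ.filter (fun p : V × V => (orb Γ p.1).card = 2 ∧ (orb Γ p.2).card = 2 ∧
      p.1 ∉ big Γ L ∧ p.2 ∉ big Γ L ∧ eqv Γ p.1 p.2))
    (univ.filter (fun p : V × V => p.1 ∈ big Γ L \ (I ∪ N) ∨ p.2 ∈ big Γ L \ (I ∪ N)))
    (univ.filter (fun p : V × V => p.1 ∈ N ∧ f p.1 ∈ orb Γ p.2 ∧ (orb Γ p.2).card ≤ 3))
    (univ.filter (fun p : V × V => p.2 ∈ N ∧ f p.2 ∈ orb Γ p.1 ∧ (orb Γ p.1).card ≤ 3)) (by
      intro p hp
      simp only [Finset.mem_filter, Finset.mem_univ, true_and] at hp ⊢
      exact hp)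
  have k2 := Nat.mul_le_mul_left L key
  have c1 := Nat.mul_le_mul_left L a1
  have c2 := Nat.mul_le_mul_left L a2
  have c4 := Nat.mul_le_mul_left L b2
  have c5 := Nat.mul_le_mul_left L b3
  have c6 := Nat.mul_le_mul_left L b4
  refine k2.trans ?_
  simp only [mul_add]
  refine (Nat.add_le_add (Nat.add_le_add (Nat.add_le_add (Nat.add_le_add (Nat.add_le_add c1 c2) b1)
    c4) c5) c6).trans (le_of_eq ?_)
  ring

end Pool.Agent.Two9
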