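import Pool.Agent.Two9.Targets

set_option autoImplicit false

namespace Pool.Agent.Two9

open Finset Classical

namespace EXC1_

lemma cls_eq {P : Type} [Fintype P] {r : P → P → Prop} {p q : P} (h : Relation.EqvGen r p q) :
    cls r p = cls r q := by
  unfold cls
  ext x
  simp only [mem_filter, mem_univ, true_and]
  exact ⟨fun h' => (h.symm _ _).trans _ _ _ h', fun h' => h.trans _ _ _ h'⟩

lemma card_factor {P Q V : Type} [Fintype V] [DecidableEq Q] (S : Finset P) (F : P → Q) (h : P → V)
    (hF : ∀ p ∈ S, ∀ q ∈ S, h p = h q → F p = F q) : (S.image F).card ≤ Fintype.card V := by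
  have h1 : (S.image F).card ≤ (S.image h).card := by
    rcases S.eq_empty_or_nonempty with rfl | ⟨p0, hp0⟩
    · simp
    have : S.image F ⊆ (S.image h).image
        (fun v => if H : ∃ p ∈ S, h p = v then F H.choose else F p0) := by
      intro x hx
      rw [mem_image] at hx
      obtain ⟨p, hp, rfl⟩ := hx
      rw [mem_image]
      refine ⟨h p, mem_image_of_mem _ hp, ?_⟩
      have H : ∃ q ∈ S, h q = h p := ⟨p, hp, rfl⟩
      rw [dif_pos H]
      exact hF _ H.choose_spec.1 _ hp H.choose_spec.2
    exact (card_le_card this).trans card_image_le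
  exact h1.trans (card_le_univ _)

end EXC1_

open EXC1_ in
/-- exceptional classes -/
theorem p_EXC1 : T_EXC1 := by
  intro V _ Γ f N X T I e
  set r := lnk (Γ : Set (Equiv.Perm V)) f N X T I e with hr
  have swap : ∀ a b : V, Relation.EqvGen r (a, b) (b, a) := fun a b =>
    Relation.EqvGen.rel _ _ (Or.inl ⟨rfl, rfl⟩)
  have self_mem : ∀ a : V, a ∈ orb Γ a := fun a => by
    simp only [orb, mem_filter, mem_univ, true_and]
    exact ⟨1, Γ.one_mem, rfl⟩
  have orb_eq : ∀ a b : V, b ∈ orb Γ a → orb Γ b = orb Γ a := by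
    intro a b hb
    simp only [orb, mem_filter, mem_univ, true_and] at hb
    obtain ⟨g, hg, rfl⟩ := hb
    ext x
    simp only [orb, mem_filter, mem_univ, true_and]
    constructor
    · rintro ⟨k, hk, rfl⟩
      exact ⟨k * g, Γ.mul_mem hk hg, rfl⟩
    · rintro ⟨k, hk, rfl⟩
      exact ⟨k * g⁻¹, Γ.mul_mem hk (Γ.inv_mem hg), by simp⟩
  constructor
  · -- representatives
    let rep : Finset V → V → V := fun s y => if H : s.Nonempty then H.choose else y
    have key : ∀ p : V × V, orb Γ p.1 = orb Γ p.2 →
        ∃ y : V, cls r p = cls r (rep (orb Γ y) y, y) := by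
      rintro ⟨a, b⟩ hab
      simp only at hab
      have hne : (orb Γ a).Nonempty := ⟨a, self_mem a⟩
      have hc : hne.choose ∈ orb Γ a := hne.choose_spec
      have hc' := hc
      simp only [orb, mem_filter, mem_univ, true_and] at hc'
      obtain ⟨g, hg, hga⟩ := hc'
      refine ⟨g b, cls_eq (Relation.EqvGen.rel _ _ ?_)⟩
      have h1 : orb Γ (g b) = orb Γ a := by
        rw [hab]
        apply orb_eq
        simp only [orb, mem_filter, mem_univ, true_and]
        exact ⟨g, hg, rfl⟩
      right
      left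
      refine ⟨g, hg, ?_, rfl⟩
      simp only [h1]
      rw [hga]
      simp only [rep, dif_pos hne]
      rfl
    have hsub : (univ.filter (fun p : V × V => orb Γ p.1 = orb Γ p.2)).image (cls r) ⊆
        (univ : Finset V).image (fun y => cls r (rep (orb Γ y) y, y)) := by
      intro x hx
      rw [mem_image] at hx
      obtain ⟨p, hp, rfl⟩ := hx
      rw [mem_filter] at hp
      obtain ⟨y, hy⟩ := key p hp.2
      rw [mem_image]
      exact ⟨y, mem_univ _, hy.symm⟩
    exact (card_le_card hsub).trans (card_image_le.trans (le_of_eq rfl))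
  · intro hNX
    refine card_factor _ _ (fun p : V × V => f p.1) ?_
    rintro ⟨a, b⟩ hab ⟨a', b'⟩ hab' hf
    simp only [mem_filter, mem_univ, true_and] at hab hab' hf
    obtain ⟨ha, hb, hfab⟩ := hab
    obtain ⟨ha', hb', hfab'⟩ := hab'
    have tw : ∀ u v : V, u ∈ N → v ∈ X → Relation.EqvGen r (u, v) (f u, v) := fun u v hu hv =>
      Relation.EqvGen.rel _ _ (Or.inr (Or.inr (Or.inl ⟨hu, hv, rfl, rfl⟩)))
    apply cls_eq
    have s1 := tw a b ha (hNX hb)
    have s2 := tw a' b ha' (hNX hb)
    rw [← hf] at s2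
    have s3 : Relation.EqvGen r (a, b) (a', b) := s1.trans _ _ _ (s2.symm _ _)
    have s4 := tw b a' hb (hNX ha')
    have s5 := tw b' a' hb' (hNX ha')
    rw [← hfab', ← hf, hfab] at s5
    have s6 : Relation.EqvGen r (b, a') (b', a') := s4.trans _ _ _ (s5.symm _ _)
    exact s3.trans _ _ _ ((swap a' b).trans _ _ _ (s6.trans _ _ _ (swap b' a')))

end Pool.Agent.Two9
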