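import Pool.Agent.Two9.Targets

/-!
# Exceptional pairs
-/

set_option autoImplicit false

namespace Pool.Agent.Two9

open Finset Classical

namespace EXC2_

variable {V : Type} [Fintype V]

theorem count (P : V × V → Prop) [DecidablePred P] :
    (univ.filter P).card = ∑ a : V, (univ.filter (fun b => P (a, b))).card := by
  rw [card_filter, Fintype.sum_prod_type]
  refine sum_congr rfl fun a _ => ?_
  rw [card_filter]

theorem count' (P : V × V → Prop) [DecidablePred P] :
    (univ.filter P).card = ∑ b : V, (univ.filter (fun a => P (a, b))).card := by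
  rw [card_filter, Fintype.sum_prod_type, sum_comm]
  refine sum_congr rfl fun a _ => ?_
  rw [card_filter]

theorem mem_orb {Γ : Subgroup (Equiv.Perm V)} {a b : V} : b ∈ orb Γ a ↔ ∃ g ∈ Γ, g a = b := by
  simp [orb]

theorem orb_symm {Γ : Subgroup (Equiv.Perm V)} {a b : V} (h : b ∈ orb Γ a) : a ∈ orb Γ b := by
  rw [mem_orb] at h ⊢
  obtain ⟨g, hg, rfl⟩ := h
  exact ⟨g⁻¹, Γ.inv_mem hg, by simp⟩

theorem orb_sub {Γ : Subgroup (Equiv.Perm V)} {a b : V} (h : b ∈ orb Γ a) :
    orb Γ b ⊆ orb Γ a := by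
  intro c hc
  rw [mem_orb] at h hc ⊢
  obtain ⟨g, hg, rfl⟩ := h
  obtain ⟨g', hg', rfl⟩ := hc
  exact ⟨g' * g, Γ.mul_mem hg' hg, rfl⟩

theorem orb_eq {Γ : Subgroup (Equiv.Perm V)} {a b : V} (h : b ∈ orb Γ a) :
    orb Γ b = orb Γ a :=
  subset_antisymm (orb_sub h) (orb_sub (orb_symm h))

theorem few (Γ : Subgroup (Equiv.Perm V)) (x : V) (S : Finset V)
    (hS : ∀ b ∈ S, x ∈ orb Γ b ∧ (orb Γ b).card ≤ 3) : S.card ≤ 3 := by
  rcases S.eq_empty_or_nonempty with h | ⟨b, hb⟩
  · rw [h]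
    simp
  · have h1 : (orb Γ x).card ≤ 3 := by
      rw [orb_eq (hS b hb).1]
      exact (hS b hb).2
    refine le_trans (card_le_card fun c hc => ?_) h1
    exact orb_symm (hS c hc).1

end EXC2_

open EXC2_ in
theorem p_EXC2 : T_EXC2 := by
  intro V _ Γ L f N B
  refine ⟨?_, ?_, ?_, ?_⟩
  · rw [count, mul_sum]
    have h : ∀ a ∈ (univ : Finset V), L * (univ.filter (fun b => (orb Γ (a, b).1).card = 2 ∧
        (orb Γ (a, b).2).card = 2 ∧ (a, b).1 ∉ big Γ L ∧ (a, b).2 ∉ big Γ L ∧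
        eqv Γ (a, b).1 (a, b).2)).card ≤ Fintype.card V := by
      intro a _
      by_cases ha : (orb Γ a).card = 2 ∧ a ∉ big Γ L
      · have h1 : ¬ Fintype.card V ≤
            L * (univ.filter (fun b => (orb Γ b).card = 2 ∧ eqv Γ a b)).card := by
          intro h2
          apply ha.2
          rw [big, mem_filter]
          exact ⟨mem_univ _, Or.inr ⟨ha.1, h2⟩⟩
        refine le_trans (Nat.mul_le_mul_left L (card_le_card ?_)) (not_le.1 h1).le
        intro b hb
        rw [mem_filter] at hb ⊢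
        exact ⟨mem_univ _, hb.2.2.1, hb.2.2.2.2.2⟩
      · have h2 : (univ.filter (fun b => (orb Γ (a, b).1).card = 2 ∧
          (orb Γ (a, b).2).card = 2 ∧ (a, b).1 ∉ big Γ L ∧ (a, b).2 ∉ big Γ L ∧
          eqv Γ (a, b).1 (a, b).2)) = ∅ := by
          rw [filter_eq_empty_iff]
          rintro b _ ⟨h1, _, h2, _⟩
          exact ha ⟨h1, h2⟩
        rw [h2]
        simp
    refine le_trans (sum_le_sum h) ?_
    rw [sum_const, card_univ, smul_eq_mul, sq]
  · have h : (univ.filter (fun p : V × V => p.1 ∈ B ∨ p.2 ∈ B)) ⊆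
        (B ×ˢ univ) ∪ (univ ×ˢ B) := by
      intro p hp
      rw [mem_filter] at hp
      rw [mem_union, mem_product, mem_product]
      rcases hp.2 with h | h
      · exact Or.inl ⟨h, mem_univ _⟩
      · exact Or.inr ⟨mem_univ _, h⟩
    refine le_trans (card_le_card h) (le_trans (card_union_le _ _) (le_of_eq ?_))
    rw [card_product, card_product, card_univ]
    ring
  · rw [count]
    have h : ∀ a ∈ (univ : Finset V), (univ.filter (fun b => (a, b).1 ∈ N ∧
        f (a, b).1 ∈ orb Γ (a, b).2 ∧ (orb Γ (a, b).2).card ≤ 3)).card ≤ 3 := by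
      intro a _
      refine few Γ (f a) _ fun b hb => ?_
      rw [mem_filter] at hb
      exact ⟨hb.2.2.1, hb.2.2.2⟩
    refine le_trans (sum_le_sum h) ?_
    rw [sum_const, card_univ, smul_eq_mul, mul_comm]
  · rw [count']
    have h : ∀ a ∈ (univ : Finset V), (univ.filter (fun b => (b, a).2 ∈ N ∧
        f (b, a).2 ∈ orb Γ (b, a).1 ∧ (orb Γ (b, a).1).card ≤ 3)).card ≤ 3 := by
      intro a _
      refine few Γ (f a) _ fun b hb => ?_
      rw [mem_filter] at hb
      exact ⟨hb.2.2.1, hb.2.2.2⟩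
    refine le_trans (sum_le_sum h) ?_
    rw [sum_const, card_univ, smul_eq_mul, mul_comm]

end Pool.Agent.Two9
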