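import Pool.Agent.Two9.Targets

/-!
# TWO-FOUR: two orbits of size two
-/

set_option autoImplicit false

namespace Pool.Agent.Two9

open Finset Classical

namespace FOUR_

variable {V : Type} [Fintype V] {Γ : Subgroup (Equiv.Perm V)}

private lemma mem_orb {a b : V} : b ∈ orb Γ a ↔ ∃ g ∈ Γ, g a = b := by
  simp [orb]

private lemma self_mem (a : V) : a ∈ orb Γ a := mem_orb.2 ⟨1, Γ.one_mem, rfl⟩

private lemma smul_mem {g : Equiv.Perm V} (hg : g ∈ Γ) {a b : V} (hb : b ∈ orb Γ a) :
    g b ∈ orb Γ a := by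
  obtain ⟨h, hh, rfl⟩ := mem_orb.1 hb
  exact mem_orb.2 ⟨g * h, Γ.mul_mem hg hh, rfl⟩

private lemma two {a x y z : V} (ha : (orb Γ a).card = 2) (hx : x ∈ orb Γ a) (hy : y ∈ orb Γ a)
    (hz : z ∈ orb Γ a) (hxy : y ≠ x) (hxz : z ≠ x) : y = z := by
  by_contra hyz
  have h3 : ({x, y, z} : Finset V) ⊆ orb Γ a := by
    intro w hw
    simp only [mem_insert, mem_singleton] at hw
    rcases hw with rfl | rfl | rfl
    · exact hx
    · exact hy
    · exact hz
  have h4 := card_le_card h3
  rw [ha, card_eq_three.2 ⟨x, y, z, hxy.symm, hxz.symm, hyz, rfl⟩] at h4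
  omega

private lemma moved {a : V} (ha : (orb Γ a).card = 2) : ∃ g ∈ Γ, g a ≠ a := by
  by_contra hcon
  push Not at hcon
  have h : orb Γ a ⊆ {a} := by
    intro b hb
    obtain ⟨g, hg, rfl⟩ := mem_orb.1 hb
    rw [hcon g hg]
    exact mem_singleton_self a
  have h2 := card_le_card h
  rw [ha, card_singleton] at h2
  omega

private lemma key {a b : V} (ha : (orb Γ a).card = 2) (hb : (orb Γ b).card = 2)
    (h : ¬ eqv Γ a b) : ∃ k ∈ Γ, k a = a ∧ k b ≠ b := by
  unfold eqv at h
  push Not at h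
  obtain ⟨g, hg, h1 | h1⟩ := h
  · exact ⟨g, hg, h1⟩
  · obtain ⟨hga, hgb⟩ := h1
    obtain ⟨h, hh, hhb⟩ := moved hb
    by_cases hha : h a = a
    · exact ⟨h, hh, hha, hhb⟩
    · have e1 : h a = g a := two ha (self_mem a) (smul_mem hh (self_mem a))
        (smul_mem hg (self_mem a)) hha hga
      have e2 : g (g a) = a := by
        refine two (x := g a) ha (smul_mem hg (self_mem a))
          (smul_mem hg (smul_mem hg (self_mem a))) (self_mem a) ?_ hga.symm
        intro hc
        exact hga (g.injective hc)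
      have e3 : g (h b) ≠ b := by
        intro hc
        rw [← hgb] at hc
        rw [hgb] at hc
        exact hhb (g.injective (hc.trans hgb.symm))
      refine ⟨g * h, Γ.mul_mem hg hh, ?_, e3⟩
      change g (h a) = a
      rw [e1, e2]

end FOUR_

open FOUR_ in
theorem p_FOUR : T_FOUR := by
  intro V _ Γ a b ha hb hab
  obtain ⟨k, hk, hka, hkb⟩ := key ha hb hab
  constructor
  · obtain ⟨h, hh, hha⟩ := moved ha
    have hsub : ({(a, b), (a, k b), (h a, h b), (h a, h (k b))} : Finset (V × V)) ⊆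
        orb2 Γ (a, b) := by
      intro q hq
      simp only [mem_insert, mem_singleton] at hq
      simp only [orb2, mem_filter, mem_univ, true_and]
      rcases hq with rfl | rfl | rfl | rfl
      · exact ⟨1, Γ.one_mem, rfl, rfl⟩
      · exact ⟨k, hk, hka, rfl⟩
      · exact ⟨h, hh, rfl, rfl⟩
      · exact ⟨h * k, Γ.mul_mem hh hk, congrArg h hka, rfl⟩
    have hcard : ({(a, b), (a, k b), (h a, h b), (h a, h (k b))} : Finset (V × V)).card = 4 := by
      have hhk : h b ≠ h (k b) := fun hc => hkb (h.injective hc).symm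
      rw [card_insert_of_notMem, card_insert_of_notMem, card_insert_of_notMem, card_singleton]
      · simp [hhk]
      · simp [Ne.symm hha]
      · simp [Ne.symm hha, Ne.symm hkb]
    rw [← hcard]
    exact card_le_card hsub
  · intro b' hb'
    by_cases hbb : b' = b
    · subst hbb
      exact ⟨1, Γ.one_mem, rfl, rfl⟩
    · exact ⟨k, hk, hka, two hb (self_mem b) (smul_mem hk (self_mem b)) hb' hkb hbb⟩

end Pool.Agent.Two9
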