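import Pool.Agent.Two9.Targets

/-!
The stabilizer of a vertex of `big` is transitive on the small orbits outside `big` (FREE).
-/

set_option autoImplicit false

namespace Pool.Agent.Two9

open Finset Classical

namespace FREE_

variable {V : Type} [Fintype V] {Γ : Subgroup (Equiv.Perm V)}

theorem mem_orb {a b : V} : b ∈ orb Γ a ↔ ∃ g ∈ Γ, g a = b := by
  simp [orb]

theorem mem_orb2 {p q : V × V} : q ∈ orb2 Γ p ↔ ∃ g ∈ Γ, g p.1 = q.1 ∧ g p.2 = q.2 := by
  simp [orb2]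

theorem self_mem (a : V) : a ∈ orb Γ a := mem_orb.2 ⟨1, Γ.one_mem, rfl⟩

theorem self_mem2 (p : V × V) : p ∈ orb2 Γ p := mem_orb2.2 ⟨1, Γ.one_mem, rfl, rfl⟩

theorem orb2_sub (a b : V) : orb2 Γ (a, b) ⊆ orb Γ a ×ˢ orb Γ b := by
  intro q hq
  obtain ⟨g, hg, h1, h2⟩ := mem_orb2.1 hq
  exact mem_product.2 ⟨mem_orb.2 ⟨g, hg, h1⟩, mem_orb.2 ⟨g, hg, h2⟩⟩

end FREE_

open FREE_ in
theorem p_FREE (h1 : T_DVD) (h2 : T_FOUR) : T_FREE := by
  intro V _ Γ L v x hv hx hx3 x' hx'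
  have hxpos : 0 < (orb Γ x).card := card_pos.2 ⟨x, self_mem x⟩
  have hx1 : (orb Γ x).card ≠ 1 := fun h => hx (mem_filter.2 ⟨mem_univ _, Or.inl h⟩)
  rcases (mem_filter.1 hv).2 with hv1 | ⟨hv2, hvL⟩
  · obtain ⟨g, hg, hgx⟩ := mem_orb.1 hx'
    refine ⟨g, hg, ?_, hgx⟩
    obtain ⟨y, hy⟩ := card_eq_one.1 hv1
    have h3 : v ∈ orb Γ v := self_mem v
    have h4 : g v ∈ orb Γ v := mem_orb.2 ⟨g, hg, rfl⟩
    rw [hy, mem_singleton] at h3 h4
    rw [h3, ← h3, h4, h3]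
  · obtain h | h : (orb Γ x).card = 2 ∨ (orb Γ x).card = 3 := by omega
    · have hne : ¬ eqv Γ v x := by
        intro he
        refine hx (mem_filter.2 ⟨mem_univ _, Or.inr ⟨h, ?_⟩⟩)
        have h5 : (univ.filter (fun b => (orb Γ b).card = 2 ∧ eqv Γ v b)) =
            univ.filter (fun b => (orb Γ b).card = 2 ∧ eqv Γ x b) := by
          refine filter_congr fun b _ => and_congr_right fun _ => ?_
          exact ⟨fun hb g hg => (he g hg).symm.trans (hb g hg),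
            fun hb g hg => (he g hg).trans (hb g hg)⟩
        rw [← h5]
        exact hvL
      exact (h2 V Γ v x hv2 h hne).2 x' hx'
    · obtain ⟨h5, h6⟩ := h1 V Γ v x
      rw [hv2] at h5
      rw [h] at h6
      have h7 : 0 < (orb2 Γ (v, x)).card := card_pos.2 ⟨_, self_mem2 _⟩
      have h8 : 6 ≤ (orb2 Γ (v, x)).card := by omega
      have h9 : orb2 Γ (v, x) = orb Γ v ×ˢ orb Γ x := by
        refine eq_of_subset_of_card_le (orb2_sub v x) ?_
        rw [card_product, hv2, h]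
        exact h8
      have h10 : (v, x') ∈ orb2 Γ (v, x) := by
        rw [h9]
        exact mem_product.2 ⟨self_mem v, hx'⟩
      obtain ⟨g, hg, h11, h12⟩ := mem_orb2.1 h10
      exact ⟨g, hg, h11, h12⟩

end Pool.Agent.Two9
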