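import Pool.Agent.Two9.Targets

/-!
`GENLINK`: generators vs group (see `Blueprint.lean.txt`).
-/

set_option autoImplicit false

namespace Pool.Agent.Two9

open Finset Classical

namespace GENLINK_

private lemma fac {P A B : Type} [Fintype P] {_ : DecidableEq A} {_ : DecidableEq B} (f : P → A)
    (g : P → B) (h : ∀ p q, g p = g q → f p = f q) :
    (univ.image f).card ≤ (univ.image g).card := by
  apply Finset.card_le_card_of_forall_subsingleton (fun a b => ∃ p, f p = a ∧ g p = b)
  · intro a ha
    obtain ⟨p, -, rfl⟩ := Finset.mem_image.1 ha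
    exact ⟨g p, Finset.mem_image.2 ⟨p, Finset.mem_univ _, rfl⟩, p, rfl, rfl⟩
  · intro b _ a ha a' ha'
    obtain ⟨p, hp1, hp2⟩ := ha.2
    obtain ⟨q, hq1, hq2⟩ := ha'.2
    rw [← hp1, ← hq1]
    exact h p q (hp2.trans hq2.symm)

private lemma cls_eq {P : Type} [Fintype P] (r : P → P → Prop) (p q : P)
    (h : Relation.EqvGen r p q) : cls r p = cls r q := by
  unfold cls
  ext x
  simp only [Finset.mem_filter, Finset.mem_univ, true_and]
  exact ⟨fun hx => (h.symm _ _).trans _ _ _ hx, fun hx => h.trans _ _ _ hx⟩

private lemma mem_cls_self {P : Type} [Fintype P] (r : P → P → Prop) (p : P) : p ∈ cls r p := by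
  unfold cls
  simp only [Finset.mem_filter, Finset.mem_univ, true_and]
  exact Relation.EqvGen.refl p

private lemma of_cls_eq {P : Type} [Fintype P] (r : P → P → Prop) (p q : P)
    (h : cls r p = cls r q) : Relation.EqvGen r p q := by
  have h1 : q ∈ cls r p := by rw [h]; exact mem_cls_self r q
  unfold cls at h1
  simpa only [Finset.mem_filter, Finset.mem_univ, true_and] using h1

private lemma eqvGen_lift {P : Type} (r s : P → P → Prop)
    (h : ∀ p q, s p q → Relation.EqvGen r p q) (p q : P) (hpq : Relation.EqvGen s p q) :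
    Relation.EqvGen r p q := by
  induction hpq with
  | rel x y hxy => exact h x y hxy
  | refl x => exact Relation.EqvGen.refl x
  | symm x y _ ih => exact ih.symm _ _
  | trans x y z _ _ ih1 ih2 => exact ih1.trans _ _ _ ih2

private lemma grp {V : Type} (S : Set (Equiv.Perm V)) (f : V → V) (N X T I : Finset V)
    (e : V → V × V) (g : Equiv.Perm V) (hg : g ∈ Subgroup.closure S) :
    ∀ p : V × V, Relation.EqvGen (lnk S f N X T I e) p (g p.1, g p.2) := by
  induction hg using Subgroup.closure_induction with
  | mem x hx =>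
    intro p
    exact Relation.EqvGen.rel _ _ (Or.inr (Or.inl ⟨x, hx, rfl, rfl⟩))
  | one =>
    intro p
    exact Relation.EqvGen.refl p
  | mul x y _ _ ihx ihy =>
    intro p
    have h1 := ihy p
    have h2 := ihx (y p.1, y p.2)
    exact h1.trans _ _ _ h2
  | inv x _ ihx =>
    intro p
    have h1 := ihx (x⁻¹ p.1, x⁻¹ p.2)
    have e1 : ∀ a, x (x⁻¹ a) = a := fun a => x.apply_symm_apply a
    simp only [e1] at h1
    exact h1.symm _ _

end GENLINK_

open GENLINK_ in
theorem p_GENLINK : T_GENLINK := by
  intro V _ S f N X T I e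
  constructor
  · unfold nc
    refine fac (P := V × V) _ _ ?_
    intro p q hpq
    apply cls_eq
    refine eqvGen_lift _ _ ?_ p q (of_cls_eq _ p q hpq)
    intro a b hab
    rcases hab with h | ⟨g, hg, h1, h2⟩ | h | h
    · exact Relation.EqvGen.rel _ _ (Or.inl h)
    · have h3 := grp S f N X T I e g hg a
      have h4 : b = (g a.1, g a.2) := Prod.ext h1.symm h2.symm
      rw [h4]
      exact h3
    · exact Relation.EqvGen.rel _ _ (Or.inr (Or.inr (Or.inl h)))
    · exact Relation.EqvGen.rel _ _ (Or.inr (Or.inr (Or.inr h)))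
  · unfold nc n2
    refine fac (P := V × V) _ _ ?_
    intro p q hpq
    apply cls_eq
    have h1 : q ∈ orb2 (Subgroup.closure S) p := by
      rw [hpq]
      unfold orb2
      simp only [Finset.mem_filter, Finset.mem_univ, true_and]
      exact ⟨1, Subgroup.one_mem _, rfl, rfl⟩
    unfold orb2 at h1
    simp only [Finset.mem_filter, Finset.mem_univ, true_and] at h1
    obtain ⟨g, hg, h2, h3⟩ := h1
    exact Relation.EqvGen.rel _ _ (Or.inr (Or.inl ⟨g, hg, h2, h3⟩))

end Pool.Agent.Two9
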