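import Pool.Agent.Two9.Targets

/-!
# Avoiding the holes (job Two9-HOLE)
-/

set_option autoImplicit false

namespace Pool.Agent.Two9

open Finset Classical

namespace HOLE_

theorem al_ne {V : Type} (ψ : V → Equiv.Perm V) (x y v : V) :
    al ψ x y v ≠ v ↔ ψ x v ≠ ψ y v := by
  unfold al
  rw [Equiv.Perm.mul_apply, Ne, Equiv.Perm.inv_eq_iff_eq]

theorem al_hole {V : Type} (ψ : V → Equiv.Perm V) (h : ∀ w, ψ w w = w) (x y v : V) :
    al ψ x y v ≠ y ↔ ψ x v ≠ y := by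
  unfold al
  rw [Equiv.Perm.mul_apply, Ne, Equiv.Perm.inv_eq_iff_eq, h]

end HOLE_

open HOLE_ in
theorem p_HOLE : T_HOLE := by
  intro V ψ hfix S hS w hw w' hw' v hv
  rw [al_ne] at hv
  suffices h : ∃ u ∈ S, ∃ u' ∈ S, ψ u v ≠ ψ u' v ∧ v ≠ u ∧ ψ u v ≠ u' by
    obtain ⟨u, hu, u', hu', h1, h2, h3⟩ := h
    exact ⟨u, hu, u', hu', (al_ne ψ u u' v).2 h1, h2, (al_hole ψ hfix u u' v).2 h3⟩
  have hne : w ≠ w' := fun h => hv (by rw [h])
  by_cases h1 : v = w
  · subst h1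
    refine ⟨w', hw', v, hw, hv.symm, hne, ?_⟩
    intro h2
    exact hv (by rw [hfix, h2])
  by_cases h2 : ψ w v = w'
  · have h3 : v ≠ w' := fun h => hv (by rw [h2, h, hfix])
    by_cases h4 : ψ w' v = w
    · obtain ⟨w'', hw'', h5⟩ : ∃ w'' ∈ S, w'' ∉ ({w, w'} : Finset V) := by
        by_contra hcon
        push Not at hcon
        have h6 : S.card ≤ ({w, w'} : Finset V).card := Finset.card_le_card hcon
        have h7 : ({w, w'} : Finset V).card ≤ 2 := Finset.card_le_two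
        omega
      rw [Finset.mem_insert, Finset.mem_singleton, not_or] at h5
      by_cases h6 : ψ w'' v = w'
      · refine ⟨w', hw', w'', hw'', ?_, h3, ?_⟩
        · rw [h4, h6]; exact hne
        · rw [h4]; exact Ne.symm h5.1
      · refine ⟨w, hw, w'', hw'', ?_, h1, ?_⟩
        · rw [h2]; exact Ne.symm h6
        · rw [h2]; exact Ne.symm h5.2
    · exact ⟨w', hw', w, hw, hv.symm, h3, h4⟩
  · exact ⟨w, hw, w', hw', hv, h1, h2⟩

end Pool.Agent.Two9
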