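import Pool.Agent.Two9.Targets

set_option autoImplicit false
set_option linter.unusedSectionVars false

/-!
# INV: invariance of the graph off the vertices whose orbit contains a hole
-/

namespace Pool.Agent.Two9

open Finset Classical

namespace INV_

section

variable {V : Type} [Fintype V] (Γ : Subgroup (Equiv.Perm V))

theorem mem_orb (a b : V) : b ∈ orb Γ a ↔ ∃ g ∈ Γ, g a = b := by
  simp [orb]

theorem self_mem (a : V) : a ∈ orb Γ a := (mem_orb Γ a a).2 ⟨1, Γ.one_mem, rfl⟩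

theorem symm_mem {a b : V} (h : b ∈ orb Γ a) : a ∈ orb Γ b := by
  rw [mem_orb] at h ⊢
  obtain ⟨g, hg, rfl⟩ := h
  exact ⟨g⁻¹, Γ.inv_mem hg, by simp⟩

theorem trans_mem {a b c : V} (h : b ∈ orb Γ a) (h' : c ∈ orb Γ b) : c ∈ orb Γ a := by
  rw [mem_orb] at h h' ⊢
  obtain ⟨g, hg, rfl⟩ := h
  obtain ⟨k, hk, rfl⟩ := h'
  exact ⟨k * g, Γ.mul_mem hk hg, rfl⟩

theorem orb_eq {a b : V} (h : b ∈ orb Γ a) : orb Γ b = orb Γ a := by
  ext c
  exact ⟨fun hc => trans_mem Γ h hc, fun hc => trans_mem Γ (symm_mem Γ h) hc⟩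

end

variable {V : Type} [Fintype V]

theorem hol_closed (ψ : V → Equiv.Perm V) (Φ : Finset (V × V)) (g : Equiv.Perm V)
    (hg : g ∈ gen ψ Φ) (a : V) (ha : a ∉ hol ψ Φ) : g a ∉ hol ψ Φ := by
  have h1 : g a ∈ orb (gen ψ Φ) a := (mem_orb _ _ _).2 ⟨g, hg, rfl⟩
  have h2 := orb_eq (gen ψ Φ) h1
  simp only [hol, mem_filter, mem_univ, true_and] at ha ⊢
  rwa [h2]

theorem not_hole (ψ : V → Equiv.Perm V) (Φ : Finset (V × V)) (p : V × V) (hp : p ∈ Φ) (a : V)
    (ha : a ∉ hol ψ Φ) : a ≠ p.1 ∧ a ≠ (ψ p.1)⁻¹ p.2 := by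
  simp only [hol, mem_filter, mem_univ, true_and, not_exists, not_and, not_or] at ha
  have h := ha p hp
  constructor
  · rintro rfl; exact h.1 (self_mem _ _)
  · rintro rfl; exact h.2 (self_mem _ _)

theorem al_adj (G H : SimpleGraph V) (ψ : V → Equiv.Perm V) (h : Hyp G H ψ) (w w' a b : V)
    (ha : a ≠ w ∧ a ≠ (ψ w)⁻¹ w') (hb : b ≠ w ∧ b ≠ (ψ w)⁻¹ w') :
    G.Adj a b ↔ G.Adj (al ψ w w' a) (al ψ w w' b) := by
  have key : ∀ c, c ≠ (ψ w)⁻¹ w' → al ψ w w' c ≠ w' := by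
    intro c hc h1
    apply hc
    have h2 : ψ w' (al ψ w w' c) = ψ w c := by simp [al]
    rw [h1, h.fix] at h2
    rw [h2]; simp
  have h1 := h.adj w a b ha.1 hb.1
  have h2 := h.adj w' (al ψ w w' a) (al ψ w w' b) (key a ha.2) (key b hb.2)
  have h3 : ∀ c, ψ w' (al ψ w w' c) = ψ w c := by intro c; simp [al]
  rw [h3, h3] at h2
  exact h1.trans h2.symm

end INV_

open INV_ in
/-- INV -/
theorem p_INV : T_INV := by
  intro V _ G H ψ hyp Φ
  constructor
  · intro g hg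
    refine Subgroup.closure_induction (p := fun g _ => ∀ a b, a ∉ hol ψ Φ → b ∉ hol ψ Φ →
      (G.Adj a b ↔ G.Adj (g a) (g b))) ?_ ?_ ?_ ?_ hg
    · rintro x ⟨p, hp, rfl⟩ a b ha hb
      exact al_adj G H ψ hyp p.1 p.2 a b (not_hole ψ Φ p hp a ha) (not_hole ψ Φ p hp b hb)
    · intro a b _ _
      rfl
    · intro x y hx hy h1 h2 a b ha hb
      exact (h2 a b ha hb).trans (h1 (y a) (y b) (hol_closed ψ Φ y hy a ha)
        (hol_closed ψ Φ y hy b hb))
    · intro x hx h1 a b ha hb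
      have hx' : x⁻¹ ∈ gen ψ Φ := (gen ψ Φ).inv_mem hx
      have h2 := h1 (x⁻¹ a) (x⁻¹ b) (hol_closed ψ Φ _ hx' a ha) (hol_closed ψ Φ _ hx' b hb)
      simpa using h2.symm
  · set Γ := gen ψ Φ with hΓ
    set F : V → Finset V := fun h => if (orb Γ h).card ≤ 3 then orb Γ h else ∅ with hF
    have hF3 : ∀ h, (F h).card ≤ 3 := by
      intro h
      simp only [hF]
      split_ifs with h1
      · exact h1
      · simp
    have hsub : (hol ψ Φ).filter (fun x => (orb Γ x).card ≤ 3) ⊆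
        Φ.biUnion (fun p => F p.1 ∪ F ((ψ p.1)⁻¹ p.2)) := by
      intro x hx
      rw [mem_filter] at hx
      obtain ⟨hx1, hx2⟩ := hx
      simp only [hol, mem_filter, mem_univ, true_and] at hx1
      obtain ⟨p, hp, h1⟩ := hx1
      have key : ∀ h, h ∈ orb Γ x → x ∈ F h := by
        intro h hh
        have e := orb_eq Γ hh
        simp only [hF]
        rw [e, if_pos hx2]
        exact self_mem Γ x
      rw [mem_biUnion]
      refine ⟨p, hp, ?_⟩
      rw [mem_union]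
      rcases h1 with h1 | h1
      · exact Or.inl (key _ h1)
      · exact Or.inr (key _ h1)
    calc ((hol ψ Φ).filter (fun x => (orb Γ x).card ≤ 3)).card
        ≤ (Φ.biUnion (fun p => F p.1 ∪ F ((ψ p.1)⁻¹ p.2))).card := card_le_card hsub
      _ ≤ Φ.card * 6 := card_biUnion_le_card_mul _ _ _ (fun p _ =>
          (card_union_le _ _).trans (by have := hF3 p.1; have := hF3 ((ψ p.1)⁻¹ p.2); omega))
      _ = 6 * Φ.card := mul_comm _ _

end Pool.Agent.Two9
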