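import Pool.Agent.Two9.Targets

set_option autoImplicit false

namespace Pool.Agent.Two9

open Finset Classical

namespace MERGE_

variable {V : Type} [Fintype V]

lemma mem_orb2 (Γ : Subgroup (Equiv.Perm V)) (p q : V × V) :
    q ∈ orb2 Γ p ↔ ∃ g ∈ Γ, g p.1 = q.1 ∧ g p.2 = q.2 := by
  simp [orb2]

lemma self_mem (Γ : Subgroup (Equiv.Perm V)) (p : V × V) : p ∈ orb2 Γ p :=
  (mem_orb2 Γ p p).2 ⟨1, Γ.one_mem, rfl, rfl⟩

lemma symm_mem (Γ : Subgroup (Equiv.Perm V)) {p q : V × V} (h : q ∈ orb2 Γ p) :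
    p ∈ orb2 Γ q := by
  obtain ⟨g, hg, h1, h2⟩ := (mem_orb2 Γ p q).1 h
  refine (mem_orb2 Γ q p).2 ⟨g⁻¹, Γ.inv_mem hg, ?_, ?_⟩
  · rw [Equiv.Perm.inv_eq_iff_eq, h1]
  · rw [Equiv.Perm.inv_eq_iff_eq, h2]

lemma trans_mem (Γ : Subgroup (Equiv.Perm V)) {p q r : V × V} (h : q ∈ orb2 Γ p)
    (h' : r ∈ orb2 Γ q) : r ∈ orb2 Γ p := by
  obtain ⟨g, hg, h1, h2⟩ := (mem_orb2 Γ p q).1 h
  obtain ⟨g', hg', h1', h2'⟩ := (mem_orb2 Γ q r).1 h'
  refine (mem_orb2 Γ p r).2 ⟨g' * g, Γ.mul_mem hg' hg, ?_, ?_⟩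
  · rw [Equiv.Perm.mul_apply, h1, h1']
  · rw [Equiv.Perm.mul_apply, h2, h2']

lemma eq_of_mem (Γ : Subgroup (Equiv.Perm V)) {p q : V × V} (h : q ∈ orb2 Γ p) :
    orb2 Γ q = orb2 Γ p := by
  ext r
  exact ⟨fun h' => trans_mem Γ h h', fun h' => trans_mem Γ (symm_mem Γ h) h'⟩

/-- the orbit of the larger group which contains a given orbit -/
noncomputable def F (Γ' : Subgroup (Equiv.Perm V)) (O : Finset (V × V)) : Finset (V × V) :=
  O.biUnion (orb2 Γ')

lemma F_eq {Γ Γ' : Subgroup (Equiv.Perm V)} (h : Γ ≤ Γ') (p : V × V) :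
    F Γ' (orb2 Γ p) = orb2 Γ' p := by
  ext r
  unfold F
  rw [Finset.mem_biUnion]
  constructor
  · rintro ⟨q, hq, hr⟩
    obtain ⟨g, hg, h1⟩ := (mem_orb2 Γ p q).1 hq
    exact trans_mem Γ' ((mem_orb2 Γ' p q).2 ⟨g, h hg, h1⟩) hr
  · intro hr
    exact ⟨p, self_mem Γ p, hr⟩

end MERGE_

open MERGE_ in
theorem p_MERGE : T_MERGE := by
  intro V _ Γ Γ' α m hΓ hα hn
  set S := (univ.filter (fun p : V × V => (α p.1, α p.2) ∉ orb2 Γ p)).image (orb2 Γ) with hS
  set A := univ.image (orb2 Γ) with hA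
  set B := univ.image (orb2 Γ') with hB
  have hSA : S ⊆ A := Finset.image_subset_image (Finset.subset_univ _)
  have hAB : ∀ O ∈ A, F Γ' O ∈ B := by
    intro O hO
    obtain ⟨p, -, rfl⟩ := Finset.mem_image.1 hO
    rw [F_eq hΓ]
    exact Finset.mem_image_of_mem _ (Finset.mem_univ _)
  have h1 : A.card = ∑ b ∈ B, (A.filter (fun O => F Γ' O = b)).card :=
    Finset.card_eq_sum_card_fiberwise hAB
  have h2 : S.card = ∑ b ∈ B, (S.filter (fun O => F Γ' O = b)).card :=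
    Finset.card_eq_sum_card_fiberwise (fun O hO => hAB O (hSA hO))
  have h3 : ∀ b ∈ B, (S.filter (fun O => F Γ' O = b)).card + 2 ≤
      2 * (A.filter (fun O => F Γ' O = b)).card := by
    intro b hb
    have h4 : (S.filter (fun O => F Γ' O = b)).card ≤ (A.filter (fun O => F Γ' O = b)).card :=
      Finset.card_le_card (Finset.filter_subset_filter _ hSA)
    have h5 : 1 ≤ (A.filter (fun O => F Γ' O = b)).card := by
      obtain ⟨p, -, rfl⟩ := Finset.mem_image.1 hb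
      refine Finset.card_pos.2 ⟨orb2 Γ p, ?_⟩
      rw [Finset.mem_filter]
      exact ⟨Finset.mem_image_of_mem _ (Finset.mem_univ _), F_eq hΓ p⟩
    rcases Nat.eq_zero_or_pos (S.filter (fun O => F Γ' O = b)).card with h0 | h0
    · omega
    · obtain ⟨O, hO⟩ := Finset.card_pos.1 h0
      rw [Finset.mem_filter] at hO
      obtain ⟨p, hp, rfl⟩ := Finset.mem_image.1 hO.1
      have hp' := (Finset.mem_filter.1 hp).2
      have h6 : 1 < (A.filter (fun O => F Γ' O = b)).card := by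
        rw [Finset.one_lt_card]
        refine ⟨orb2 Γ p, ?_, orb2 Γ (α p.1, α p.2), ?_, ?_⟩
        · rw [Finset.mem_filter]
          exact ⟨hSA hO.1, hO.2⟩
        · rw [Finset.mem_filter]
          refine ⟨Finset.mem_image_of_mem _ (Finset.mem_univ _), ?_⟩
          rw [F_eq hΓ, ← hO.2, F_eq hΓ]
          exact eq_of_mem Γ' ((mem_orb2 Γ' _ _).2 ⟨α, hα, rfl, rfl⟩)
        · intro heq
          apply hp'
          rw [heq]
          exact self_mem Γ _
      omega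
  have h4 := Finset.sum_le_sum h3
  rw [Finset.sum_add_distrib, ← h2, ← Finset.mul_sum, ← h1, Finset.sum_const, smul_eq_mul] at h4
  have h5 : A.card ≤ B.card + m := hn
  omega

end Pool.Agent.Two9
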