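import Pool.Agent.Two9.Targets

/-!
# TWO-NCSUM: the number of classes is at most the sum of the inverse sizes
-/

set_option autoImplicit false

namespace Pool.Agent.Two9

open Finset Classical

namespace NCSUM_

variable {P : Type} [Fintype P] (r : P → P → Prop)

private lemma mem_cls {p q : P} : q ∈ cls r p ↔ Relation.EqvGen r p q := by
  simp [cls]

private lemma cls_eq_iff {p q : P} : cls r q = cls r p ↔ q ∈ cls r p := by
  rw [mem_cls]
  constructor
  · intro h
    have h2 : p ∈ cls r q := by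
      rw [h, mem_cls]
      exact Relation.EqvGen.refl p
    rw [mem_cls] at h2
    exact h2.symm
  · intro h
    ext x
    rw [mem_cls, mem_cls]
    exact ⟨fun hx => h.trans _ _ _ hx, fun hx => (h.symm).trans _ _ _ hx⟩

private lemma fib (E : Finset P) (C : Finset P)
    (hC : C ∈ univ.image (cls r) \ E.image (cls r)) :
    ∑ p ∈ Eᶜ with cls r p = C, ((cls r p).card : ℝ)⁻¹ = 1 := by
  rw [mem_sdiff, mem_image] at hC
  obtain ⟨⟨q, -, rfl⟩, hE⟩ := hC
  have hset : (Eᶜ.filter (fun p => cls r p = cls r q)) = cls r q := by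
    ext p
    rw [mem_filter, mem_compl, cls_eq_iff]
    refine ⟨fun h => h.2, fun h => ⟨fun hp => hE ?_, h⟩⟩
    rw [← (cls_eq_iff r).2 h]
    exact mem_image_of_mem _ hp
  have hconst : ∑ p ∈ Eᶜ with cls r p = cls r q, ((cls r p).card : ℝ)⁻¹ =
      ∑ p ∈ Eᶜ with cls r p = cls r q, ((cls r q).card : ℝ)⁻¹ :=
    sum_congr rfl fun p hp => by rw [(mem_filter.1 hp).2]
  rw [hconst, hset, sum_const, nsmul_eq_mul]
  refine mul_inv_cancel₀ ?_
  have h : q ∈ cls r q := (mem_cls r).2 (Relation.EqvGen.refl q)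
  exact_mod_cast (card_pos.2 ⟨q, h⟩).ne'

end NCSUM_

open NCSUM_ in
theorem p_NCSUM : T_NCSUM := by
  intro P _ r E
  have h1 : ((univ.image (cls r) \ E.image (cls r)).card : ℝ) ≤
      ∑ p ∈ Eᶜ, ((cls r p).card : ℝ)⁻¹ := by
    have h2 : ((univ.image (cls r) \ E.image (cls r)).card : ℝ) =
        ∑ C ∈ univ.image (cls r) \ E.image (cls r),
          ∑ p ∈ Eᶜ with cls r p = C, ((cls r p).card : ℝ)⁻¹ := by
      rw [sum_congr rfl (fib r E), sum_const, nsmul_eq_mul, mul_one]
    rw [h2]
    exact sum_fiberwise_le_sum_of_sum_fiber_nonneg fun _ _ =>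
      sum_nonneg fun _ _ => inv_nonneg.2 (Nat.cast_nonneg _)
  have h3 : nc r ≤ (E.image (cls r)).card + (univ.image (cls r) \ E.image (cls r)).card := by
    unfold nc
    calc (univ.image (cls r)).card
        ≤ (E.image (cls r) ∪ (univ.image (cls r) \ E.image (cls r))).card := by
          refine card_le_card fun C hC => ?_
          rw [mem_union, mem_sdiff]
          by_cases h : C ∈ E.image (cls r)
          · exact Or.inl h
          · exact Or.inr ⟨hC, h⟩
      _ ≤ _ := card_union_le _ _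
  have h4 : (nc r : ℝ) ≤ ((E.image (cls r)).card : ℝ) +
      ((univ.image (cls r) \ E.image (cls r)).card : ℝ) := by exact_mod_cast h3
  linarith

end Pool.Agent.Two9
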