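import Pool.Agent.Two9.Targets

/-!
NTW: a vertex of `big` which is moved by some `al ψ w w'` has a near twin.
-/

set_option autoImplicit false

namespace Pool.Agent.Two9

open Finset Classical

namespace NTW_

theorem al_adj {V : Type} {G H : SimpleGraph V} {ψ : V → Equiv.Perm V} (h : Hyp G H ψ)
    (w w' a b : V) (ha : a ≠ w) (hb : b ≠ w) (ha' : al ψ w w' a ≠ w') (hb' : al ψ w w' b ≠ w') :
    G.Adj a b ↔ G.Adj (al ψ w w' a) (al ψ w w' b) := by
  rw [h.adj w a b ha hb, h.adj w' _ _ ha' hb']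
  simp [al]

variable {V : Type} [Fintype V] {Γ : Subgroup (Equiv.Perm V)}

theorem mem_orb {a b : V} : b ∈ orb Γ a ↔ ∃ g ∈ Γ, g a = b := by
  simp [orb]

theorem self_mem (a : V) : a ∈ orb Γ a := mem_orb.2 ⟨1, Γ.one_mem, rfl⟩

theorem orb_eq {a b : V} (h : b ∈ orb Γ a) : orb Γ b = orb Γ a := by
  obtain ⟨g, hg, rfl⟩ := mem_orb.1 h
  ext c
  rw [mem_orb, mem_orb]
  constructor
  · rintro ⟨k, hk, rfl⟩
    exact ⟨k * g, Γ.mul_mem hk hg, rfl⟩
  · rintro ⟨k, hk, rfl⟩
    exact ⟨k * g⁻¹, Γ.mul_mem hk (Γ.inv_mem hg), by simp⟩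

theorem card_orbs (O : Finset V) :
    (univ.filter (fun x => (orb Γ x).card ≤ 3 ∧ orb Γ x = O)).card ≤ 3 := by
  by_cases hO : O.card ≤ 3
  · refine (card_le_card ?_).trans hO
    intro x hx
    rw [mem_filter] at hx
    rw [← hx.2.2]
    exact self_mem x
  · rw [Finset.card_eq_zero.2]
    · omega
    · rw [Finset.filter_eq_empty_iff]
      rintro x _ ⟨h1, h2⟩
      rw [h2] at h1
      exact hO h1

theorem card_nio (α : Equiv.Perm V) :
    (univ.filter (fun x => (orb Γ x).card ≤ 3 ∧ ∃ a ∈ orb Γ x, α a ∉ orb Γ x)).card ≤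
      3 * nio Γ α := by
  unfold nio
  have h := Finset.card_le_mul_card_image (f := orb Γ)
    (univ.filter (fun x => (orb Γ x).card ≤ 3 ∧ ∃ a ∈ orb Γ x, α a ∉ orb Γ x)) 3 ?_
  · refine h.trans (Nat.mul_le_mul_left 3 (card_le_card ?_))
    intro O hO
    rw [mem_image] at hO
    obtain ⟨x, hx, rfl⟩ := hO
    rw [mem_filter] at hx
    obtain ⟨_, _, a, ha, ha'⟩ := hx
    rw [mem_image]
    refine ⟨a, ?_, orb_eq ha⟩
    rw [mem_filter, orb_eq ha]
    exact ⟨mem_univ _, ha'⟩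
  · intro O _
    refine (card_le_card ?_).trans (card_orbs (Γ := Γ) O)
    intro x hx
    rw [mem_filter, mem_filter] at hx
    rw [mem_filter]
    exact ⟨mem_univ _, hx.1.2.1, hx.2⟩

omit [Fintype V] in
theorem surj (α : Equiv.Perm V) (O : Finset V) (h : ∀ a ∈ O, α a ∈ O) {x : V} (hx : x ∈ O) :
    ∃ x' ∈ O, α x' = x := by
  have h1 : O.image α ⊆ O := by
    intro y hy
    rw [mem_image] at hy
    obtain ⟨a, ha, rfl⟩ := hy
    exact h a ha
  have h2 : O.image α = O :=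
    Finset.eq_of_subset_of_card_le h1 (by rw [Finset.card_image_of_injective _ α.injective])
  rw [← h2, mem_image] at hx
  exact hx

end NTW_

open NTW_ in
theorem p_NTW (h1 : T_INV) (h2 : T_FREE) : T_NTW := by
  intro V _ G H ψ hH Φ L w w' v hv hvh hvw hvw'
  set Γ := gen ψ Φ with hΓ
  set α := al ψ w w' with hα
  obtain ⟨hi1, hi2⟩ := h1 V G H ψ hH Φ
  rw [← hΓ] at hi2
  have hsub : (univ.filter (fun x => (orb Γ x).card ≤ 3 ∧ ¬ (G.Adj v x ↔ G.Adj (α v) x))) ⊆
      ((big Γ L).filter (fun a => α a ≠ a)) ∪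
      ((univ.filter (fun x => (orb Γ x).card ≤ 3 ∧ ∃ a ∈ orb Γ x, α a ∉ orb Γ x)) ∪
      (((hol ψ Φ).filter (fun x => (orb Γ x).card ≤ 3)) ∪
      (({w, w'} : Finset V) ∪
      ((univ.filter (fun x => (orb Γ x).card ≤ 3 ∧ orb Γ x = orb Γ w)) ∪
      (univ.filter (fun x => (orb Γ x).card ≤ 3 ∧ orb Γ x = orb Γ (α⁻¹ w'))))))) := by
    intro x hx
    rw [mem_filter] at hx
    obtain ⟨_, hx3, hxn⟩ := hx
    by_contra hnot
    simp only [mem_union, mem_filter, mem_univ, true_and, mem_insert, mem_singleton,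
      not_or] at hnot
    obtain ⟨n1, n2, n3, ⟨n4, n5⟩, n6, n7⟩ := hnot
    by_cases hxb : x ∈ big Γ L
    · have hxx : α x = x := by
        by_contra h
        exact n1 ⟨hxb, h⟩
      refine hxn ?_
      have h3 := al_adj hH w w' v x hvw n4 hvw' (by rw [← hα, hxx]; exact n5)
      rw [← hα, hxx] at h3
      exact h3
    · have hinv : ∀ a ∈ orb Γ x, α a ∈ orb Γ x := by
        intro a ha
        by_contra h
        exact n2 ⟨hx3, a, ha, h⟩
      obtain ⟨x', hx', hx'x⟩ := surj α _ hinv (self_mem x)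
      obtain ⟨g, hg, hgv, hgx⟩ := h2 V Γ L v x hv hxb hx3 x' hx'
      have hxh : x ∉ hol ψ Φ := fun h => n3 ⟨h, hx3⟩
      have h3 := hi1 g hg v x hvh hxh
      rw [hgv, hgx] at h3
      have h4 : x' ≠ w := by
        rintro rfl
        exact n6 ⟨hx3, (orb_eq hx').symm⟩
      have h5 : α x' ≠ w' := by
        intro h
        have h6 : x' = α⁻¹ w' := by rw [← h]; simp
        rw [h6] at hx'
        exact n7 ⟨hx3, (orb_eq hx').symm⟩
      have h6 := al_adj hH w w' v x' hvw h4 hvw' h5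
      rw [← hα, hx'x] at h6
      exact hxn (h3.trans h6)
  have hw : ({w, w'} : Finset V).card ≤ 2 := Finset.card_le_two
  have c1 := card_nio (Γ := Γ) α
  have c2 := card_orbs (Γ := Γ) (orb Γ w)
  have c3 := card_orbs (Γ := Γ) (orb Γ (α⁻¹ w'))
  unfold nd
  refine (card_le_card hsub).trans ?_
  refine (card_union_le _ _).trans ?_
  refine (Nat.add_le_add_left (card_union_le _ _) _).trans ?_
  refine (Nat.add_le_add_left (Nat.add_le_add_left (card_union_le _ _) _) _).trans ?_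
  refine (Nat.add_le_add_left (Nat.add_le_add_left (Nat.add_le_add_left
    (card_union_le _ _) _) _) _).trans ?_
  refine (Nat.add_le_add_left (Nat.add_le_add_left (Nat.add_le_add_left
    (Nat.add_le_add_left (card_union_le _ _) _) _) _) _).trans ?_
  omega

end Pool.Agent.Two9
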