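import Pool.Agent.Two9.Targets

/-!
# NVN: orbits of pairs and orbits of vertices
-/

set_option autoImplicit false

namespace Pool.Agent.Two9

open Finset Classical

namespace NVN_

theorem self_mem {V : Type} [Fintype V] (Γ : Subgroup (Equiv.Perm V)) (a : V) :
    a ∈ orb Γ a := by
  unfold orb
  rw [mem_filter]
  exact ⟨mem_univ _, 1, Γ.one_mem, rfl⟩

theorem orb2_smul {V : Type} [Fintype V] (Γ : Subgroup (Equiv.Perm V)) {g : Equiv.Perm V}
    (hg : g ∈ Γ) (a b : V) : orb2 Γ (g a, g b) = orb2 Γ (a, b) := by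
  ext q
  unfold orb2
  simp only [mem_filter, mem_univ, true_and]
  constructor
  · rintro ⟨h, hh, h1, h2⟩
    exact ⟨h * g, Γ.mul_mem hh hg, h1, h2⟩
  · rintro ⟨h, hh, h1, h2⟩
    refine ⟨h * g⁻¹, Γ.mul_mem hh (Γ.inv_mem hg), ?_, ?_⟩
    · show h (g⁻¹ (g a)) = q.1
      rw [Equiv.Perm.inv_def, Equiv.symm_apply_apply]
      exact h1
    · show h (g⁻¹ (g b)) = q.2
      rw [Equiv.Perm.inv_def, Equiv.symm_apply_apply]
      exact h2

end NVN_

open NVN_

theorem p_NVN : T_NVN := by
  intro V _ Γ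
  unfold n2 nv
  rcases isEmpty_or_nonempty V with hV | hV
  · have h : (univ : Finset (V × V)) = ∅ := by
      ext p
      exact (hV.false p.1).elim
    rw [h]
    simp
  · set rep : Finset V → V := Function.invFun (orb Γ) with hrep
    have hr : ∀ a, orb Γ (rep (orb Γ a)) = orb Γ a := fun a =>
      Function.invFun_eq (f := orb Γ) ⟨a, rfl⟩
    have hsub : univ.image (orb2 Γ) ⊆
        ((univ.image (orb Γ)) ×ˢ (univ : Finset V)).image
          (fun q : Finset V × V => orb2 Γ (rep q.1, q.2)) := by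
      intro O hO
      rw [mem_image] at hO
      obtain ⟨⟨a, b⟩, _, rfl⟩ := hO
      have h1 : rep (orb Γ a) ∈ orb Γ a := by
        have h2 := self_mem Γ (rep (orb Γ a))
        rwa [hr] at h2
      have h3 := (mem_filter.1 h1).2
      obtain ⟨g, hg, hga⟩ := h3
      rw [mem_image]
      refine ⟨(orb Γ a, g b), ?_, ?_⟩
      · rw [mem_product]
        exact ⟨mem_image_of_mem _ (mem_univ _), mem_univ _⟩
      · show orb2 Γ (rep (orb Γ a), g b) = orb2 Γ (a, b)
        rw [← hga, orb2_smul Γ hg]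
    refine (card_le_card hsub).trans (card_image_le.trans ?_)
    rw [card_product, card_univ]

end Pool.Agent.Two9
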