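import Pool.Agent.Two9.Targets

/-!
Removing `k` links increases the number of classes by at most `k` (REMOVE).
-/

set_option autoImplicit false

namespace Pool.Agent.Two9

open Finset Classical

namespace REMOVE_

variable {P : Type} [Fintype P]

theorem mem_cls {r : P → P → Prop} {p q : P} : q ∈ cls r p ↔ Relation.EqvGen r p q := by
  simp [cls]

theorem self_mem (r : P → P → Prop) (p : P) : p ∈ cls r p := mem_cls.2 (Relation.EqvGen.refl p)

theorem cls_eq {r : P → P → Prop} {p q : P} : cls r p = cls r q ↔ Relation.EqvGen r p q := by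
  constructor
  · intro h
    have h1 := self_mem r q
    rw [← h] at h1
    exact mem_cls.1 h1
  · intro h
    ext x
    rw [mem_cls, mem_cls]
    exact ⟨fun h1 => (h.symm _ _).trans _ _ _ h1, fun h1 => h.trans _ _ _ h1⟩

theorem gen_mono {r s : P → P → Prop} (h : ∀ p q, r p q → Relation.EqvGen s p q) {p q : P}
    (hpq : Relation.EqvGen r p q) : Relation.EqvGen s p q := by
  induction hpq with
  | rel x y hxy => exact h x y hxy
  | refl x => exact Relation.EqvGen.refl x
  | symm x y _ ih => exact ih.symm _ _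
  | trans x y z _ _ ih1 ih2 => exact ih1.trans _ _ _ ih2

/-- More links, fewer classes. -/
theorem anti {r s : P → P → Prop} (h : ∀ p q, r p q → Relation.EqvGen s p q) : nc s ≤ nc r := by
  let φ : Finset P → Finset P := fun C => if hC : C.Nonempty then cls s hC.choose else ∅
  have h1 : ∀ p, φ (cls r p) = cls s p := by
    intro p
    have hne : (cls r p).Nonempty := ⟨p, self_mem r p⟩
    simp only [φ, dif_pos hne]
    exact cls_eq.2 ((gen_mono h (mem_cls.1 hne.choose_spec)).symm _ _)
  have h2 : univ.image (cls s) ⊆ (univ.image (cls r)).image φ := by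
    intro C hC
    obtain ⟨p, _, rfl⟩ := mem_image.1 hC
    exact mem_image.2 ⟨cls r p, mem_image.2 ⟨p, mem_univ _, rfl⟩, h1 p⟩
  exact (card_le_card h2).trans card_image_le

/-- One more link. -/
theorem one (s : P → P → Prop) (a b : P) :
    nc s ≤ nc (fun x y => s x y ∨ (x = a ∧ y = b)) + 1 := by
  obtain ⟨s', hs'⟩ : ∃ s' : P → P → Prop, s' = fun x y => s x y ∨ (x = a ∧ y = b) := ⟨_, rfl⟩
  rw [← hs']
  let A : P → Prop := fun x => Relation.EqvGen s a x ∨ Relation.EqvGen s b x
  have hA : ∀ x y, A x → Relation.EqvGen s x y → A y := by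
    rintro x y (h | h) hxy
    · exact Or.inl (h.trans _ _ _ hxy)
    · exact Or.inr (h.trans _ _ _ hxy)
  have key : ∀ x y, Relation.EqvGen s' x y → Relation.EqvGen s x y ∨ (A x ∧ A y) := by
    intro x y h
    induction h with
    | rel x y hxy =>
      rw [hs'] at hxy
      rcases hxy with h | ⟨rfl, rfl⟩
      · exact Or.inl (Relation.EqvGen.rel _ _ h)
      · exact Or.inr ⟨Or.inl (Relation.EqvGen.refl _), Or.inr (Relation.EqvGen.refl _)⟩
    | refl x => exact Or.inl (Relation.EqvGen.refl x)
    | symm x y _ ih =>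
      rcases ih with h | ⟨h1, h2⟩
      · exact Or.inl (h.symm _ _)
      · exact Or.inr ⟨h2, h1⟩
    | trans x y z _ _ ih1 ih2 =>
      rcases ih1 with h | ⟨h1, h2⟩
      · rcases ih2 with h' | ⟨h1', h2'⟩
        · exact Or.inl (h.trans _ _ _ h')
        · exact Or.inr ⟨hA _ _ h1' (h.symm _ _), h2'⟩
      · rcases ih2 with h' | ⟨_, h2'⟩
        · exact Or.inr ⟨h1, hA _ _ h2 h'⟩
        · exact Or.inr ⟨h1, h2'⟩
  let φ : Finset P → Finset P := fun C => if hC : C.Nonempty then cls s' hC.choose else ∅
  have hss : ∀ p q, s p q → Relation.EqvGen s' p q := fun p q h =>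
    Relation.EqvGen.rel _ _ (by rw [hs']; exact Or.inl h)
  have h1 : ∀ p, φ (cls s p) = cls s' p := by
    intro p
    have hne : (cls s p).Nonempty := ⟨p, self_mem s p⟩
    simp only [φ, dif_pos hne]
    exact cls_eq.2 ((gen_mono hss (mem_cls.1 hne.choose_spec)).symm _ _)
  have h2 : ((univ.image (cls s)).erase (cls s b)).card ≤ (univ.image (cls s')).card := by
    refine card_le_card_of_injOn φ ?_ ?_
    · intro C hC
      obtain ⟨p, _, rfl⟩ := mem_image.1 (mem_of_mem_erase hC)
      rw [h1]
      exact mem_coe.2 (mem_image.2 ⟨p, mem_univ _, rfl⟩)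
    · intro C hC C' hC' he
      have hC1 := mem_erase.1 (mem_coe.1 hC)
      have hC2 := mem_erase.1 (mem_coe.1 hC')
      obtain ⟨p, _, rfl⟩ := mem_image.1 hC1.2
      obtain ⟨q, _, rfl⟩ := mem_image.1 hC2.2
      rw [h1, h1] at he
      rcases key p q (cls_eq.1 he) with h | ⟨h3, h4⟩
      · exact cls_eq.2 h
      · have h5 : Relation.EqvGen s a p :=
          h3.resolve_right fun h => hC1.1 (cls_eq.2 (h.symm _ _))
        have h6 : Relation.EqvGen s a q :=
          h4.resolve_right fun h => hC2.1 (cls_eq.2 (h.symm _ _))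
        exact cls_eq.2 ((h5.symm _ _).trans _ _ _ h6)
  have h3 := pred_card_le_card_erase (s := univ.image (cls s)) (a := cls s b)
  unfold nc
  omega

theorem many (E : Finset (P × P)) (s : P → P → Prop) :
    nc s ≤ nc (fun x y => s x y ∨ (x, y) ∈ E) + E.card := by
  induction E using Finset.induction_on with
  | empty => simp
  | insert e E he ih =>
    have h1 := one (fun x y => s x y ∨ (x, y) ∈ E) e.1 e.2
    have h2 : (fun x y => (s x y ∨ (x, y) ∈ E) ∨ (x = e.1 ∧ y = e.2)) =
        fun x y => s x y ∨ (x, y) ∈ insert e E := by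
      funext x y
      refine propext ?_
      rw [mem_insert]
      constructor
      · rintro ((h | h) | ⟨rfl, rfl⟩)
        · exact Or.inl h
        · exact Or.inr (Or.inr h)
        · exact Or.inr (Or.inl rfl)
      · rintro (h | h | h)
        · exact Or.inl (Or.inl h)
        · exact Or.inr ⟨by rw [← h], by rw [← h]⟩
        · exact Or.inl (Or.inr h)
    rw [h2] at h1
    rw [card_insert_of_notMem he]
    omega

end REMOVE_

open REMOVE_ in
theorem p_REMOVE : T_REMOVE := by
  intro P _ r s E h
  refine (many E s).trans (Nat.add_le_add_right (anti fun p q hpq => ?_) _)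
  exact Relation.EqvGen.rel _ _ (h p q hpq)

end Pool.Agent.Two9
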