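import Pool.Agent.Two9.Targets

/-!
# The sizes of the classes
-/

set_option autoImplicit false

namespace Pool.Agent.Two9

open Finset Classical

namespace SIZE_

section

variable {V : Type} [Fintype V]

theorem mem_orb {Γ : Subgroup (Equiv.Perm V)} {a b : V} : b ∈ orb Γ a ↔ ∃ g ∈ Γ, g a = b := by
  simp [orb]

theorem self_mem {Γ : Subgroup (Equiv.Perm V)} (a : V) : a ∈ orb Γ a :=
  mem_orb.mpr ⟨1, Γ.one_mem, rfl⟩

theorem orb_eq {Γ : Subgroup (Equiv.Perm V)} {a b : V} (h : b ∈ orb Γ a) : orb Γ a = orb Γ b := by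
  obtain ⟨g, hg, rfl⟩ := mem_orb.mp h
  ext c
  rw [mem_orb, mem_orb]
  constructor
  · rintro ⟨k, hk, rfl⟩
    exact ⟨k * g⁻¹, Γ.mul_mem hk (Γ.inv_mem hg), by simp⟩
  · rintro ⟨k, hk, rfl⟩
    exact ⟨k * g, Γ.mul_mem hk hg, by simp⟩

theorem mem_orb2 {Γ : Subgroup (Equiv.Perm V)} {p q : V × V} :
    q ∈ orb2 Γ p ↔ ∃ g ∈ Γ, g p.1 = q.1 ∧ g p.2 = q.2 := by
  simp [orb2]

theorem orb2_disj {Γ : Subgroup (Equiv.Perm V)} {p q : V × V} (h : q ∉ orb2 Γ p) :
    Disjoint (orb2 Γ p) (orb2 Γ q) := by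
  rw [Finset.disjoint_left]
  intro z h1 h2
  obtain ⟨g, hg, hg1, hg2⟩ := mem_orb2.mp h1
  obtain ⟨k, hk, hk1, hk2⟩ := mem_orb2.mp h2
  apply h
  rw [mem_orb2]
  refine ⟨k⁻¹ * g, Γ.mul_mem (Γ.inv_mem hk) hg, ?_, ?_⟩
  · rw [Equiv.Perm.mul_apply, hg1, ← hk1]
    simp
  · rw [Equiv.Perm.mul_apply, hg2, ← hk2]
    simp

theorem mem_cls {P : Type} [Fintype P] {r : P → P → Prop} {p q : P} :
    q ∈ cls r p ↔ Relation.EqvGen r p q := by
  simp [cls]

theorem cls_step {P : Type} [Fintype P] {r : P → P → Prop} {p q z : P} (h : q ∈ cls r p)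
    (h' : r q z) : z ∈ cls r p :=
  mem_cls.mpr ((mem_cls.mp h).trans _ _ _ (Relation.EqvGen.rel _ _ h'))

theorem cls_self {P : Type} [Fintype P] {r : P → P → Prop} (p : P) : p ∈ cls r p :=
  mem_cls.mpr (Relation.EqvGen.refl p)

theorem cls_swap {S : Set (Equiv.Perm V)} {f : V → V} {N X T I : Finset V} {e : V → V × V}
    {p : V × V} {x y : V} (h : (x, y) ∈ cls (lnk S f N X T I e) p) :
    (y, x) ∈ cls (lnk S f N X T I e) p :=
  cls_step h (Or.inl ⟨rfl, rfl⟩)

theorem cls_act {Γ : Subgroup (Equiv.Perm V)} {f : V → V} {N X T I : Finset V} {e : V → V × V}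
    {p q : V × V} (h : q ∈ cls (lnk (Γ : Set (Equiv.Perm V)) f N X T I e) p) :
    orb2 Γ q ⊆ cls (lnk (Γ : Set (Equiv.Perm V)) f N X T I e) p := by
  intro z hz
  obtain ⟨g, hg, h1, h2⟩ := mem_orb2.mp hz
  exact cls_step h (Or.inr (Or.inl ⟨g, hg, h1, h2⟩))

theorem cls_twin {S : Set (Equiv.Perm V)} {f : V → V} {N X T I : Finset V} {e : V → V × V}
    {p : V × V} {x y : V} (hx : x ∈ N) (hy : y ∈ X) (h : (x, y) ∈ cls (lnk S f N X T I e) p) :
    (f x, y) ∈ cls (lnk S f N X T I e) p :=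
  cls_step h (Or.inr (Or.inr (Or.inl ⟨hx, hy, rfl, rfl⟩)))

theorem double {S : Set (Equiv.Perm V)} {f : V → V} {N X T I : Finset V} {e : V → V × V}
    {p : V × V} {Y : Finset (V × V)} {A : Finset V} (hY : Y ⊆ cls (lnk S f N X T I e) p)
    (h1 : ∀ q ∈ Y, q.1 ∉ A) (h2 : ∀ q ∈ Y, q.2 ∈ A) :
    2 * Y.card ≤ (cls (lnk S f N X T I e) p).card := by
  have hd : Disjoint Y (Y.image Prod.swap) := by
    rw [Finset.disjoint_left]
    intro z hz hz'
    obtain ⟨w, hw, rfl⟩ := Finset.mem_image.mp hz'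
    exact h1 _ hz (h2 _ hw)
  have hs : Y ∪ Y.image Prod.swap ⊆ cls (lnk S f N X T I e) p := by
    apply Finset.union_subset hY
    intro z hz
    obtain ⟨⟨x, y⟩, hw, rfl⟩ := Finset.mem_image.mp hz
    exact cls_swap (hY hw)
  have hc := Finset.card_le_card hs
  rw [Finset.card_union_of_disjoint hd, Finset.card_image_of_injective _ Prod.swap_injective]
    at hc
  omega

theorem orb_one {Γ : Subgroup (Equiv.Perm V)} {a : V} (h : (orb Γ a).card = 1) {g : Equiv.Perm V}
    (hg : g ∈ Γ) : g a = a :=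
  Finset.card_le_one.mp h.le _ (mem_orb.mpr ⟨g, hg, rfl⟩) _ (self_mem a)

end

end SIZE_

open SIZE_ in
theorem p_SIZE : T_SIZE := by
  intro V _ Γ f N X T I e a b hab
  have hnot : ∀ x, x ∈ orb Γ a → x ∉ orb Γ b := fun x hx hx' =>
    hab ((orb_eq hx).trans (orb_eq hx').symm)
  refine ⟨?_, ?_, ?_, ?_⟩
  · refine double (A := orb Γ b) (cls_act (cls_self _)) ?_ ?_
    · intro q hq
      obtain ⟨g, hg, h1, h2⟩ := mem_orb2.mp hq
      exact hnot _ (mem_orb.mpr ⟨g, hg, h1⟩)
    · intro q hq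
      obtain ⟨g, hg, h1, h2⟩ := mem_orb2.mp hq
      exact mem_orb.mpr ⟨g, hg, h2⟩
  · intro haN hbX hfa hfab
    rw [← Finset.card_union_of_disjoint (orb2_disj hfab)]
    refine double (A := orb Γ b) (Finset.union_subset (cls_act (cls_self _))
      (cls_act (cls_twin haN hbX (cls_self _)))) ?_ ?_
    · intro q hq
      rcases Finset.mem_union.mp hq with hq | hq
      · obtain ⟨g, hg, h1, h2⟩ := mem_orb2.mp hq
        exact hnot _ (mem_orb.mpr ⟨g, hg, h1⟩)
      · obtain ⟨g, hg, h1, h2⟩ := mem_orb2.mp hq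
        intro h
        apply hfa
        rw [orb_eq h]
        exact mem_orb.mpr ⟨g⁻¹, Γ.inv_mem hg, by rw [← h1]; simp⟩
    · intro q hq
      rcases Finset.mem_union.mp hq with hq | hq
      · obtain ⟨g, hg, h1, h2⟩ := mem_orb2.mp hq
        exact mem_orb.mpr ⟨g, hg, h2⟩
      · obtain ⟨g, hg, h1, h2⟩ := mem_orb2.mp hq
        exact mem_orb.mpr ⟨g, hg, h2⟩
  · intro haN hbN ha1 hb1 hfa hfb hfab hfba hff hX
    have hne : a ≠ b := fun h => hab (by rw [h])
    have haX : a ∈ X := hX a (by omega)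
    have hbX : b ∈ X := hX b (by omega)
    have c1 := cls_self (r := lnk (Γ : Set (Equiv.Perm V)) f N X T I e) (a, b)
    have c2 := cls_twin haN hbX c1
    have c3 := cls_swap (cls_twin hbN haX (cls_swap c1))
    by_cases h4 : (orb Γ (f a)).card ≤ 3
    · have c4 := cls_swap (cls_twin hbN (hX _ h4) (cls_swap c2))
      have hsub : ({(a, b), (f a, b), (a, f b), (f a, f b)} : Finset (V × V)) ⊆
          cls (lnk (Γ : Set (Equiv.Perm V)) f N X T I e) (a, b) := by
        intro z hz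
        simp only [Finset.mem_insert, Finset.mem_singleton] at hz
        rcases hz with rfl | rfl | rfl | rfl
        · exact c1
        · exact c2
        · exact c3
        · exact c4
      have hd := double (A := {b, f b}) hsub (by
        intro q hq
        simp only [Finset.mem_insert, Finset.mem_singleton] at hq ⊢
        rcases hq with rfl | rfl | rfl | rfl <;> simp [hne, hfab, hff, hfba.symm]) (by
        intro q hq
        simp only [Finset.mem_insert, Finset.mem_singleton] at hq ⊢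
        rcases hq with rfl | rfl | rfl | rfl <;> simp)
      have hcard : ({(a, b), (f a, b), (a, f b), (f a, f b)} : Finset (V × V)).card = 4 := by
        rw [Finset.card_insert_of_notMem, Finset.card_insert_of_notMem,
          Finset.card_insert_of_notMem, Finset.card_singleton]
        · simp [hfa.symm]
        · simp [hfa, hfb.symm]
        · simp [hfa.symm, hfb.symm]
      rw [hcard] at hd
      exact hd
    · have hsub : (orb Γ (f a)).image (fun x => (x, b)) ⊆
          cls (lnk (Γ : Set (Equiv.Perm V)) f N X T I e) (a, b) := by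
        intro z hz
        obtain ⟨x, hx, rfl⟩ := Finset.mem_image.mp hz
        obtain ⟨g, hg, rfl⟩ := mem_orb.mp hx
        exact cls_act c2 (mem_orb2.mpr ⟨g, hg, rfl, orb_one hb1 hg⟩)
      have hd := double (A := {b}) hsub (by
        intro q hq
        obtain ⟨x, hx, rfl⟩ := Finset.mem_image.mp hq
        simp only [Finset.mem_singleton]
        rintro rfl
        obtain ⟨g, hg, hgx⟩ := mem_orb.mp hx
        have h1 := orb_one hb1 (Γ.inv_mem hg)
        apply hfab
        rw [← h1, ← hgx]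
        simp) (by
        intro q hq
        obtain ⟨x, hx, rfl⟩ := Finset.mem_image.mp hq
        simp)
      rw [Finset.card_image_of_injective _ (fun x y h => (Prod.mk.inj h).1)] at hd
      omega
  · congr 1
    ext q
    rw [mem_cls, mem_cls]
    have h : Relation.EqvGen (lnk (Γ : Set (Equiv.Perm V)) f N X T I e) (a, b) (b, a) :=
      Relation.EqvGen.rel _ _ (Or.inl ⟨rfl, rfl⟩)
    exact ⟨fun h' => (h.symm _ _).trans _ _ _ h', fun h' => h.trans _ _ _ h'⟩

end Pool.Agent.Two9
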