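import Pool.Agent.Two9.Targets

/-!
The target `TYPES`: the colouring of the vertices by majority types.
-/

set_option autoImplicit false
set_option linter.unusedSectionVars false

namespace Pool.Agent.Two9

open Finset Classical

namespace TYPES_

section

variable {V : Type} [Fintype V]

theorem mem_orb {Γ : Subgroup (Equiv.Perm V)} {a b : V} : b ∈ orb Γ a ↔ ∃ g ∈ Γ, g a = b := by
  simp [orb]

theorem self_mem (Γ : Subgroup (Equiv.Perm V)) (a : V) : a ∈ orb Γ a :=
  mem_orb.2 ⟨1, Γ.one_mem, rfl⟩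

theorem orb_eq_of_mem {Γ : Subgroup (Equiv.Perm V)} {a b : V} (h : b ∈ orb Γ a) :
    orb Γ b = orb Γ a := by
  obtain ⟨g, hg, rfl⟩ := mem_orb.1 h
  ext c
  rw [mem_orb, mem_orb]
  constructor
  · rintro ⟨k, hk, rfl⟩
    exact ⟨k * g, Γ.mul_mem hk hg, by simp⟩
  · rintro ⟨k, hk, rfl⟩
    exact ⟨k * g⁻¹, Γ.mul_mem hk (Γ.inv_mem hg), by simp⟩

theorem eqv_symm {Γ : Subgroup (Equiv.Perm V)} {a b : V} (h : eqv Γ a b) : eqv Γ b a :=
  fun g hg => (h g hg).symm

theorem eqv_trans {Γ : Subgroup (Equiv.Perm V)} {a b c : V} (h : eqv Γ a b) (h' : eqv Γ b c) :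
    eqv Γ a c :=
  fun g hg => (h g hg).trans (h' g hg)

/-- The other element of an orbit of size two. -/
theorem exists_star {Γ : Subgroup (Equiv.Perm V)} {a : V} (h : (orb Γ a).card = 2) :
    ∃ b ∈ orb Γ a, b ≠ a ∧ ∀ c ∈ orb Γ a, c = a ∨ c = b := by
  obtain ⟨x, y, hxy, he⟩ := Finset.card_eq_two.1 h
  have ha := self_mem Γ a
  rw [he] at ha ⊢
  simp only [Finset.mem_insert, Finset.mem_singleton] at ha ⊢
  rcases ha with rfl | rfl
  · exact ⟨y, Or.inr rfl, hxy.symm, fun c hc => hc⟩
  · exact ⟨x, Or.inl rfl, hxy, fun c hc => hc.symm⟩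

/-- The other element of an orbit of size two, as a function. -/
noncomputable def star (Γ : Subgroup (Equiv.Perm V)) (a : V) : V :=
  if h : (orb Γ a).card = 2 then (exists_star h).choose else a

theorem star_spec {Γ : Subgroup (Equiv.Perm V)} {a : V} (h : (orb Γ a).card = 2) :
    star Γ a ∈ orb Γ a ∧ star Γ a ≠ a ∧ ∀ c ∈ orb Γ a, c = a ∨ c = star Γ a := by
  unfold star
  rw [dif_pos h]
  exact (exists_star h).choose_spec

theorem orb_star {Γ : Subgroup (Equiv.Perm V)} {a : V} (h : (orb Γ a).card = 2) :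
    orb Γ (star Γ a) = orb Γ a :=
  orb_eq_of_mem (star_spec h).1

theorem star_star {Γ : Subgroup (Equiv.Perm V)} {a : V} (h : (orb Γ a).card = 2) :
    star Γ (star Γ a) = a := by
  have h2 : (orb Γ (star Γ a)).card = 2 := by rw [orb_star h]; exact h
  have h3 : a ∈ orb Γ (star Γ a) := by rw [orb_star h]; exact self_mem Γ a
  rcases (star_spec h2).2.2 a h3 with h4 | h4
  · exact absurd h4.symm (star_spec h).2.1
  · exact h4.symm

theorem eqv_star {Γ : Subgroup (Equiv.Perm V)} {a : V} (h : (orb Γ a).card = 2) :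
    eqv Γ a (star Γ a) := by
  have key : ∀ b : V, (orb Γ b).card = 2 → ∀ g ∈ Γ, g b = b → g (star Γ b) = star Γ b := by
    intro b hb g hg hgb
    obtain ⟨h1, h2, h3⟩ := star_spec hb
    have h4 : g (star Γ b) ∈ orb Γ b := by
      obtain ⟨k, hk, hkb⟩ := mem_orb.1 h1
      exact mem_orb.2 ⟨g * k, Γ.mul_mem hg hk, by rw [Equiv.Perm.mul_apply, hkb]⟩
    rcases h3 _ h4 with h5 | h5
    · exfalso
      apply h2
      apply g.injective
      rw [h5, hgb]
    · exact h5
  intro g hg
  constructor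
  · exact key a h g hg
  · intro hs
    have h2 : (orb Γ (star Γ a)).card = 2 := by rw [orb_star h]; exact h
    have := key (star Γ a) h2 g hg hs
    rwa [star_star h] at this

/-- The number of the elements of non-invariant orbits. -/
theorem card_le_nio (Γ : Subgroup (Equiv.Perm V)) (α : Equiv.Perm V) (C : Finset V) (k : ℕ)
    (h : ∀ a ∈ C, (orb Γ a).card = k) (hα : ∀ a ∈ C, α a ∉ orb Γ a) :
    C.card ≤ k * nio Γ α := by
  unfold nio
  apply Finset.card_le_mul_card_image_of_maps_to (f := orb Γ)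
  · intro a ha
    exact Finset.mem_image_of_mem _ (Finset.mem_filter.2 ⟨Finset.mem_univ _, hα a ha⟩)
  · intro b _
    by_cases hne : (C.filter (fun a => orb Γ a = b)).Nonempty
    · obtain ⟨a0, ha0⟩ := hne
      rw [Finset.mem_filter] at ha0
      rw [← h a0 ha0.1, ha0.2]
      apply Finset.card_le_card
      intro a ha
      rw [Finset.mem_filter] at ha
      rw [← ha.2]
      exact self_mem Γ a
    · rw [Finset.not_nonempty_iff_eq_empty] at hne
      rw [hne]
      simp

theorem arith {L K N x0 x1 x2 : ℕ} (hL : 0 < L) (hK : 40 * L ≤ K) (hN : 0 < N)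
    (h1 : N ≤ L * (x0 + x1 + x2)) (h2 : x2 * K ≤ 20 * N) (h3 : x0 * x1 * K ≤ 4 * N ^ 2) :
    x1 * K ≤ 16 * L * N ∨ x0 * K ≤ 16 * L * N := by
  have e1 : 2 * (L * x2) ≤ N := by
    have e2 : (2 * (L * x2)) * (20 * L) ≤ N * (20 * L) := by
      calc (2 * (L * x2)) * (20 * L) = (L * x2) * (40 * L) := by ring
        _ ≤ (L * x2) * K := Nat.mul_le_mul_left _ hK
        _ = L * (x2 * K) := by ring
        _ ≤ L * (20 * N) := Nat.mul_le_mul_left _ h2
        _ = N * (20 * L) := by ring
    exact Nat.le_of_mul_le_mul_right e2 (by positivity)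
  have e3 : N ≤ 2 * (L * (x0 + x1)) := by
    have : L * (x0 + x1 + x2) = L * (x0 + x1) + L * x2 := by ring
    omega
  rcases le_total x1 x0 with h | h
  · left
    have e4 : N ≤ 4 * L * x0 := by
      have : L * (x0 + x1) ≤ L * (x0 + x0) := Nat.mul_le_mul_left _ (by omega)
      have e5 : L * (x0 + x0) = 2 * (L * x0) := by ring
      have e6 : 4 * L * x0 = 4 * (L * x0) := by ring
      omega
    have e7 : (x1 * K) * N ≤ (16 * L * N) * N := by
      calc (x1 * K) * N ≤ (x1 * K) * (4 * L * x0) := Nat.mul_le_mul_left _ e4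
        _ = (4 * L) * (x0 * x1 * K) := by ring
        _ ≤ (4 * L) * (4 * N ^ 2) := Nat.mul_le_mul_left _ h3
        _ = (16 * L * N) * N := by ring
    exact Nat.le_of_mul_le_mul_right e7 hN
  · right
    have e4 : N ≤ 4 * L * x1 := by
      have : L * (x0 + x1) ≤ L * (x1 + x1) := Nat.mul_le_mul_left _ (by omega)
      have e5 : L * (x1 + x1) = 2 * (L * x1) := by ring
      have e6 : 4 * L * x1 = 4 * (L * x1) := by ring
      omega
    have e7 : (x0 * K) * N ≤ (16 * L * N) * N := by
      calc (x0 * K) * N ≤ (x0 * K) * (4 * L * x1) := Nat.mul_le_mul_left _ e4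
        _ = (4 * L) * (x0 * x1 * K) := by ring
        _ ≤ (4 * L) * (4 * N ^ 2) := Nat.mul_le_mul_left _ h3
        _ = (16 * L * N) * N := by ring
    exact Nat.le_of_mul_le_mul_right e7 hN

/-- The elements fixed by `α`. -/
noncomputable def C0 (α : Equiv.Perm V) (C : Finset V) : Finset V := C.filter (fun a => α a = a)

/-- The elements moved by `α` inside their orbits. -/
noncomputable def C1 (Γ : Subgroup (Equiv.Perm V)) (α : Equiv.Perm V) (C : Finset V) : Finset V :=
  C.filter (fun a => α a ≠ a ∧ α a ∈ orb Γ a)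

/-- The elements moved by `α` out of their orbits. -/
noncomputable def C2 (Γ : Subgroup (Equiv.Perm V)) (α : Equiv.Perm V) (C : Finset V) : Finset V :=
  C.filter (fun a => α a ∉ orb Γ a)

theorem card_le_sum (Γ : Subgroup (Equiv.Perm V)) (α : Equiv.Perm V) (C : Finset V) :
    C.card ≤ (C0 α C).card + (C1 Γ α C).card + (C2 Γ α C).card := by
  have h : C ⊆ (C0 α C ∪ C1 Γ α C) ∪ C2 Γ α C := by
    intro a ha
    simp only [Finset.mem_union, C0, C1, C2, Finset.mem_filter]
    by_cases h1 : α a = a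
    · exact Or.inl (Or.inl ⟨ha, h1⟩)
    · by_cases h2 : α a ∈ orb Γ a
      · exact Or.inl (Or.inr ⟨ha, h1, h2⟩)
      · exact Or.inr ⟨ha, h2⟩
  calc C.card ≤ ((C0 α C ∪ C1 Γ α C) ∪ C2 Γ α C).card := Finset.card_le_card h
    _ ≤ (C0 α C ∪ C1 Γ α C).card + (C2 Γ α C).card := Finset.card_union_le _ _
    _ ≤ _ := Nat.add_le_add_right (Finset.card_union_le _ _) _

theorem card_C2 {Γ : Subgroup (Equiv.Perm V)} {α : Equiv.Perm V} {C : Finset V} {K : ℕ}
    (hC : ∀ a ∈ C, (orb Γ a).card = 2) (hα : nio Γ α * K ≤ 10 * Fintype.card V) :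
    (C2 Γ α C).card * K ≤ 20 * Fintype.card V := by
  have h := card_le_nio Γ α (C2 Γ α C) 2 (fun a ha => hC a (Finset.mem_filter.1 ha).1)
    (fun a ha => (Finset.mem_filter.1 ha).2)
  calc (C2 Γ α C).card * K ≤ (2 * nio Γ α) * K := Nat.mul_le_mul_right _ h
    _ = 2 * (nio Γ α * K) := by ring
    _ ≤ 2 * (10 * Fintype.card V) := Nat.mul_le_mul_left _ hα
    _ = _ := by ring

/-- The moved elements of a class of the first kind. -/
theorem moved_one {Γ : Subgroup (Equiv.Perm V)} {α α' : Equiv.Perm V} {C : Finset V}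
    {L K : ℕ} (hL : 0 < L)
    (h1 : (C1 Γ α C).card * K ≤ 16 * L * Fintype.card V)
    (h1' : (C1 Γ α' C).card * K ≤ 16 * L * Fintype.card V)
    (h2 : (C2 Γ α C).card * K ≤ 20 * Fintype.card V)
    (h2' : (C2 Γ α' C).card * K ≤ 20 * Fintype.card V) :
    (C.filter (fun a => (α' * α⁻¹) a ≠ a)).card * K ≤ 72 * L * Fintype.card V := by
  have hsub : C.filter (fun a => (α' * α⁻¹) a ≠ a) ⊆
      (C1 Γ α C ∪ C2 Γ α C) ∪ (C1 Γ α' C ∪ C2 Γ α' C) := by
    intro a ha
    rw [Finset.mem_filter] at ha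
    obtain ⟨haC, hne⟩ := ha
    simp only [Finset.mem_union, C1, C2, Finset.mem_filter]
    by_cases e : α a = a
    · by_cases e' : α' a = a
      · exfalso
        apply hne
        rw [Equiv.Perm.mul_apply]
        have : α⁻¹ a = a := by
          rw [Equiv.Perm.inv_eq_iff_eq]
          exact e.symm
        rw [this, e']
      · right
        by_cases o : α' a ∈ orb Γ a
        · exact Or.inl ⟨haC, e', o⟩
        · exact Or.inr ⟨haC, o⟩
    · left
      by_cases o : α a ∈ orb Γ a
      · exact Or.inl ⟨haC, e, o⟩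
      · exact Or.inr ⟨haC, o⟩
  have hcard : (C.filter (fun a => (α' * α⁻¹) a ≠ a)).card ≤
      ((C1 Γ α C).card + (C2 Γ α C).card) + ((C1 Γ α' C).card + (C2 Γ α' C).card) :=
    calc _ ≤ _ := Finset.card_le_card hsub
      _ ≤ _ := Finset.card_union_le _ _
      _ ≤ _ := Nat.add_le_add (Finset.card_union_le _ _) (Finset.card_union_le _ _)
  have hLN : Fintype.card V ≤ L * Fintype.card V := Nat.le_mul_of_pos_left _ hL
  calc _ ≤ (((C1 Γ α C).card + (C2 Γ α C).card) + ((C1 Γ α' C).card + (C2 Γ α' C).card)) * K :=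
        Nat.mul_le_mul_right _ hcard
    _ = (C1 Γ α C).card * K + (C2 Γ α C).card * K + ((C1 Γ α' C).card * K +
          (C2 Γ α' C).card * K) := by ring
    _ ≤ 72 * L * Fintype.card V := by
        have e1 : 16 * L * Fintype.card V = 16 * (L * Fintype.card V) := by ring
        have e2 : 72 * L * Fintype.card V = 72 * (L * Fintype.card V) := by ring
        rw [e1] at h1 h1'
        rw [e2]
        omega

/-- The moved elements of a class of the second kind. -/
theorem moved_two {Γ : Subgroup (Equiv.Perm V)} {α α' : Equiv.Perm V} {C : Finset V}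
    {L K : ℕ} (hL : 0 < L) (hC : ∀ a ∈ C, (orb Γ a).card = 2) (hs : ∀ a ∈ C, star Γ a ∈ C)
    (h0 : (C0 α C).card * K ≤ 16 * L * Fintype.card V)
    (h0' : (C0 α' C).card * K ≤ 16 * L * Fintype.card V)
    (h2 : (C2 Γ α C).card * K ≤ 20 * Fintype.card V)
    (h2' : (C2 Γ α' C).card * K ≤ 20 * Fintype.card V) :
    (C.filter (fun a => (α' * α⁻¹) a ≠ a)).card * K ≤ 72 * L * Fintype.card V := by
  have hcard0 : (C.filter (fun a => (α' * α⁻¹) a ≠ a)).card ≤
      ((C0 α C ∪ C2 Γ α C) ∪ (C0 α' C ∪ C2 Γ α' C)).card := by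
    apply Finset.card_le_card_of_injOn (star Γ)
    · intro a ha
      rw [Finset.mem_coe, Finset.mem_filter] at ha
      obtain ⟨haC, hne⟩ := ha
      have hsC := hs a haC
      have ho : orb Γ (star Γ a) = orb Γ a := orb_star (hC a haC)
      have move : ∀ γ : Equiv.Perm V, γ (star Γ a) ≠ star Γ a → γ (star Γ a) ∈ orb Γ (star Γ a) →
          γ (star Γ a) = a := by
        intro γ g1 g2
        rw [ho] at g2
        rcases (star_spec (hC a haC)).2.2 _ g2 with g3 | g3
        · exact g3
        · exact absurd g3 g1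
      rw [Finset.mem_coe]
      simp only [Finset.mem_union, C0, C2, Finset.mem_filter]
      by_cases e : α (star Γ a) = star Γ a
      · exact Or.inl (Or.inl ⟨hsC, e⟩)
      · by_cases o : α (star Γ a) ∈ orb Γ (star Γ a)
        · by_cases e' : α' (star Γ a) = star Γ a
          · exact Or.inr (Or.inl ⟨hsC, e'⟩)
          · by_cases o' : α' (star Γ a) ∈ orb Γ (star Γ a)
            · exfalso
              apply hne
              rw [Equiv.Perm.mul_apply]
              have : α⁻¹ a = star Γ a := by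
                rw [Equiv.Perm.inv_eq_iff_eq]
                exact (move α e o).symm
              rw [this]
              exact move α' e' o'
            · exact Or.inr (Or.inr ⟨hsC, o'⟩)
        · exact Or.inl (Or.inr ⟨hsC, o⟩)
    · intro a ha b hb hab
      rw [Finset.mem_coe, Finset.mem_filter] at ha hb
      have hab' : star Γ a = star Γ b := hab
      rw [← star_star (hC a ha.1), hab', star_star (hC b hb.1)]
  have hcard : (C.filter (fun a => (α' * α⁻¹) a ≠ a)).card ≤
      ((C0 α C).card + (C2 Γ α C).card) + ((C0 α' C).card + (C2 Γ α' C).card) :=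
    calc _ ≤ _ := hcard0
      _ ≤ _ := Finset.card_union_le _ _
      _ ≤ _ := Nat.add_le_add (Finset.card_union_le _ _) (Finset.card_union_le _ _)
  have hLN : Fintype.card V ≤ L * Fintype.card V := Nat.le_mul_of_pos_left _ hL
  calc _ ≤ (((C0 α C).card + (C2 Γ α C).card) + ((C0 α' C).card + (C2 Γ α' C).card)) * K :=
        Nat.mul_le_mul_right _ hcard
    _ = (C0 α C).card * K + (C2 Γ α C).card * K + ((C0 α' C).card * K +
          (C2 Γ α' C).card * K) := by ring
    _ ≤ 72 * L * Fintype.card V := by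
        have e1 : 16 * L * Fintype.card V = 16 * (L * Fintype.card V) := by ring
        have e2 : 72 * L * Fintype.card V = 72 * (L * Fintype.card V) := by ring
        rw [e1] at h0 h0'
        rw [e2]
        omega

/-- The class of a vertex. -/
noncomputable def cl (Γ : Subgroup (Equiv.Perm V)) (a : V) : Finset V :=
  univ.filter (fun b => (orb Γ b).card = 2 ∧ eqv Γ a b)

theorem mem_cl {Γ : Subgroup (Equiv.Perm V)} {a b : V} :
    b ∈ cl Γ a ↔ (orb Γ b).card = 2 ∧ eqv Γ a b := by
  simp [cl]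

/-- The large classes. -/
noncomputable def lc (Γ : Subgroup (Equiv.Perm V)) (L : ℕ) : Finset (Finset V) :=
  ((big Γ L).filter (fun a => (orb Γ a).card = 2)).image (cl Γ)

theorem mem_lc {Γ : Subgroup (Equiv.Perm V)} {L : ℕ} {C : Finset V} (h : C ∈ lc Γ L) :
    (∀ a ∈ C, (orb Γ a).card = 2) ∧ (∀ a ∈ C, ∀ b ∈ C, eqv Γ a b) ∧
    (∀ a ∈ C, star Γ a ∈ C) ∧ Fintype.card V ≤ L * C.card ∧ (∀ a ∈ C, cl Γ a = C) := by
  unfold lc at h
  rw [Finset.mem_image] at h
  obtain ⟨a0, ha0, rfl⟩ := h
  rw [Finset.mem_filter] at ha0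
  obtain ⟨hbig, h2⟩ := ha0
  refine ⟨fun a ha => (mem_cl.1 ha).1, fun a ha b hb => ?_, fun a ha => ?_, ?_, fun a ha => ?_⟩
  · exact eqv_trans (eqv_symm (mem_cl.1 ha).2) (mem_cl.1 hb).2
  · have := mem_cl.1 ha
    exact mem_cl.2 ⟨by rw [orb_star this.1]; exact this.1,
      eqv_trans this.2 (eqv_star this.1)⟩
  · unfold big at hbig
    rw [Finset.mem_filter] at hbig
    rcases hbig.2 with h1 | h1
    · omega
    · exact h1.2
  · have h3 := mem_cl.1 ha
    ext b
    rw [mem_cl, mem_cl]
    exact ⟨fun h => ⟨h.1, eqv_trans h3.2 h.2⟩, fun h => ⟨h.1, eqv_trans (eqv_symm h3.2) h.2⟩⟩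

theorem card_lc [Nonempty V] (Γ : Subgroup (Equiv.Perm V)) (L : ℕ) : (lc Γ L).card ≤ L := by
  have hN : 0 < Fintype.card V := Fintype.card_pos
  have hdis : ((lc Γ L : Finset (Finset V)) : Set (Finset V)).PairwiseDisjoint id := by
    intro C hC D hD hne
    rw [Function.onFun, Finset.disjoint_left]
    intro a haC haD
    apply hne
    rw [← (mem_lc hC).2.2.2.2 a haC, ← (mem_lc hD).2.2.2.2 a haD]
  have hsum : ∑ C ∈ lc Γ L, C.card ≤ Fintype.card V := by
    have h := Finset.card_biUnion (s := lc Γ L) (t := id) (fun C hC D hD hne => hdis hC hD hne)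
    simp only [id] at h
    rw [← h]
    exact Finset.card_le_univ _
  have h2 : (lc Γ L).card * Fintype.card V ≤ L * Fintype.card V := by
    calc (lc Γ L).card * Fintype.card V = ∑ _C ∈ lc Γ L, Fintype.card V := by
          rw [Finset.sum_const, smul_eq_mul]
      _ ≤ ∑ C ∈ lc Γ L, L * C.card := Finset.sum_le_sum (fun C hC => (mem_lc hC).2.2.2.1)
      _ = L * ∑ C ∈ lc Γ L, C.card := by rw [Finset.mul_sum]
      _ ≤ L * Fintype.card V := Nat.mul_le_mul_left _ hsum
  exact Nat.le_of_mul_le_mul_right h2 hN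

end

end TYPES_

open TYPES_ in
/-- The target `TYPES`. -/
theorem p_TYPES : T_TYPES := by
  intro V _ ψ Γ L K hL hK hnio hbal
  rcases isEmpty_or_nonempty V with hV | hV
  · refine ⟨fun _ => ∅, ?_, fun w => (hV.false w).elim⟩
    have : (univ : Finset V) = ∅ := Finset.univ_eq_empty
    rw [this]
    simp
  obtain ⟨w0⟩ := id hV
  have hN : 0 < Fintype.card V := Fintype.card_pos
  refine ⟨fun w => (lc Γ L).filter
    (fun C => (C1 Γ (al ψ w0 w) C).card * K ≤ 16 * L * Fintype.card V), ?_, ?_⟩
  · calc _ ≤ ((lc Γ L).powerset).card := by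
          apply Finset.card_le_card
          intro D hD
          rw [Finset.mem_image] at hD
          obtain ⟨w, _, rfl⟩ := hD
          rw [Finset.mem_powerset]
          exact Finset.filter_subset _ _
      _ = 2 ^ (lc Γ L).card := Finset.card_powerset _
      _ ≤ 2 ^ L := Nat.pow_le_pow_right (by norm_num) (card_lc Γ L)
  · intro w w' hww
    have hal : al ψ w w' = al ψ w0 w' * (al ψ w0 w)⁻¹ := by
      unfold al
      group
    -- the classes
    have hclass : ∀ C ∈ lc Γ L, (C.filter (fun a => al ψ w w' a ≠ a)).card * K ≤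
        72 * L * Fintype.card V := by
      intro C hC
      obtain ⟨hC2, hCe, hCs, hCN, -⟩ := mem_lc hC
      have maj : ∀ v, (C1 Γ (al ψ w0 v) C).card * K ≤ 16 * L * Fintype.card V ∨
          (C0 (al ψ w0 v) C).card * K ≤ 16 * L * Fintype.card V := by
        intro v
        apply arith hL hK hN (x2 := (C2 Γ (al ψ w0 v) C).card)
        · exact hCN.trans (Nat.mul_le_mul_left _ (card_le_sum Γ (al ψ w0 v) C))
        · exact card_C2 hC2 (hnio w0 v)
        · exact hbal w0 v C hC2 hCe
      rw [hal]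
      have hiff : (C1 Γ (al ψ w0 w) C).card * K ≤ 16 * L * Fintype.card V ↔
          (C1 Γ (al ψ w0 w') C).card * K ≤ 16 * L * Fintype.card V := by
        have := Finset.ext_iff.1 hww C
        simp only [Finset.mem_filter, hC, true_and] at this
        exact this
      by_cases h : (C1 Γ (al ψ w0 w) C).card * K ≤ 16 * L * Fintype.card V
      · exact moved_one hL h (hiff.1 h) (card_C2 hC2 (hnio w0 w)) (card_C2 hC2 (hnio w0 w'))
      · have h' : ¬ (C1 Γ (al ψ w0 w') C).card * K ≤ 16 * L * Fintype.card V :=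
          fun h' => h (hiff.2 h')
        exact moved_two hL hC2 hCs ((maj w).resolve_left h) ((maj w').resolve_left h')
          (card_C2 hC2 (hnio w0 w)) (card_C2 hC2 (hnio w0 w'))
    -- the fixed points
    have hone : ((univ.filter (fun a => (orb Γ a).card = 1 ∧ al ψ w w' a ≠ a)).card) * K ≤
        10 * Fintype.card V := by
      have h := card_le_nio Γ (al ψ w w')
        (univ.filter (fun a => (orb Γ a).card = 1 ∧ al ψ w w' a ≠ a)) 1
        (fun a ha => (Finset.mem_filter.1 ha).2.1) (fun a ha => by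
          have ha' := (Finset.mem_filter.1 ha).2
          intro hmem
          apply ha'.2
          obtain ⟨x, hx⟩ := Finset.card_eq_one.1 ha'.1
          have h1 := self_mem Γ a
          rw [hx, Finset.mem_singleton] at h1 hmem
          rw [hmem]
          exact h1.symm)
      rw [one_mul] at h
      exact (Nat.mul_le_mul_right _ h).trans (hnio w w')
    have hsub : (big Γ L).filter (fun a => al ψ w w' a ≠ a) ⊆
        (univ.filter (fun a => (orb Γ a).card = 1 ∧ al ψ w w' a ≠ a)) ∪
        (lc Γ L).biUnion (fun C => C.filter (fun a => al ψ w w' a ≠ a)) := by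
      intro a ha
      rw [Finset.mem_filter] at ha
      obtain ⟨hb, hne⟩ := ha
      rw [Finset.mem_union, Finset.mem_filter, Finset.mem_biUnion]
      have hb' := hb
      unfold big at hb'
      rw [Finset.mem_filter] at hb'
      rcases hb'.2 with h1 | h1
      · exact Or.inl ⟨Finset.mem_univ _, h1, hne⟩
      · right
        refine ⟨cl Γ a, Finset.mem_image_of_mem _ (Finset.mem_filter.2 ⟨hb, h1.1⟩), ?_⟩
        rw [Finset.mem_filter]
        exact ⟨mem_cl.2 ⟨h1.1, fun g _ => Iff.rfl⟩, hne⟩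
    have hbi : ((lc Γ L).biUnion (fun C => C.filter (fun a => al ψ w w' a ≠ a))).card * K ≤
        L * (72 * L * Fintype.card V) := by
      calc _ ≤ (∑ C ∈ lc Γ L, (C.filter (fun a => al ψ w w' a ≠ a)).card) * K :=
            Nat.mul_le_mul_right _ Finset.card_biUnion_le
        _ = ∑ C ∈ lc Γ L, (C.filter (fun a => al ψ w w' a ≠ a)).card * K := by
            rw [Finset.sum_mul]
        _ ≤ ∑ _C ∈ lc Γ L, 72 * L * Fintype.card V := Finset.sum_le_sum hclass
        _ = (lc Γ L).card * (72 * L * Fintype.card V) := by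
            rw [Finset.sum_const, smul_eq_mul]
        _ ≤ _ := Nat.mul_le_mul_right _ (card_lc Γ L)
    calc _ ≤ ((univ.filter (fun a => (orb Γ a).card = 1 ∧ al ψ w w' a ≠ a)) ∪
        (lc Γ L).biUnion (fun C => C.filter (fun a => al ψ w w' a ≠ a))).card * K :=
          Nat.mul_le_mul_right _ (Finset.card_le_card hsub)
      _ ≤ ((univ.filter (fun a => (orb Γ a).card = 1 ∧ al ψ w w' a ≠ a)).card +
        ((lc Γ L).biUnion (fun C => C.filter (fun a => al ψ w w' a ≠ a))).card) * K :=
          Nat.mul_le_mul_right _ (Finset.card_union_le _ _)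
      _ = (univ.filter (fun a => (orb Γ a).card = 1 ∧ al ψ w w' a ≠ a)).card * K +
        ((lc Γ L).biUnion (fun C => C.filter (fun a => al ψ w w' a ≠ a))).card * K := by ring
      _ ≤ 10 * Fintype.card V + L * (72 * L * Fintype.card V) := Nat.add_le_add hone hbi
      _ ≤ 100 * L ^ 2 * Fintype.card V := by
          have e1 : 1 ≤ L ^ 2 := Nat.one_le_pow _ _ hL
          have e2 : Fintype.card V ≤ L ^ 2 * Fintype.card V := Nat.le_mul_of_pos_left _ e1
          have e3 : L * (72 * L * Fintype.card V) = 72 * (L ^ 2 * Fintype.card V) := by ring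
          have e4 : 100 * L ^ 2 * Fintype.card V = 100 * (L ^ 2 * Fintype.card V) := by ring
          rw [e3, e4]
          omega

end Pool.Agent.Two9
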