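import Pool.Agent.Two9.Targets

/-!
# Two9: TZ, the number of classes which contain pairs `(t, z)`, `t ∈ T`, `z ∉ I`
-/

set_option autoImplicit false

namespace Pool.Agent.Two9

open Finset Classical

namespace TZ_

theorem cls_eq {P : Type} [Fintype P] {r : P → P → Prop} {p q : P} (h : Relation.EqvGen r p q) :
    cls r p = cls r q := by
  ext x
  simp only [cls, mem_filter, mem_univ, true_and]
  exact ⟨fun h' => (h.symm _ _).trans _ _ _ h', fun h' => h.trans _ _ _ h'⟩

theorem of_cls_eq {P : Type} [Fintype P] {r : P → P → Prop} {p q : P} (h : cls r p = cls r q) :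
    Relation.EqvGen r p q := by
  have h1 : q ∈ cls r q := by
    simp only [cls, mem_filter, mem_univ, true_and]
    exact Relation.EqvGen.refl q
  rw [← h] at h1
  simp only [cls, mem_filter, mem_univ, true_and] at h1
  exact h1

theorem lift {V : Type} [Fintype V] (S : Set (Equiv.Perm V)) (f : V → V) (N X T I : Finset V)
    (e : V → V × V) {t : V} (ht : t ∈ T) {z z' : V}
    (h : Relation.EqvGen (fun x y => ∃ l ∈ I, x = (e l).1 ∧ y = (e l).2) z z') :
    Relation.EqvGen (lnk S f N X T I e) (t, z) (t, z') := by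
  induction h with
  | rel x y h =>
    apply Relation.EqvGen.rel
    exact Or.inr (Or.inr (Or.inr ⟨ht, rfl, h⟩))
  | refl x => exact Relation.EqvGen.refl _
  | symm x y _ ih => exact Relation.EqvGen.symm _ _ ih
  | trans x y z _ _ ih1 ih2 => exact Relation.EqvGen.trans _ _ _ ih1 ih2

end TZ_

open TZ_ in
theorem p_TZ (h1 : T_COMP) : T_TZ := by
  intro V _ Γ f N X T I e g hI hI2
  set r : V → V → Prop := fun x y => ∃ l ∈ I, x = (e l).1 ∧ y = (e l).2 with hr
  have h2 := h1 V (univ \ I) I e g (fun l hl => by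
    obtain ⟨a1, a2, a3⟩ := hI l hl
    exact ⟨by simpa using a1, by simpa using a2, a3⟩) hI2 r (fun l hl => ⟨l, hl, rfl, rfl⟩)
  have h3 : (univ \ I).card = Fintype.card V - I.card := by
    rw [card_sdiff_of_subset (subset_univ I), card_univ]
  have h4 : I.card ≤ Fintype.card V := by
    rw [← card_univ]
    exact card_le_card (subset_univ I)
  rw [h3] at h2
  refine ⟨by omega, ?_⟩
  have h5 : ((univ \ I).image (cls r)).card ≤ Fintype.card V - 2 * I.card := by omega
  set R := lnk (Γ : Set (Equiv.Perm V)) f N X T I e with hR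
  have hkey : ∀ t ∈ T, ∀ z ∉ I, cls R (t, z) ∈ (T ×ˢ ((univ \ I).image (cls r))).image
      (fun q : V × Finset V => if h : ∃ z, z ∉ I ∧ cls r z = q.2 then cls R (q.1, h.choose)
        else ∅) := by
    intro t ht z hz
    rw [mem_image]
    refine ⟨(t, cls r z), ?_, ?_⟩
    · rw [mem_product]
      exact ⟨ht, mem_image_of_mem _ (by simpa using hz)⟩
    · have hex : ∃ z', z' ∉ I ∧ cls r z' = cls r z := ⟨z, hz, rfl⟩
      rw [dif_pos hex]
      exact cls_eq (lift _ f N X T I e ht (of_cls_eq hex.choose_spec.2))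
  have hsub : (univ.filter (fun p : V × V => (p.1 ∈ T ∧ p.2 ∉ I) ∨ (p.2 ∈ T ∧ p.1 ∉ I))).image
      (cls R) ⊆ (T ×ˢ ((univ \ I).image (cls r))).image
      (fun q : V × Finset V => if h : ∃ z, z ∉ I ∧ cls r z = q.2 then cls R (q.1, h.choose)
        else ∅) := by
    intro c hc
    rw [mem_image] at hc
    obtain ⟨⟨a, b⟩, hp, rfl⟩ := hc
    rw [mem_filter] at hp
    rcases hp.2 with ⟨ha, hb⟩ | ⟨hb, ha⟩
    · exact hkey a ha b hb
    · have h6 : cls R (a, b) = cls R (b, a) :=
        cls_eq (Relation.EqvGen.rel _ _ (Or.inl ⟨rfl, rfl⟩))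
      rw [h6]
      exact hkey b hb a ha
  calc _ ≤ _ := card_le_card hsub
    _ ≤ (T ×ˢ ((univ \ I).image (cls r))).card := card_image_le
    _ = T.card * ((univ \ I).image (cls r)).card := card_product _ _
    _ ≤ _ := Nat.mul_le_mul_left _ h5

end Pool.Agent.Two9
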