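import Pool.Agent.Two9.Targets

/-!
# Few orbits of vertices are not invariant
-/

set_option autoImplicit false

namespace Pool.Agent.Two9

open Finset Classical

namespace VORB_

variable {V : Type} [Fintype V]

theorem orb_eq {Γ : Subgroup (Equiv.Perm V)} {a a' : V} {g : Equiv.Perm V} (hg : g ∈ Γ)
    (h : g a' = a) : orb Γ a = orb Γ a' := by
  ext x
  unfold orb
  simp only [mem_filter, mem_univ, true_and]
  constructor
  · rintro ⟨k, hk, rfl⟩
    exact ⟨k * g, Γ.mul_mem hk hg, by rw [Equiv.Perm.mul_apply, h]⟩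
  · rintro ⟨k, hk, rfl⟩
    refine ⟨k * g⁻¹, Γ.mul_mem hk (Γ.inv_mem hg), ?_⟩
    rw [Equiv.Perm.mul_apply, ← h]; simp

theorem orb2_eq {Γ : Subgroup (Equiv.Perm V)} {a a' b b' : V}
    (h : orb2 Γ (a, b) = orb2 Γ (a', b')) : orb Γ a = orb Γ a' ∧ orb Γ b = orb Γ b' := by
  have h1 : (a, b) ∈ orb2 Γ (a, b) := by
    unfold orb2
    simp only [mem_filter, mem_univ, true_and]
    exact ⟨1, Γ.one_mem, rfl, rfl⟩
  rw [h] at h1
  unfold orb2 at h1
  simp only [mem_filter, mem_univ, true_and] at h1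
  obtain ⟨g, hg, h2, h3⟩ := h1
  exact ⟨orb_eq hg h2, orb_eq hg h3⟩

end VORB_

open VORB_ in
theorem p_VORB : T_VORB := by
  intro V _ Γ α M hM
  refine le_trans ?_ hM
  unfold nio nv
  rw [← card_product]
  have e1 : ∀ A ∈ (univ.filter (fun a => α a ∉ orb Γ a)).image (orb Γ),
      ∃ a, α a ∉ orb Γ a ∧ orb Γ a = A := by
    intro A hA
    obtain ⟨a, ha, rfl⟩ := mem_image.1 hA
    exact ⟨a, (mem_filter.1 ha).2, rfl⟩
  have e2 : ∀ B ∈ (univ : Finset V).image (orb Γ), ∃ b, orb Γ b = B := by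
    intro B hB
    obtain ⟨b, -, rfl⟩ := mem_image.1 hB
    exact ⟨b, rfl⟩
  rcases isEmpty_or_nonempty V with hV | hV
  · have : (univ.filter (fun a => α a ∉ orb Γ a)).image (orb Γ) = ∅ := by
      rw [Finset.eq_empty_of_isEmpty (univ.filter (fun a => α a ∉ orb Γ a))]
      rfl
    rw [this]
    simp
  obtain ⟨v0⟩ := hV
  set r1 : Finset V → V := fun A => if h : ∃ a, α a ∉ orb Γ a ∧ orb Γ a = A then h.choose else v0
    with hr1
  set r2 : Finset V → V := fun B => if h : ∃ b, orb Γ b = B then h.choose else v0 with hr2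
  have f1 : ∀ A ∈ (univ.filter (fun a => α a ∉ orb Γ a)).image (orb Γ),
      α (r1 A) ∉ orb Γ (r1 A) ∧ orb Γ (r1 A) = A := by
    intro A hA
    have h := e1 A hA
    simp only [hr1, dif_pos h]
    exact h.choose_spec
  have f2 : ∀ B ∈ (univ : Finset V).image (orb Γ), orb Γ (r2 B) = B := by
    intro B hB
    have h := e2 B hB
    simp only [hr2, dif_pos h]
    exact h.choose_spec
  refine card_le_card_of_injOn (fun p => orb2 Γ (r1 p.1, r2 p.2)) ?_ ?_
  · rintro ⟨A, B⟩ hp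
    have hp' := mem_product.1 (mem_coe.1 hp)
    apply mem_coe.2
    apply mem_image_of_mem
    rw [mem_filter]
    refine ⟨mem_univ _, ?_⟩
    intro hc
    apply (f1 A hp'.1).1
    unfold orb2 at hc
    simp only [mem_filter, mem_univ, true_and] at hc
    obtain ⟨g, hg, h1, -⟩ := hc
    unfold orb
    simp only [mem_filter, mem_univ, true_and]
    exact ⟨g, hg, h1⟩
  · rintro ⟨A, B⟩ hp ⟨A', B'⟩ hp' h
    have h1 := mem_product.1 (mem_coe.1 hp)
    have h2 := mem_product.1 (mem_coe.1 hp')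
    obtain ⟨h3, h4⟩ := orb2_eq h
    rw [(f1 A h1.1).2, (f1 A' h2.1).2] at h3
    rw [f2 B h1.2, f2 B' h2.2] at h4
    rw [h3, h4]

end Pool.Agent.Two9
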