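import Pool.Agent.Two9.Targets

/-!
WT: the lower bounds for the sizes of the classes.
-/

set_option autoImplicit false
set_option linter.unusedSectionVars false

namespace Pool.Agent.Two9

open Finset Classical

namespace WT_

variable {V : Type} [Fintype V] {Γ : Subgroup (Equiv.Perm V)}

theorem mem_orb {a b : V} : b ∈ orb Γ a ↔ ∃ g ∈ Γ, g a = b := by
  unfold orb
  rw [mem_filter]
  exact ⟨fun h => h.2, fun h => ⟨mem_univ _, h⟩⟩

theorem mem_orb2 {p q : V × V} : q ∈ orb2 Γ p ↔ ∃ g ∈ Γ, g p.1 = q.1 ∧ g p.2 = q.2 := by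
  unfold orb2
  rw [mem_filter]
  exact ⟨fun h => h.2, fun h => ⟨mem_univ _, h⟩⟩

theorem self_mem (a : V) : a ∈ orb Γ a := mem_orb.2 ⟨1, Γ.one_mem, rfl⟩

theorem self_mem2 (p : V × V) : p ∈ orb2 Γ p := mem_orb2.2 ⟨1, Γ.one_mem, rfl, rfl⟩

theorem orb_pos (a : V) : 0 < (orb Γ a).card := card_pos.2 ⟨a, self_mem a⟩

theorem orb2_pos (p : V × V) : 0 < (orb2 Γ p).card := card_pos.2 ⟨p, self_mem2 p⟩

theorem fix_of_one {a : V} (h : (orb Γ a).card = 1) {g : Equiv.Perm V} (hg : g ∈ Γ) : g a = a := by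
  obtain ⟨c, hc⟩ := card_eq_one.1 h
  have h1 : g a ∈ orb Γ a := mem_orb.2 ⟨g, hg, rfl⟩
  have h2 := self_mem (Γ := Γ) a
  rw [hc, mem_singleton] at h1 h2
  rw [h1, h2]

theorem eqv_symm {a b : V} (h : eqv Γ a b) : eqv Γ b a := fun g hg => (h g hg).symm

theorem not_eqv {L : ℕ} {a b : V} (ha : a ∈ big Γ L) (hb : b ∉ big Γ L)
    (h1 : (orb Γ a).card = 2) (h2 : (orb Γ b).card = 2) : ¬ eqv Γ a b := by
  intro he
  apply hb
  unfold big at ha ⊢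
  rw [mem_filter] at ha ⊢
  refine ⟨mem_univ _, Or.inr ⟨h2, ?_⟩⟩
  rcases ha.2 with h | ⟨-, h⟩
  · omega
  · have h3 : (univ.filter (fun c => (orb Γ c).card = 2 ∧ eqv Γ a c)) =
        univ.filter (fun c => (orb Γ c).card = 2 ∧ eqv Γ b c) := by
      ext c
      simp only [mem_filter, mem_univ, true_and]
      refine and_congr_right fun _ => ⟨fun h g hg => ?_, fun h g hg => ?_⟩
      · rw [← he g hg]; exact h g hg
      · rw [he g hg]; exact h g hg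
    rwa [h3] at h

theorem one_big {L : ℕ} {a : V} (h : (orb Γ a).card = 1) : a ∈ big Γ L := by
  unfold big
  rw [mem_filter]
  exact ⟨mem_univ _, Or.inl h⟩

theorem big_le {L : ℕ} {a : V} (h : a ∈ big Γ L) : (orb Γ a).card = 1 ∨ (orb Γ a).card = 2 := by
  unfold big at h
  rw [mem_filter] at h
  rcases h.2 with h | h
  · exact Or.inl h
  · exact Or.inr h.1

/-- The kinds of vertices. -/
theorem kinds {L : ℕ} {N I : Finset V} (hI : I ⊆ big Γ L) {a : V}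
    (h : a ∉ big Γ L \ (I ∪ N)) :
    (ty Γ I a = 0 ∧ (orb Γ a).card = 1) ∨ (ty Γ I a = 1 ∧ a ∈ big Γ L ∧ (orb Γ a).card = 2) ∨
    (ty Γ I a = 3 ∧ (orb Γ a).card = 3) ∨ (ty Γ I a = 2 ∧ a ∈ N ∧ (orb Γ a).card = 1) ∨
    (ty Γ I a = 2 ∧ a ∈ N ∧ a ∈ big Γ L ∧ (orb Γ a).card = 2) ∨
    (ty Γ I a = 2 ∧ a ∉ big Γ L ∧ (orb Γ a).card = 2) ∨ (ty Γ I a = 2 ∧ 4 ≤ (orb Γ a).card) := by
  have hpos := orb_pos (Γ := Γ) a
  rw [mem_sdiff, not_and, not_not, mem_union] at h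
  unfold ty
  by_cases haI : a ∈ I
  · rw [if_pos haI]
    have hb := hI haI
    rcases big_le hb with h1 | h1
    · rw [if_pos h1]
      exact Or.inl ⟨rfl, h1⟩
    · rw [if_neg (by omega)]
      exact Or.inr (Or.inl ⟨rfl, hb, h1⟩)
  · rw [if_neg haI]
    by_cases h3 : (orb Γ a).card = 3
    · rw [if_pos h3]
      exact Or.inr (Or.inr (Or.inl ⟨rfl, h3⟩))
    · rw [if_neg h3]
      have hN : a ∈ big Γ L → a ∈ N := fun hb => (h hb).resolve_left haI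
      rcases Nat.lt_or_ge (orb Γ a).card 4 with h4 | h4
      · by_cases h1 : (orb Γ a).card = 1
        · exact Or.inr (Or.inr (Or.inr (Or.inl ⟨rfl, hN (one_big h1), h1⟩)))
        · have h2 : (orb Γ a).card = 2 := by omega
          by_cases hb : a ∈ big Γ L
          · exact Or.inr (Or.inr (Or.inr (Or.inr (Or.inl ⟨rfl, hN hb, hb, h2⟩))))
          · exact Or.inr (Or.inr (Or.inr (Or.inr (Or.inr (Or.inl ⟨rfl, hb, h2⟩)))))
      · exact Or.inr (Or.inr (Or.inr (Or.inr (Or.inr (Or.inr ⟨rfl, h4⟩)))))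

/-- The facts for a pair. -/
structure Fa (Γ : Subgroup (Equiv.Perm V)) (L : ℕ) (N : Finset V) (a b : V) (P c : ℕ) : Prop where
  da : (orb Γ a).card ∣ P
  db : (orb Γ b).card ∣ P
  pos : 0 < P
  s1 : 2 * P ≤ c
  four : (orb Γ a).card = 2 → (orb Γ b).card = 2 → ¬ eqv Γ a b → 4 ≤ P
  tab : a ∈ N → (orb Γ b).card ≤ 3 → (∀ g ∈ Γ, g b = b → g a = a) → 4 * (orb Γ b).card ≤ c
  tba : b ∈ N → (orb Γ a).card ≤ 3 → (∀ g ∈ Γ, g a = a → g b = b) → 4 * (orb Γ a).card ≤ c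
  s3 : a ∈ N → b ∈ N → (orb Γ a).card = 1 → (orb Γ b).card = 1 → 8 ≤ c
  ne : a ∉ big Γ L → b ∉ big Γ L → (orb Γ a).card = 2 → (orb Γ b).card = 2 → ¬ eqv Γ a b

theorem Fa.symm {L : ℕ} {N : Finset V} {a b : V} {P c : ℕ} (h : Fa Γ L N a b P c) :
    Fa Γ L N b a P c where
  da := h.db
  db := h.da
  pos := h.pos
  s1 := h.s1
  four h1 h2 h3 := h.four h2 h1 fun h4 => h3 (eqv_symm h4)
  tab := h.tba
  tba := h.tab
  s3 h1 h2 h3 h4 := h.s3 h2 h1 h4 h3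
  ne h1 h2 h3 h4 h5 := h.ne h2 h1 h4 h3 (eqv_symm h5)

section

variable {L : ℕ} {N : Finset V} {a b : V} {P c : ℕ} (h : Fa Γ L N a b P c)

include h

theorem Fa.la : (orb Γ a).card ≤ P := Nat.le_of_dvd h.pos h.da

theorem Fa.lb : (orb Γ b).card ≤ P := Nat.le_of_dvd h.pos h.db

theorem Fa.tone (ha : a ∈ N) (h1 : (orb Γ a).card = 1) (h2 : (orb Γ b).card ≤ 3) :
    4 * (orb Γ b).card ≤ c := h.tab ha h2 fun _ hg _ => fix_of_one h1 hg

theorem Fa.ttwo (ha : a ∈ N) (h1 : (orb Γ a).card = 2) (h2 : (orb Γ b).card = 2) : 8 ≤ c := by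
  by_cases he : eqv Γ a b
  · have := h.tab ha (by omega) fun g hg hb => (he g hg).2 hb
    omega
  · have := h.four h1 h2 he
    have := h.s1
    omega

theorem Fa.nobig (ha : a ∈ big Γ L) (hb : b ∉ big Γ L) (h1 : (orb Γ a).card = 2)
    (h2 : (orb Γ b).card = 2) : 8 ≤ c := by
  have := h.four h1 h2 (not_eqv ha hb h1 h2)
  have := h.s1
  omega

theorem Fa.six (h1 : (orb Γ a).card = 2 ∨ 4 ≤ (orb Γ a).card) (h2 : (orb Γ b).card = 3) :
    12 ≤ c := by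
  have e1 := h.s1
  have e2 := h.la
  have e3 := h.pos
  have e4 := h.db
  rw [h2] at e4
  rcases h1 with h1 | h1
  · have e5 := h.da
    rw [h1] at e5
    omega
  · omega

/-- The bound, kinds in increasing order. -/
theorem Fa.main {I : Finset V} (ka : (ty Γ I a = 0 ∧ (orb Γ a).card = 1) ∨
      (ty Γ I a = 1 ∧ a ∈ big Γ L ∧ (orb Γ a).card = 2) ∨
      (ty Γ I a = 3 ∧ (orb Γ a).card = 3) ∨ (ty Γ I a = 2 ∧ a ∈ N ∧ (orb Γ a).card = 1) ∨
      (ty Γ I a = 2 ∧ a ∈ N ∧ a ∈ big Γ L ∧ (orb Γ a).card = 2) ∨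
      (ty Γ I a = 2 ∧ a ∉ big Γ L ∧ (orb Γ a).card = 2) ∨ (ty Γ I a = 2 ∧ 4 ≤ (orb Γ a).card))
    (kb : (ty Γ I b = 0 ∧ (orb Γ b).card = 1) ∨
      (ty Γ I b = 1 ∧ b ∈ big Γ L ∧ (orb Γ b).card = 2) ∨
      (ty Γ I b = 3 ∧ (orb Γ b).card = 3) ∨ (ty Γ I b = 2 ∧ b ∈ N ∧ (orb Γ b).card = 1) ∨
      (ty Γ I b = 2 ∧ b ∈ N ∧ b ∈ big Γ L ∧ (orb Γ b).card = 2) ∨
      (ty Γ I b = 2 ∧ b ∉ big Γ L ∧ (orb Γ b).card = 2) ∨ (ty Γ I b = 2 ∧ 4 ≤ (orb Γ b).card)) :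
    2 * wt (ty Γ I a) (ty Γ I b) ≤ c := by
  have w00 : wt 0 0 = 1 := rfl
  have w01 : wt 0 1 = 2 := rfl
  have w02 : wt 0 2 = 2 := rfl
  have w03 : wt 0 3 = 3 := rfl
  have w10 : wt 1 0 = 2 := rfl
  have w11 : wt 1 1 = 2 := rfl
  have w12 : wt 1 2 = 4 := rfl
  have w13 : wt 1 3 = 6 := rfl
  have w20 : wt 2 0 = 2 := rfl
  have w21 : wt 2 1 = 4 := rfl
  have w22 : wt 2 2 = 4 := rfl
  have w23 : wt 2 3 = 6 := rfl
  have w30 : wt 3 0 = 3 := rfl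
  have w31 : wt 3 1 = 6 := rfl
  have w32 : wt 3 2 = 6 := rfl
  have w33 : wt 3 3 = 3 := rfl
  have s1 := h.s1
  have la := h.la
  have lb := h.lb
  have hs := h.symm
  rcases ka with ⟨ta, ca⟩ | ⟨ta, ba, ca⟩ | ⟨ta, ca⟩ | ⟨ta, na, ca⟩ | ⟨ta, na, ba, ca⟩ |
    ⟨ta, ba, ca⟩ | ⟨ta, ca⟩ <;>
  rcases kb with ⟨tb, cb⟩ | ⟨tb, bb, cb⟩ | ⟨tb, cb⟩ | ⟨tb, nb, cb⟩ | ⟨tb, nb, bb, cb⟩ |
    ⟨tb, bb, cb⟩ | ⟨tb, cb⟩ <;>
  rw [ta, tb] <;>
  first
  | omega
  | (have := h.six (Or.inl ca) cb; omega)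
  | (have := h.six (Or.inr ca) cb; omega)
  | (have := hs.six (Or.inl cb) ca; omega)
  | (have := hs.six (Or.inr cb) ca; omega)
  | (have := h.s3 na nb ca cb; omega)
  | (have := h.tone na ca (by omega); omega)
  | (have := hs.tone nb cb (by omega); omega)
  | (have := h.ttwo na ca cb; omega)
  | (have := hs.ttwo nb cb ca; omega)
  | (have := h.nobig ba bb ca cb; omega)
  | (have := hs.nobig bb ba cb ca; omega)
  | (have := h.four ca cb (h.ne ba bb ca cb); omega)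

end

end WT_

open WT_ in
theorem p_WT (h1 : T_SIZE) (h2 : T_DVD) (h3 : T_FOUR) : T_WT := by
  intro V _ Γ L f N X T I e hN hf hI hX a b hexc
  unfold exc at hexc
  simp only [not_or] at hexc
  obtain ⟨e1, e2, e3, ⟨e4, e4'⟩, e5, e6⟩ := hexc
  obtain ⟨s1, s2, s3, s4⟩ := h1 V Γ f N X T I e a b e1
  obtain ⟨-, s2', -, -⟩ := h1 V Γ f N X T I e b a (Ne.symm e1)
  obtain ⟨d1, d2⟩ := h2 V Γ a b
  have hpos := orb2_pos (Γ := Γ) (a, b)
  have fa : Fa Γ L N a b (orb2 Γ (a, b)).card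
      (cls (lnk (Γ : Set (Equiv.Perm V)) f N X T I e) (a, b)).card :=
    { da := d1
      db := d2
      pos := hpos
      s1 := s1
      four := fun h4 h5 h6 => (h3 V Γ a b h4 h5 h6).1
      tab := by
        intro haN hb hg
        have hfb : f a ∉ orb Γ b := fun h => e5 ⟨haN, h, hb⟩
        have h6 := s2 haN (hX b hb) hfb (by
          intro hmem
          obtain ⟨g, hgΓ, hg1, hg2⟩ := mem_orb2.1 hmem
          exact hf a haN (hg1.symm.trans (hg g hgΓ hg2)))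
        have h7 := Nat.le_of_dvd hpos d2
        have h8 := Nat.le_of_dvd (orb2_pos (Γ := Γ) (f a, b)) (h2 V Γ (f a) b).2
        omega
      tba := by
        intro hbN ha hg
        have hfa : f b ∉ orb Γ a := fun h => e6 ⟨hbN, h, ha⟩
        have h6 := s2' hbN (hX a ha) hfa (by
          intro hmem
          obtain ⟨g, hgΓ, hg1, hg2⟩ := mem_orb2.1 hmem
          exact hf b hbN (hg1.symm.trans (hg g hgΓ hg2)))
        have h7 := Nat.le_of_dvd (orb2_pos (Γ := Γ) (b, a)) (h2 V Γ b a).2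
        have h8 := Nat.le_of_dvd (orb2_pos (Γ := Γ) (f b, a)) (h2 V Γ (f b) a).2
        rw [s4]
        omega
      s3 := by
        intro haN hbN h4 h5
        refine s3 haN hbN h4 h5 (hf a haN) (hf b hbN) ?_ ?_ ?_ hX
        · intro h
          exact e5 ⟨haN, by rw [h]; exact self_mem b, by omega⟩
        · intro h
          exact e6 ⟨hbN, by rw [h]; exact self_mem a, by omega⟩
        · exact fun h => e2 ⟨haN, hbN, h⟩
      ne := fun h4 h5 h6 h7 h8 => e3 ⟨h6, h7, h4, h5, h8⟩ }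
  exact fa.main (kinds hI e4) (kinds hI e4')

end Pool.Agent.Two9
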