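import Pool.Agent.Two9.SAT
import Pool.Agent.Two9.MERGE
import Pool.Agent.Two9.VORB
import Pool.Agent.Two9.BAL
import Pool.Agent.Two9.NVN
import Pool.Agent.Two9.DVD
import Pool.Agent.Two9.FOUR
import Pool.Agent.Two9.FREE
import Pool.Agent.Two9.TYPES
import Pool.Agent.Two9.HOLE
import Pool.Agent.Two9.INV
import Pool.Agent.Two9.NTW
import Pool.Agent.Two9.COL
import Pool.Agent.Two9.NCSUM
import Pool.Agent.Two9.REMOVE
import Pool.Agent.Two9.COMP
import Pool.Agent.Two9.GENLINK
import Pool.Agent.Two9.RELLNK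
import Pool.Agent.Two9.SIZE
import Pool.Agent.Two9.WT
import Pool.Agent.Two9.EXC1
import Pool.Agent.Two9.EXC2
import Pool.Agent.Two9.EXC
import Pool.Agent.Two9.TZ
import Pool.Agent.Two9.CLASSES
import Pool.Agent.Two9.CODEA
import Pool.Agent.Two9.CODEB
import Pool.Agent.Two9.BIN
import Pool.Agent.Two9.ASY
import Pool.Agent.Two9.START
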