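import Pool.Agent.Two9.Targets

/-!
Assembly: the code of a non-reconstructible graph.
-/

set_option autoImplicit false
set_option linter.unusedSectionVars false

namespace Pool.Agent.Two9

open Finset Classical

namespace Asm

lemma al_self {V : Type} (ψ : V → Equiv.Perm V) (w : V) : al ψ w w = 1 := by
  simp [al]

lemma al_apply {V : Type} (ψ : V → Equiv.Perm V) (w w' v : V) :
    al ψ w w' v = (ψ w')⁻¹ (ψ w v) := rfl

lemma al_adj {V : Type} {G H : SimpleGraph V} {ψ : V → Equiv.Perm V} (h : Hyp G H ψ)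
    (w w' a b : V) (ha : a ≠ w) (hb : b ≠ w) (ha' : al ψ w w' a ≠ w') (hb' : al ψ w w' b ≠ w') :
    G.Adj a b ↔ G.Adj (al ψ w w' a) (al ψ w w' b) := by
  rw [h.adj w a b ha hb, h.adj w' _ _ ha' hb', al_apply, al_apply]
  simp

variable {V : Type} [Fintype V]

/-- The bound for the near twins. -/
def D0 (K L n : ℕ) : ℕ := (100 * L ^ 2 + 30) * n / K + 6 * K + 8

lemma gen_eq (ψ : V → Equiv.Perm V) (K : ℕ) (κ : Fin K → V × V) :
    Subgroup.closure {g | ∃ i, g = al ψ (κ i).1 (κ i).2} = gen ψ (univ.image κ) := by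
  unfold gen
  congr 1
  ext g
  simp only [Set.mem_ofPred_eq, mem_image, mem_univ, true_and]
  constructor
  · rintro ⟨i, rfl⟩; exact ⟨κ i, ⟨i, rfl⟩, rfl⟩
  · rintro ⟨p, ⟨i, rfl⟩, rfl⟩; exact ⟨i, rfl⟩

lemma gen_mono (ψ : V → Equiv.Perm V) (Φ : Finset (V × V)) (w w' : V) :
    gen ψ Φ ≤ gen ψ (insert (w, w') Φ) := by
  apply Subgroup.closure_mono
  rintro g ⟨p, hp, rfl⟩
  exact ⟨p, mem_insert_of_mem hp, rfl⟩

lemma al_mem (ψ : V → Equiv.Perm V) (Φ : Finset (V × V)) (w w' : V) :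
    al ψ w w' ∈ gen ψ (insert (w, w') Φ) :=
  Subgroup.subset_closure ⟨(w, w'), mem_insert_self _ _, rfl⟩

lemma orb_pos (Γ : Subgroup (Equiv.Perm V)) (a : V) : 0 < (orb Γ a).card :=
  card_pos.mpr ⟨a, mem_filter.mpr ⟨mem_univ _, 1, Γ.one_mem, rfl⟩⟩

lemma big_card {Γ : Subgroup (Equiv.Perm V)} {L : ℕ} {a : V} (h : a ∈ big Γ L) :
    (orb Γ a).card ≤ 2 := by
  rcases (mem_filter.mp h).2 with h | h
  · omega
  · omega

/-- The code of a graph. -/
noncomputable def code {K : ℕ} (ψ : V → Equiv.Perm V) (κ : Fin K → V × V) (f : V → V)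
    (e : V → V × V) (N X T I : Finset V) (E : Finset (V × V)) : Code V K :=
  (fun i => (al ψ (κ i).1 (κ i).2, (κ i).1, (ψ (κ i).1)⁻¹ (κ i).2), f, e, (N, X, T, I), E)

lemma respects {G H : SimpleGraph V} {ψ : V → Equiv.Perm V} (h : Hyp G H ψ) {K : ℕ}
    (κ : Fin K → V × V) (f : V → V) (e : V → V × V) (N X T I : Finset V) (E : Finset (V × V))
    (hE : ∀ v ∈ N, ∀ x ∈ X, (v, x) ∉ E → (G.Adj v x ↔ G.Adj (f v) x))
    (he : ∀ t ∈ T, ∀ l ∈ I, l ≠ t → (G.Adj t (e l).1 ↔ G.Adj t (e l).2))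
    (p q : V × V) (hpq : rel (code ψ κ f e N X T I E) p q) :
    G.Adj p.1 p.2 ↔ G.Adj q.1 q.2 := by
  obtain ⟨a, b⟩ := p
  obtain ⟨c, d⟩ := q
  rcases hpq with ⟨h1, h2⟩ | ⟨i, ⟨h1, h2, h3, h4⟩, h5, h6⟩ | ⟨h1, h2, h3, h4, h5⟩ |
      ⟨h1, h2, l, hl, h3, h4, h5⟩
  · simp only at h1 h2
    subst h1 h2
    exact G.adj_comm _ _
  · simp only [code] at h1 h2 h3 h4 h5 h6
    subst h5 h6
    have hole : ∀ x, x ≠ (ψ (κ i).1)⁻¹ (κ i).2 → al ψ (κ i).1 (κ i).2 x ≠ (κ i).2 := by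
      intro x hx hx'
      apply hx
      rw [al_apply, Equiv.Perm.inv_eq_iff_eq, h.fix] at hx'
      rw [← hx']
      simp
    exact al_adj h _ _ _ _ h1 h3 (hole _ h2) (hole _ h4)
  · simp only [code] at h1 h2 h3 h4 h5
    subst h4 h5
    exact hE a h2 _ h3 h1
  · simp only [code] at h1 h2 hl h3 h4 h5
    subst h2 h4 h5
    exact he _ h1 l hl h3

/-- Case A: few orbits. -/
lemma caseA (hN : T_NVN) (hR : T_RELLNK) (hG : T_GENLINK) {G H : SimpleGraph V}
    {ψ : V → Equiv.Perm V} (h : Hyp G H ψ) {K L : ℕ} (κ : Fin K → V × V)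
    (hnv : 9 * nv (gen ψ (univ.image κ)) ≤ 2 * Fintype.card V) :
    ∃ ω : Code V K, ω.2.2.2.2.card ≤ Fintype.card V * D0 K L (Fintype.card V) ∧
      (nc (rel ω) : ℝ) ≤ 2 / 9 * (Fintype.card V : ℝ) ^ 2 + (Fintype.card V : ℝ) ^ 2 / L +
        Fintype.card V * D0 K L (Fintype.card V) +
        (9 + 16 * K + 8 * 2 ^ L) * Fintype.card V ∧
      ∀ p q, rel ω p q → (G.Adj p.1 p.2 ↔ G.Adj q.1 q.2) := by
  refine ⟨code ψ κ id (fun v => (v, v)) ∅ ∅ ∅ ∅ ∅, ?_, ?_, ?_⟩
  · simp [code]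
  · have h1 := hR V K (code ψ κ id (fun v => (v, v)) ∅ ∅ ∅ ∅ ∅)
    have h2 := (hG V {g | ∃ i, g = al ψ (κ i).1 (κ i).2} id ∅ ∅ ∅ ∅ (fun v => (v, v))).1
    have h3 := (hG V {g | ∃ i, g = al ψ (κ i).1 (κ i).2} id ∅ ∅ ∅ ∅ (fun v => (v, v))).2
    rw [gen_eq] at h2 h3
    have h4 := hN V (gen ψ (univ.image κ))
    have h5 : nc (rel (code ψ κ id (fun v => (v, v)) ∅ ∅ ∅ ∅ ∅)) ≤
        nv (gen ψ (univ.image κ)) * Fintype.card V + 4 * K * Fintype.card V +
          Fintype.card V := by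
      refine h1.trans ?_
      have h6 : ((code ψ κ id (fun v => (v, v)) ∅ ∅ ∅ ∅ ∅).2.2.2.2).card = 0 := by
        simp [code]
      rw [h6]
      have := h2.trans (h3.trans h4)
      simp only [code]
      omega
    have h7 : (nc (rel (code ψ κ id (fun v => (v, v)) ∅ ∅ ∅ ∅ ∅)) : ℝ) ≤
        (nv (gen ψ (univ.image κ)) : ℝ) * Fintype.card V + 4 * K * Fintype.card V +
          Fintype.card V := by exact_mod_cast h5
    have h8 : (9 : ℝ) * nv (gen ψ (univ.image κ)) ≤ 2 * Fintype.card V := by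
      exact_mod_cast hnv
    have hn : (0 : ℝ) ≤ Fintype.card V := by positivity
    have h9 : (nv (gen ψ (univ.image κ)) : ℝ) * Fintype.card V ≤
        2 / 9 * (Fintype.card V : ℝ) ^ 2 := by nlinarith
    have h10 : (0 : ℝ) ≤ (Fintype.card V : ℝ) ^ 2 / L := by positivity
    have h11 : (0 : ℝ) ≤ Fintype.card V * (D0 K L (Fintype.card V) : ℝ) := by positivity
    have h12 : (0 : ℝ) ≤ 8 * 2 ^ L * (Fintype.card V : ℝ) := by positivity
    have h13 : (0 : ℝ) ≤ (K : ℝ) * (Fintype.card V : ℝ) := by positivity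
    nlinarith
  · intro p q hpq
    exact respects h κ id (fun v => (v, v)) ∅ ∅ ∅ ∅ ∅ (by simp) (by simp) p q hpq

/-- Few orbits are not invariant. -/
lemma nio_le (hS : T_MERGE) (hV : T_VORB) {ψ : V → Equiv.Perm V} {K : ℕ} (hK : 0 < K)
    {Φ : Finset (V × V)} (hn : 0 < Fintype.card V)
    (hsat : ∀ w w', K * n2 (gen ψ Φ) ≤ K * n2 (gen ψ (insert (w, w') Φ)) + Fintype.card V ^ 2)
    (hnv : ¬ 9 * nv (gen ψ Φ) ≤ 2 * Fintype.card V) (w w' : V) :
    nio (gen ψ Φ) (al ψ w w') * K ≤ 10 * Fintype.card V := by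
  have h1 : n2 (gen ψ Φ) ≤ n2 (gen ψ (insert (w, w') Φ)) + Fintype.card V ^ 2 / K := by
    have h2 := hsat w w'
    have h3 : n2 (gen ψ Φ) - n2 (gen ψ (insert (w, w') Φ)) ≤ Fintype.card V ^ 2 / K := by
      rw [Nat.le_div_iff_mul_le hK, Nat.sub_mul]
      have e1 := Nat.mul_comm K (n2 (gen ψ Φ))
      have e2 := Nat.mul_comm K (n2 (gen ψ (insert (w, w') Φ)))
      omega
    omega
  have h2 := hS V _ _ _ _ (gen_mono ψ Φ w w') (al_mem ψ Φ w w') h1
  have h3 := hV V _ _ _ h2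
  have h4 : Fintype.card V ^ 2 / K * K ≤ Fintype.card V ^ 2 := Nat.div_mul_le_self _ _
  have h5 : Fintype.card V ≤ 5 * nv (gen ψ Φ) := by omega
  apply Nat.le_of_mul_le_mul_right (c := Fintype.card V) _ hn
  calc nio (gen ψ Φ) (al ψ w w') * K * Fintype.card V
      ≤ nio (gen ψ Φ) (al ψ w w') * K * (5 * nv (gen ψ Φ)) := Nat.mul_le_mul_left _ h5
    _ = 5 * (nio (gen ψ Φ) (al ψ w w') * nv (gen ψ Φ)) * K := by ring
    _ ≤ 5 * (2 * (Fintype.card V ^ 2 / K)) * K :=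
        Nat.mul_le_mul_right _ (Nat.mul_le_mul_left _ h3)
    _ = 10 * (Fintype.card V ^ 2 / K * K) := by ring
    _ ≤ 10 * Fintype.card V ^ 2 := Nat.mul_le_mul_left _ h4
    _ = 10 * Fintype.card V * Fintype.card V := by ring

lemma bal_le (hS : T_MERGE) (hB : T_BAL) {ψ : V → Equiv.Perm V} {K : ℕ} (hK : 0 < K)
    {Φ : Finset (V × V)}
    (hsat : ∀ w w', K * n2 (gen ψ Φ) ≤ K * n2 (gen ψ (insert (w, w') Φ)) + Fintype.card V ^ 2)
    (w w' : V) (C : Finset V) (hC : ∀ a ∈ C, (orb (gen ψ Φ) a).card = 2)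
    (hC' : ∀ a ∈ C, ∀ b ∈ C, eqv (gen ψ Φ) a b) :
    (C.filter (fun a => al ψ w w' a = a)).card *
      (C.filter (fun a => al ψ w w' a ≠ a ∧ al ψ w w' a ∈ orb (gen ψ Φ) a)).card * K ≤
      4 * Fintype.card V ^ 2 := by
  have h1 : n2 (gen ψ Φ) ≤ n2 (gen ψ (insert (w, w') Φ)) + Fintype.card V ^ 2 / K := by
    have h2 := hsat w w'
    have h3 : n2 (gen ψ Φ) - n2 (gen ψ (insert (w, w') Φ)) ≤ Fintype.card V ^ 2 / K := by
      rw [Nat.le_div_iff_mul_le hK, Nat.sub_mul]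
      have e1 := Nat.mul_comm K (n2 (gen ψ Φ))
      have e2 := Nat.mul_comm K (n2 (gen ψ (insert (w, w') Φ)))
      omega
    omega
  have h2 := hS V _ _ _ _ (gen_mono ψ Φ w w') (al_mem ψ Φ w w') h1
  have h3 := hB V _ _ _ h2 C hC hC'
  have h4 : Fintype.card V ^ 2 / K * K ≤ Fintype.card V ^ 2 := Nat.div_mul_le_self _ _
  calc _ ≤ 2 * (2 * (Fintype.card V ^ 2 / K)) * K := Nat.mul_le_mul_right _ h3
    _ = 4 * (Fintype.card V ^ 2 / K * K) := by ring
    _ ≤ 4 * Fintype.card V ^ 2 := Nat.mul_le_mul_left _ h4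

/-- Case B: the main case. -/
lemma caseB (hI : T_INV) (hNT : T_NTW) (hH : T_HOLE) (hC : T_COL) (hCl : T_CLASSES)
    (hR : T_RELLNK) (hG : T_GENLINK) {G H : SimpleGraph V}
    {ψ : V → Equiv.Perm V} (h : Hyp G H ψ) {K L : ℕ} (hL : 0 < L) (hK : 0 < K)
    (κ : Fin K → V × V)
    (hnio : ∀ w w', nio (gen ψ (univ.image κ)) (al ψ w w') * K ≤ 10 * Fintype.card V)
    (c : V → Finset (Finset V)) (hc : (univ.image c).card ≤ 2 ^ L)
    (hcw : ∀ w w', c w = c w' →
      ((big (gen ψ (univ.image κ)) L).filter (fun a => al ψ w w' a ≠ a)).card * K ≤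
        100 * L ^ 2 * Fintype.card V) :
    ∃ ω : Code V K, ω.2.2.2.2.card ≤ Fintype.card V * D0 K L (Fintype.card V) ∧
      (nc (rel ω) : ℝ) ≤ 2 / 9 * (Fintype.card V : ℝ) ^ 2 + (Fintype.card V : ℝ) ^ 2 / L +
        Fintype.card V * D0 K L (Fintype.card V) +
        (9 + 16 * K + 8 * 2 ^ L) * Fintype.card V ∧
      ∀ p q, rel ω p q → (G.Adj p.1 p.2 ↔ G.Adj q.1 q.2) := by
  set Φ := univ.image κ with hΦ
  set Γ := gen ψ Φ with hΓ
  set n := Fintype.card V with hn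
  have hΦK : Φ.card ≤ K := by
    refine card_image_le.trans ?_
    rw [card_univ, Fintype.card_fin]
  -- near twins
  have hntw : ∀ w w' v, c w = c w' → v ∈ big Γ L → v ∉ hol ψ Φ → v ≠ w → al ψ w w' v ≠ w' →
      nd Γ G v (al ψ w w' v) ≤ D0 K L n := by
    intro w w' v hcc hv hvh hvw hvw'
    have h1 : nd Γ G v (al ψ w w' v) ≤ ((big Γ L).filter (fun a => al ψ w w' a ≠ a)).card +
        3 * nio Γ (al ψ w w') + 6 * Φ.card + 8 := hNT V G H ψ h Φ L w w' v hv hvh hvw hvw'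
    have h2 : ((big Γ L).filter (fun a => al ψ w w' a ≠ a)).card * K ≤ 100 * L ^ 2 * n :=
      hcw w w' hcc
    have h3 : nio Γ (al ψ w w') * K ≤ 10 * n := hnio w w'
    have h4 : ((big Γ L).filter (fun a => al ψ w w' a ≠ a)).card + 3 * nio Γ (al ψ w w') ≤
        (100 * L ^ 2 + 30) * n / K := by
      rw [Nat.le_div_iff_mul_le hK]
      calc (((big Γ L).filter (fun a => al ψ w w' a ≠ a)).card + 3 * nio Γ (al ψ w w')) * K
          = ((big Γ L).filter (fun a => al ψ w w' a ≠ a)).card * K +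
              3 * (nio Γ (al ψ w w') * K) := by ring
        _ ≤ 100 * L ^ 2 * n + 3 * (10 * n) := Nat.add_le_add h2 (Nat.mul_le_mul_left _ h3)
        _ = (100 * L ^ 2 + 30) * n := by ring
    have h5 : 6 * Φ.card ≤ 6 * K := Nat.mul_le_mul_left _ hΦK
    unfold D0
    refine h1.trans ?_
    omega
  -- the sets
  set N : Finset V := (big Γ L).filter (fun v => v ∉ hol ψ Φ ∧
    ∃ v', v' ≠ v ∧ nd Γ G v v' ≤ D0 K L n) with hN
  let f : V → V := fun v => if hv : ∃ v', v' ≠ v ∧ nd Γ G v v' ≤ D0 K L n then hv.choose else v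
  have hf : ∀ v ∈ N, f v ≠ v ∧ nd Γ G v (f v) ≤ D0 K L n := by
    intro v hv
    have h1 := (mem_filter.mp hv).2.2
    have h2 : f v = h1.choose := dif_pos h1
    rw [h2]
    exact h1.choose_spec
  set W : Finset V := (big Γ L).filter (fun v => v ∉ hol ψ Φ ∧ v ∉ N ∧
    3 ≤ (univ.filter (fun w => c w = c v)).card) with hW
  have hfix : ∀ w ∈ W, ∀ w' ∈ W, c w = c w' → ∀ u ∈ W, al ψ w w' u = u := by
    intro w hw w' hw' hcc u hu
    by_contra hne
    obtain ⟨hu1, hu2, hu3, _⟩ := mem_filter.mp hu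
    have h3 := (mem_filter.mp hw).2.2.2
    obtain ⟨s, hs, s', hs', h4, h5, h6⟩ := hH V ψ h.fix (univ.filter (fun x => c x = c w)) h3 w
      (mem_filter.mpr ⟨mem_univ _, rfl⟩) w' (mem_filter.mpr ⟨mem_univ _, hcc.symm⟩) u hne
    have h7 := hntw s s' u ((mem_filter.mp hs).2.trans (mem_filter.mp hs').2.symm) hu1 hu2 h5 h6
    exact hu3 (mem_filter.mpr ⟨hu1, hu2, _, h4, h7⟩)
  obtain ⟨I, e, hIW, hWI, he1, he2⟩ := hC V G H ψ h W c hfix
  set X : Finset V := univ.filter (fun x => (orb Γ x).card ≤ 3) with hX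
  set T : Finset V := I.filter (fun t => (orb Γ t).card = 1) with hT
  set E : Finset (V × V) := univ.filter (fun p => p.1 ∈ N ∧ p.2 ∈ X ∧
    ¬ (G.Adj p.1 p.2 ↔ G.Adj (f p.1) p.2)) with hE
  have hWb : W ⊆ big Γ L := filter_subset _ _
  have hNb : N ⊆ big Γ L := filter_subset _ _
  -- the number of errors
  have hEc : E.card ≤ n * D0 K L n := by
    have h1 : E.card ≤ D0 K L n * (E.image Prod.fst).card := by
      apply card_le_mul_card_image
      intro v hv
      obtain ⟨p, hp, rfl⟩ := mem_image.mp hv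
      have hpN := (mem_filter.mp hp).2.1
      refine le_trans ?_ (hf p.1 hpN).2
      unfold nd
      apply card_le_card_of_injOn Prod.snd
      · intro q hq
        obtain ⟨hq1, hq2⟩ := mem_filter.mp (mem_coe.mp hq)
        obtain ⟨_, _, hq3, hq4⟩ := mem_filter.mp hq1
        rw [hq2] at hq4
        exact mem_coe.mpr (mem_filter.mpr ⟨mem_univ _, (mem_filter.mp hq3).2, hq4⟩)
      · intro q hq q' hq' hqq
        have e1 := (mem_filter.mp (mem_coe.mp hq)).2
        have e2 := (mem_filter.mp (mem_coe.mp hq')).2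
        exact Prod.ext (e1.trans e2.symm) hqq
    have h2 : (E.image Prod.fst).card ≤ n := card_le_univ _
    calc E.card ≤ D0 K L n * (E.image Prod.fst).card := h1
      _ ≤ D0 K L n * n := Nat.mul_le_mul_left _ h2
      _ = n * D0 K L n := Nat.mul_comm _ _
  -- the bad vertices
  have hbad : (big Γ L \ (I ∪ N)).card ≤ 6 * K + 4 * 2 ^ L := by
    have hsub : big Γ L \ (I ∪ N) ⊆ ((hol ψ Φ).filter (fun x => (orb Γ x).card ≤ 3)) ∪
        (univ.filter (fun v => (univ.filter (fun w => c w = c v)).card < 3)) ∪ (W \ I) := by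
      intro v hv
      obtain ⟨hv1, hv2⟩ := mem_sdiff.mp hv
      rw [mem_union, not_or] at hv2
      by_cases h1 : v ∈ hol ψ Φ
      · refine mem_union_left _ (mem_union_left _ (mem_filter.mpr ⟨h1, ?_⟩))
        have := big_card hv1
        omega
      · by_cases h2 : 3 ≤ (univ.filter (fun w => c w = c v)).card
        · exact mem_union_right _ (mem_sdiff.mpr
            ⟨mem_filter.mpr ⟨hv1, h1, hv2.2, h2⟩, hv2.1⟩)
        · refine mem_union_left _ (mem_union_right _ (mem_filter.mpr ⟨mem_univ _, ?_⟩))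
          omega
    have h1 : ((hol ψ Φ).filter (fun x => (orb Γ x).card ≤ 3)).card ≤ 6 * Φ.card :=
      (hI V G H ψ h Φ).2
    have h2 : (univ.filter (fun v => (univ.filter (fun w => c w = c v)).card < 3)).card ≤
        2 * 2 ^ L := by
      refine (card_le_mul_card_image (n := 2) (f := c) _ ?_).trans ?_
      · intro y hy
        obtain ⟨v, hv, rfl⟩ := mem_image.mp hy
        have h3 := (mem_filter.mp hv).2
        have h4 : ((univ.filter (fun v => (univ.filter (fun w => c w = c v)).card < 3)).filter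
            (fun x => c x = c v)).card ≤ (univ.filter (fun w => c w = c v)).card := by
          apply card_le_card
          intro x hx
          exact mem_filter.mpr ⟨mem_univ _, (mem_filter.mp hx).2⟩
        omega
      · apply Nat.mul_le_mul_left
        exact (card_le_card (image_subset_image (subset_univ _))).trans hc
    have h3 : (W \ I).card + I.card = W.card := card_sdiff_add_card_eq_card hIW
    have h4 := card_le_card hsub
    have h5 := card_union_le (((hol ψ Φ).filter (fun x => (orb Γ x).card ≤ 3)) ∪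
        (univ.filter (fun v => (univ.filter (fun w => c w = c v)).card < 3))) (W \ I)
    have h6 := card_union_le ((hol ψ Φ).filter (fun x => (orb Γ x).card ≤ 3))
        (univ.filter (fun v => (univ.filter (fun w => c w = c v)).card < 3))
    have h7 : 6 * Φ.card ≤ 6 * K := Nat.mul_le_mul_left _ hΦK
    have h8 : 2 * (univ.image c).card ≤ 2 * 2 ^ L := Nat.mul_le_mul_left _ hc
    omega
  refine ⟨code ψ κ f e N X T I E, hEc, ?_, ?_⟩
  · have h1 : nc (rel (code ψ κ f e N X T I E)) ≤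
        nc (lnk {g | ∃ i, g = al ψ (κ i).1 (κ i).2} f N X T I e) + 4 * K * n + E.card + n :=
      hR V K (code ψ κ f e N X T I E)
    have h2 : nc (lnk {g | ∃ i, g = al ψ (κ i).1 (κ i).2} f N X T I e) ≤
        nc (lnk (Γ : Set (Equiv.Perm V)) f N X T I e) := by
      have h2' := (hG V {g | ∃ i, g = al ψ (κ i).1 (κ i).2} f N X T I e).1
      rw [gen_eq] at h2'
      exact h2'
    have h3 := hCl V Γ L f N X T I e G.Adj hL hNb (fun v hv => (hf v hv).1)
      (hIW.trans hWb) (fun x hx => mem_filter.mpr ⟨mem_univ _, hx⟩) rfl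
      (fun l hl => ⟨fun hh => (he1 l hl).1 (hIW hh), fun hh => (he1 l hl).2.1 (hIW hh),
        (he1 l hl).2.2⟩) he2
    have h4 : nc (rel (code ψ κ f e N X T I E)) ≤
        nc (lnk (Γ : Set (Equiv.Perm V)) f N X T I e) + 4 * K * n + n * D0 K L n + n := by
      omega
    have h5 : (nc (rel (code ψ κ f e N X T I E)) : ℝ) ≤
        nc (lnk (Γ : Set (Equiv.Perm V)) f N X T I e) + 4 * K * n + n * D0 K L n + n := by
      exact_mod_cast h4
    have h6 : (((big Γ L \ (I ∪ N)).card : ℕ) : ℝ) ≤ 6 * K + 4 * 2 ^ L := by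
      exact_mod_cast hbad
    have h7 : (0 : ℝ) ≤ (n : ℝ) := by positivity
    have h8 := mul_le_mul_of_nonneg_right h6 h7
    refine h5.trans ?_
    nlinarith
  · intro p q hpq
    refine respects h κ f e N X T I E ?_ ?_ p q hpq
    · intro v hv x hx hvx
      by_contra hne
      exact hvx (mem_filter.mpr ⟨mem_univ _, hv, hx, hne⟩)
    · intro t ht l hl hlt
      exact he2 l hl t (mem_filter.mp ht).1 (Ne.symm hlt)

end Asm

open Asm in
/-- The code of a hypomorphic pair. -/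
theorem exists_code (hSat : T_SAT) (hS : T_MERGE) (hV : T_VORB) (hB : T_BAL) (hN : T_NVN)
    (hTy : T_TYPES) (hH : T_HOLE) (hI : T_INV) (hNT : T_NTW) (hC : T_COL) (hG : T_GENLINK)
    (hR : T_RELLNK) (hCl : T_CLASSES) {V : Type} [Fintype V] [Nonempty V]
    {G H : SimpleGraph V} {ψ : V → Equiv.Perm V} (h : Hyp G H ψ) {K L : ℕ} (hL : 0 < L)
    (hK : 40 * L ≤ K) :
    ∃ ω : Code V K, ω.2.2.2.2.card ≤ Fintype.card V * D0 K L (Fintype.card V) ∧
      (nc (rel ω) : ℝ) ≤ 2 / 9 * (Fintype.card V : ℝ) ^ 2 + (Fintype.card V : ℝ) ^ 2 / L +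
        Fintype.card V * D0 K L (Fintype.card V) +
        (9 + 16 * K + 8 * 2 ^ L) * Fintype.card V ∧
      ∀ p q, rel ω p q → (G.Adj p.1 p.2 ↔ G.Adj q.1 q.2) := by
  have hK0 : 0 < K := by omega
  obtain ⟨κ, hκ⟩ := hSat V ψ K hK0
  by_cases hnv : 9 * nv (gen ψ (univ.image κ)) ≤ 2 * Fintype.card V
  · exact caseA hN hR hG h κ hnv
  · have hnio := nio_le hS hV hK0 Fintype.card_pos hκ hnv
    obtain ⟨c, hc, hcw⟩ := hTy V ψ _ L K hL hK hnio (fun w w' C h1 h2 =>
      bal_le hS hB hK0 hκ w w' C h1 h2)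
    exact caseB hI hNT hH hC hCl hR hG h hL hK0 κ hnio c hc hcw

end Pool.Agent.Two9
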