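import Pool.Agent.Two9.Asm

/-!
Counting: the codes.
-/

set_option autoImplicit false
set_option linter.unusedSectionVars false

namespace Pool.Agent.Two9

open Finset Classical

open Asm in
theorem count (hBin : T_BIN) (hAsy : T_ASY) (hCode : T_CODEB)
    (hEx : ∀ (V : Type) [Fintype V] [Nonempty V] (G H : SimpleGraph V) (ψ : V → Equiv.Perm V),
      Hyp G H ψ → ∀ K L : ℕ, 0 < L → 40 * L ≤ K →
      ∃ ω : Code V K, ω.2.2.2.2.card ≤ Fintype.card V * D0 K L (Fintype.card V) ∧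
        (nc (rel ω) : ℝ) ≤ 2 / 9 * (Fintype.card V : ℝ) ^ 2 + (Fintype.card V : ℝ) ^ 2 / L +
          Fintype.card V * D0 K L (Fintype.card V) +
          (9 + 16 * K + 8 * 2 ^ L) * Fintype.card V ∧
        ∀ p q, rel ω p q → (G.Adj p.1 p.2 ↔ G.Adj q.1 q.2))
    (ε : ℝ) (hε : 0 < ε) :
    ∃ n₀ : ℕ, ∀ (V : Type) [Fintype V], n₀ ≤ Fintype.card V → ∀ F : Finset (SimpleGraph V),
      (∀ G ∈ F, ∃ (H : SimpleGraph V) (ψ : V → Equiv.Perm V), Hyp G H ψ) →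
      (F.card : ℝ) ≤ 2 ^ ((2 / 9 + ε) * (Fintype.card V : ℝ) ^ 2) := by
  have hε8 : 0 < ε / 8 := by positivity
  obtain ⟨η, hη, hBin'⟩ := hBin (ε / 8) hε8
  -- the constants
  obtain ⟨L, hL⟩ := exists_nat_gt (8 / ε)
  have hL0 : 0 < L := by
    have : (0 : ℝ) < L := lt_trans (by positivity) hL
    exact_mod_cast this
  obtain ⟨K₁, hK₁⟩ := exists_nat_gt (((100 * (L : ℝ) ^ 2 + 30)) / min (η / 2) (ε / 8))
  set K : ℕ := K₁ + 40 * L with hK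
  have hδ : 0 < min (η / 2) (ε / 8) := lt_min (by positivity) hε8
  have hK0 : 0 < K := by omega
  have hKδ : (100 * (L : ℝ) ^ 2 + 30) / K ≤ min (η / 2) (ε / 8) := by
    have h1 : (100 * (L : ℝ) ^ 2 + 30) / min (η / 2) (ε / 8) ≤ K := by
      refine hK₁.le.trans ?_
      rw [hK]; push_cast
      have : (0 : ℝ) ≤ 40 * (L : ℝ) := by positivity
      linarith
    have h2 : (0 : ℝ) < K := by exact_mod_cast hK0
    rw [div_le_iff₀ h2]
    rw [div_le_iff₀ hδ] at h1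
    linarith
  set C : ℕ := 17 + 22 * K + 8 * 2 ^ L with hC
  obtain ⟨n₁, hn₁⟩ := hAsy (ε / 8) (K + C) hε8
  obtain ⟨n₂, hn₂⟩ := exists_nat_gt ((6 * (K : ℝ) + 8) / (η / 2))
  refine ⟨max (max n₁ n₂) 1, ?_⟩
  intro V _ hV F hF
  set n := Fintype.card V with hn
  have hn0 : 1 ≤ n := (le_max_right _ _).trans hV
  have hn1 : n₁ ≤ n := (le_max_left _ _).trans ((le_max_left _ _).trans hV)
  have hn2 : n₂ ≤ n := (le_max_right _ _).trans ((le_max_left _ _).trans hV)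
  have hne : Nonempty V := Fintype.card_pos_iff.mp (by omega)
  have hnr : (1 : ℝ) ≤ n := by exact_mod_cast hn0
  have hL1 : (1 : ℝ) / L ≤ ε / 8 := by
    have h1 : (0 : ℝ) < L := by exact_mod_cast hL0
    rw [div_le_iff₀ h1]
    rw [div_lt_iff₀ hε] at hL
    linarith
  -- `D0`
  have hD0 : (D0 K L n : ℝ) ≤ min (η / 2) (ε / 8) * n + 6 * K + 8 := by
    unfold D0
    push_cast
    have h1 : ((((100 * L ^ 2 + 30) * n / K : ℕ)) : ℝ) ≤ ((100 * (L : ℝ) ^ 2 + 30) * n) / K := by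
      refine (Nat.cast_div_le).trans ?_
      push_cast
      exact le_refl _
    have h2 : ((100 * (L : ℝ) ^ 2 + 30) * n) / K = (100 * (L : ℝ) ^ 2 + 30) / K * n := by ring
    have h3 := mul_le_mul_of_nonneg_right hKδ (by linarith : (0 : ℝ) ≤ n)
    linarith
  have hD1 : ((n * D0 K L n : ℕ) : ℝ) ≤ η * (n : ℝ) ^ 2 := by
    push_cast
    have h1 : (6 * (K : ℝ) + 8) ≤ η / 2 * n := by
      have h2 : (6 * (K : ℝ) + 8) / (η / 2) ≤ n := hn₂.le.trans (by exact_mod_cast hn2)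
      rw [div_le_iff₀ (by positivity)] at h2
      linarith
    have h3 : min (η / 2) (ε / 8) * (n : ℝ) ≤ η / 2 * n :=
      mul_le_mul_of_nonneg_right (min_le_left _ _) (by linarith)
    have h4 : (D0 K L n : ℝ) ≤ η * n := by linarith
    calc (n : ℝ) * D0 K L n ≤ n * (η * n) := mul_le_mul_of_nonneg_left h4 (by linarith)
      _ = η * (n : ℝ) ^ 2 := by ring
  have hD2 : (n : ℝ) * D0 K L n ≤ ε / 8 * (n : ℝ) ^ 2 + (6 * K + 8) * n := by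
    have h3 : min (η / 2) (ε / 8) * (n : ℝ) ≤ ε / 8 * n :=
      mul_le_mul_of_nonneg_right (min_le_right _ _) (by linarith)
    have h4 : (D0 K L n : ℝ) ≤ ε / 8 * n + 6 * K + 8 := by linarith
    calc (n : ℝ) * D0 K L n ≤ n * (ε / 8 * n + 6 * K + 8) :=
          mul_le_mul_of_nonneg_left h4 (by linarith)
      _ = _ := by ring
  -- the exponent
  set Ub : ℝ := 2 / 9 * (n : ℝ) ^ 2 + (n : ℝ) ^ 2 / L + n * D0 K L n +
    (9 + 16 * K + 8 * 2 ^ L) * n with hUb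
  have hUb0 : 0 ≤ Ub := by positivity
  have hUb1 : Ub ≤ (2 / 9 + ε / 4) * (n : ℝ) ^ 2 + C * n := by
    have h1 : (n : ℝ) ^ 2 / L ≤ ε / 8 * (n : ℝ) ^ 2 := by
      calc (n : ℝ) ^ 2 / L = 1 / L * (n : ℝ) ^ 2 := by ring
        _ ≤ _ := mul_le_mul_of_nonneg_right hL1 (by positivity)
    rw [hUb, hC]
    push_cast
    nlinarith
  have hcode := hCode V K (n * D0 K L n) ⌊Ub⌋₊ F (by
    intro G hG
    obtain ⟨H, ψ, hH⟩ := hF G hG
    obtain ⟨ω, h1, h2, h3⟩ := hEx V G H ψ hH K L hL0 (by omega)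
    exact ⟨ω, h1, Nat.le_floor h2, h3⟩)
  have hcode' : (F.card : ℝ) ≤ (((n ^ n * n ^ 2) ^ K * n ^ n * (n ^ 2) ^ n * 2 ^ (4 * n) : ℕ) : ℝ) *
      ((univ.filter (fun E : Finset (V × V) => E.card ≤ n * D0 K L n)).card : ℝ) *
      2 ^ (⌊Ub⌋₊ : ℕ) := by exact_mod_cast hcode
  -- the sets
  have hE : ((univ.filter (fun E : Finset (V × V) => E.card ≤ n * D0 K L n)).card : ℝ) ≤
      2 ^ (ε / 8 * (n : ℝ) ^ 2) := by
    have h1 := hBin' (V × V)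
    have h2 : (Fintype.card (V × V) : ℝ) = (n : ℝ) ^ 2 := by
      rw [Fintype.card_prod]; push_cast; ring
    rw [h2] at h1
    refine le_trans ?_ h1
    have h3 : univ.filter (fun E : Finset (V × V) => E.card ≤ n * D0 K L n) ⊆
        univ.filter (fun E : Finset (V × V) => (E.card : ℝ) ≤ η * (n : ℝ) ^ 2) := by
      intro E hE
      refine mem_filter.mpr ⟨mem_univ _, le_trans ?_ hD1⟩
      exact_mod_cast (mem_filter.mp hE).2
    exact_mod_cast card_le_card h3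
  -- the asymptotic factor
  have hA : (((n ^ n * n ^ 2) ^ K * n ^ n * (n ^ 2) ^ n * 2 ^ (4 * n) : ℕ) : ℝ) * 2 ^ (C * n : ℕ) ≤
      2 ^ (ε / 8 * (n : ℝ) ^ 2) := by
    refine le_trans ?_ (hn₁ n hn1)
    have h1 : (n ^ n * n ^ 2) ^ K * n ^ n * (n ^ 2) ^ n * 2 ^ (4 * n) * 2 ^ (C * n) ≤
        (n ^ n * n ^ 2) ^ (K + C) * n ^ n * (n ^ 2) ^ n * 2 ^ (4 * n) *
          2 ^ ((K + C) * n + (K + C)) := by
      have h2 : (n ^ n * n ^ 2) ^ K ≤ (n ^ n * n ^ 2) ^ (K + C) :=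
        Nat.pow_le_pow_right (by positivity) (by omega)
      have h3 : (2 : ℕ) ^ (C * n) ≤ 2 ^ ((K + C) * n + (K + C)) :=
        Nat.pow_le_pow_right (by norm_num) (by nlinarith)
      exact Nat.mul_le_mul (Nat.mul_le_mul_right _ (Nat.mul_le_mul_right _
        (Nat.mul_le_mul_right _ h2))) h3
    exact_mod_cast h1
  have hU : (2 : ℝ) ^ (⌊Ub⌋₊ : ℕ) ≤ 2 ^ ((2 / 9 + ε / 4) * (n : ℝ) ^ 2) * 2 ^ (C * n : ℕ) := by
    have h1 : ((⌊Ub⌋₊ : ℕ) : ℝ) ≤ (2 / 9 + ε / 4) * (n : ℝ) ^ 2 + ((C * n : ℕ) : ℝ) := by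
      push_cast
      exact (Nat.floor_le hUb0).trans hUb1
    rw [← Real.rpow_natCast 2 (⌊Ub⌋₊), ← Real.rpow_natCast 2 (C * n),
      ← Real.rpow_add (by norm_num : (0 : ℝ) < 2)]
    exact Real.rpow_le_rpow_of_exponent_le (by norm_num) h1
  have hpos1 : (0 : ℝ) ≤ (((n ^ n * n ^ 2) ^ K * n ^ n * (n ^ 2) ^ n * 2 ^ (4 * n) : ℕ) : ℝ) := by
    positivity
  have hpos2 : (0 : ℝ) ≤ 2 ^ (ε / 8 * (n : ℝ) ^ 2) := by positivity
  have hpos3 : (0 : ℝ) ≤ 2 ^ ((2 / 9 + ε / 4) * (n : ℝ) ^ 2) := by positivity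
  generalize (((n ^ n * n ^ 2) ^ K * n ^ n * (n ^ 2) ^ n * 2 ^ (4 * n) : ℕ) : ℝ) = A at *
  generalize ((univ.filter (fun E : Finset (V × V) => E.card ≤ n * D0 K L n)).card : ℝ) = B at *
  calc (F.card : ℝ) ≤ A * B * 2 ^ (⌊Ub⌋₊ : ℕ) := hcode'
    _ ≤ A * 2 ^ (ε / 8 * (n : ℝ) ^ 2) *
        (2 ^ ((2 / 9 + ε / 4) * (n : ℝ) ^ 2) * 2 ^ (C * n : ℕ)) := by
        apply mul_le_mul (mul_le_mul_of_nonneg_left hE hpos1) hU (by positivity) (by positivity)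
    _ = (A * 2 ^ (C * n : ℕ)) * 2 ^ (ε / 8 * (n : ℝ) ^ 2) *
        2 ^ ((2 / 9 + ε / 4) * (n : ℝ) ^ 2) := by ring
    _ ≤ 2 ^ (ε / 8 * (n : ℝ) ^ 2) * 2 ^ (ε / 8 * (n : ℝ) ^ 2) *
        2 ^ ((2 / 9 + ε / 4) * (n : ℝ) ^ 2) :=
        mul_le_mul_of_nonneg_right (mul_le_mul_of_nonneg_right hA hpos2) hpos3
    _ = 2 ^ (ε / 8 * (n : ℝ) ^ 2 + ε / 8 * (n : ℝ) ^ 2 + (2 / 9 + ε / 4) * (n : ℝ) ^ 2) := by
        rw [Real.rpow_add (by norm_num), Real.rpow_add (by norm_num)]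
    _ ≤ 2 ^ ((2 / 9 + ε) * (n : ℝ) ^ 2) := by
        apply Real.rpow_le_rpow_of_exponent_le (by norm_num)
        have : 0 ≤ ε * (n : ℝ) ^ 2 := by positivity
        nlinarith

end Pool.Agent.Two9
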