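import Mathlib

/-!
Definitions for the theorem: at most `2 ^ ((2 / 9 + ε) n ^ 2)` graphs on `n` vertices are not
reconstructible (MP_552896_co).  See `Blueprint.lean.txt`.
-/

set_option autoImplicit false

namespace Pool.Agent.Two9

open Finset Classical

/-! ### hypomorphic graphs -/

/-- `G`, `H` are hypomorphic (`ψ w` is an isomorphism of `G - w` onto `H - w`, extended by
`w ↦ w`) and not isomorphic. -/
structure Hyp {V : Type} (G H : SimpleGraph V) (ψ : V → Equiv.Perm V) : Prop where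
  fix : ∀ w, ψ w w = w
  adj : ∀ w a b, a ≠ w → b ≠ w → (G.Adj a b ↔ H.Adj (ψ w a) (ψ w b))
  non : ¬ Nonempty (G ≃g H)

/-- The permutation `x ↦ (ψ w')⁻¹ (ψ w x)`; it preserves the adjacency of the pairs which do not
contain one of the two *holes* `w` and `(ψ w)⁻¹ w'`. -/
noncomputable def al {V : Type} (ψ : V → Equiv.Perm V) (w w' : V) : Equiv.Perm V :=
  (ψ w')⁻¹ * ψ w

/-- The group generated by the `al ψ w w'`, `(w, w') ∈ Φ`. -/
noncomputable def gen {V : Type} (ψ : V → Equiv.Perm V) (Φ : Finset (V × V)) :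
    Subgroup (Equiv.Perm V) :=
  Subgroup.closure {g | ∃ p ∈ Φ, g = al ψ p.1 p.2}

/-! ### orbits -/

section

variable {V : Type} [Fintype V]

/-- The orbit of the vertex `a`. -/
noncomputable def orb (Γ : Subgroup (Equiv.Perm V)) (a : V) : Finset V :=
  univ.filter (fun b => ∃ g ∈ Γ, g a = b)

/-- The orbit of the ordered pair `p`. -/
noncomputable def orb2 (Γ : Subgroup (Equiv.Perm V)) (p : V × V) : Finset (V × V) :=
  univ.filter (fun q => ∃ g ∈ Γ, g p.1 = q.1 ∧ g p.2 = q.2)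

/-- The number of orbits of vertices. -/
noncomputable def nv (Γ : Subgroup (Equiv.Perm V)) : ℕ := (univ.image (orb Γ)).card

/-- The number of orbits of ordered pairs of vertices. -/
noncomputable def n2 (Γ : Subgroup (Equiv.Perm V)) : ℕ := (univ.image (orb2 Γ)).card

/-- The number of the orbits of vertices which are not invariant under `α`. -/
noncomputable def nio (Γ : Subgroup (Equiv.Perm V)) (α : Equiv.Perm V) : ℕ :=
  ((univ.filter (fun a => α a ∉ orb Γ a)).image (orb Γ)).card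

/-- `a` and `b` have the same stabilizer. -/
def eqv (Γ : Subgroup (Equiv.Perm V)) (a b : V) : Prop := ∀ g ∈ Γ, (g a = a ↔ g b = b)

/-- The set `A` of the vertices with an orbit of size `1`, or with an orbit of size `2` and the
same stabilizer as at least `|V| / L` vertices with orbits of size `2`. -/
noncomputable def big (Γ : Subgroup (Equiv.Perm V)) (L : ℕ) : Finset V :=
  univ.filter (fun a => (orb Γ a).card = 1 ∨ ((orb Γ a).card = 2 ∧ Fintype.card V ≤
    L * (univ.filter (fun b => (orb Γ b).card = 2 ∧ eqv Γ a b)).card))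

/-- The vertices whose orbit contains a hole of one of the generators. -/
noncomputable def hol (ψ : V → Equiv.Perm V) (Φ : Finset (V × V)) : Finset V :=
  univ.filter (fun a => ∃ p ∈ Φ, p.1 ∈ orb (gen ψ Φ) a ∨ (ψ p.1)⁻¹ p.2 ∈ orb (gen ψ Φ) a)

/-- The number of the vertices `x` with an orbit of size at most `3` which distinguish `v` and
`v'`. -/
noncomputable def nd (Γ : Subgroup (Equiv.Perm V)) (G : SimpleGraph V) (v v' : V) : ℕ :=
  (univ.filter (fun x => (orb Γ x).card ≤ 3 ∧ ¬ (G.Adj v x ↔ G.Adj v' x))).card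

end

/-! ### equivalence classes -/

/-- The class of `p` for the equivalence relation generated by `r`. -/
noncomputable def cls {P : Type} [Fintype P] (r : P → P → Prop) (p : P) : Finset P :=
  univ.filter (fun q => Relation.EqvGen r p q)

/-- The number of the classes of the equivalence relation generated by `r`. -/
noncomputable def nc {P : Type} [Fintype P] (r : P → P → Prop) : ℕ := (univ.image (cls r)).card

/-- The links between ordered pairs: swap, group, twins (`v ∈ N` is a near twin of `f v` on `X`),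
edges (the pair `e l` is not distinguished by `t ∈ T`). -/
def lnk {V : Type} (S : Set (Equiv.Perm V)) (f : V → V) (N X T I : Finset V) (e : V → V × V)
    (p q : V × V) : Prop :=
  (q.1 = p.2 ∧ q.2 = p.1) ∨
  (∃ φ ∈ S, φ p.1 = q.1 ∧ φ p.2 = q.2) ∨
  (p.1 ∈ N ∧ p.2 ∈ X ∧ q.1 = f p.1 ∧ q.2 = p.2) ∨
  (p.1 ∈ T ∧ q.1 = p.1 ∧ ∃ l ∈ I, p.2 = (e l).1 ∧ q.2 = (e l).2)

/-! ### codes -/

/-- A code: `K` permutations with two holes each, the map `f`, the map `e`, the sets `N`, `X`, `T`,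
`I`, and the set of the pairs which are excepted from the twin links. -/
abbrev Code (V : Type) (K : ℕ) : Type :=
  (Fin K → Equiv.Perm V × V × V) × (V → V) × (V → V × V) ×
    (Finset V × Finset V × Finset V × Finset V) × Finset (V × V)

/-- The links of a code, without the exceptions. -/
def rel {V : Type} {K : ℕ} (ω : Code V K) (p q : V × V) : Prop :=
  (q.1 = p.2 ∧ q.2 = p.1) ∨
  (∃ i, (p.1 ≠ (ω.1 i).2.1 ∧ p.1 ≠ (ω.1 i).2.2 ∧ p.2 ≠ (ω.1 i).2.1 ∧ p.2 ≠ (ω.1 i).2.2) ∧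
    (ω.1 i).1 p.1 = q.1 ∧ (ω.1 i).1 p.2 = q.2) ∨
  (p ∉ ω.2.2.2.2 ∧ p.1 ∈ ω.2.2.2.1.1 ∧ p.2 ∈ ω.2.2.2.1.2.1 ∧ q.1 = ω.2.1 p.1 ∧ q.2 = p.2) ∨
  (p.1 ∈ ω.2.2.2.1.2.2.1 ∧ q.1 = p.1 ∧ ∃ l ∈ ω.2.2.2.1.2.2.2, l ≠ p.1 ∧
    p.2 = (ω.2.2.1 l).1 ∧ q.2 = (ω.2.2.1 l).2)

/-! ### types of vertices -/

section

variable {V : Type} [Fintype V]

/-- The type of a vertex: `0` for the vertices of `I` with an orbit of size one, `1` for the
other vertices of `I`, `3` for the vertices with an orbit of size three, `2` for the others. -/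
noncomputable def ty (Γ : Subgroup (Equiv.Perm V)) (I : Finset V) (a : V) : Fin 4 :=
  if a ∈ I then (if (orb Γ a).card = 1 then 0 else 1)
  else (if (orb Γ a).card = 3 then 3 else 2)

/-- The weights: lower bounds for the number of unordered pairs in a class. -/
def wt : Fin 4 → Fin 4 → ℕ := ![![1, 2, 2, 3], ![2, 2, 4, 6], ![2, 4, 4, 6], ![3, 6, 6, 3]]

/-- The exceptional pairs. -/
def exc (Γ : Subgroup (Equiv.Perm V)) (L : ℕ) (f : V → V) (N I : Finset V) (p : V × V) : Prop :=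
  orb Γ p.1 = orb Γ p.2 ∨
  (p.1 ∈ N ∧ p.2 ∈ N ∧ f p.1 = f p.2) ∨
  ((orb Γ p.1).card = 2 ∧ (orb Γ p.2).card = 2 ∧ p.1 ∉ big Γ L ∧ p.2 ∉ big Γ L ∧
    eqv Γ p.1 p.2) ∨
  (p.1 ∈ big Γ L \ (I ∪ N) ∨ p.2 ∈ big Γ L \ (I ∪ N)) ∨
  (p.1 ∈ N ∧ f p.1 ∈ orb Γ p.2 ∧ (orb Γ p.2).card ≤ 3) ∨
  (p.2 ∈ N ∧ f p.2 ∈ orb Γ p.1 ∧ (orb Γ p.1).card ≤ 3)

end

end Pool.Agent.Two9
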