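import Pool.Agent.Two9.Targets

set_option autoImplicit false

namespace Pool.Agent.Two9

theorem p_INEQ : T_INEQ := by
  intro t y b s ht hy hb hs hty
  have h1 : 0 ≤ t * y := mul_nonneg ht hy
  have h2 : 0 ≤ t * b := mul_nonneg ht hb
  have h3 : 0 ≤ t * s := mul_nonneg ht hs
  have h4 : 0 ≤ y * b := mul_nonneg hy hb
  have h5 : 0 ≤ y * s := mul_nonneg hy hs
  have h6 : 0 ≤ b * s := mul_nonneg hb hs
  have h7 : 0 ≤ s * s := mul_nonneg hs hs
  rcases le_total (t + y) (b / 2 + 2 * s / 3) with hc | hc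
  · have hm : t * min (b / 2 + s / 3) (b + s - t - y) ≤ t * (b / 2 + s / 3) :=
      mul_le_mul_of_nonneg_left (min_le_left _ _) ht
    have hu : 0 ≤ b / 2 + 2 * s / 3 - t - y := by linarith
    have u1 := mul_nonneg hu ht
    have u2 := mul_nonneg hu hy
    have u3 := mul_nonneg hu hb
    have u4 := mul_nonneg hu hs
    nlinarith [u1, u2, u3, u4, h1, h2, h3, h4, h5, h6, h7]
  · have hm : t * min (b / 2 + s / 3) (b + s - t - y) ≤ t * (b + s - t - y) :=
      mul_le_mul_of_nonneg_left (min_le_right _ _) ht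
    have hu : 0 ≤ t + y - (b / 2 + 2 * s / 3) := by linarith
    have hv : 0 ≤ b + s - t - y := by linarith
    have u1 := mul_nonneg hu ht
    have u2 := mul_nonneg hu hy
    have u3 := mul_nonneg hu hb
    have u4 := mul_nonneg hu hs
    have u5 := mul_nonneg hu hu
    have v2 := mul_nonneg hv hy
    nlinarith [u1, u2, u3, u4, u5, v2, h1, h2, h3, h4, h5, h6, h7]

end Pool.Agent.Two9
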