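import Pool.Agent.Two9.All
import Pool.Agent.Two9.INEQ
import Pool.Agent.Two9.Cnt

/-!
The counting theorem and its consequence for classes of graphs.
-/

set_option autoImplicit false
set_option linter.unusedSectionVars false

namespace Pool.Agent.Two9

open Finset Classical

/-- The truncated clique lattice of `G` is reconstructible from its deck of maximal filter
deleted subsets. -/
def Rec {V : Type} [Fintype V] (G : SimpleGraph V) : Prop :=
  ∀ (W : Type) [Fintype W] (H : SimpleGraph W) (f : V ≃ W),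
    (∀ v : V,
      Nonempty ({s : Finset V // s.Nonempty ∧ G.IsClique (s : Set V) ∧ v ∉ s} ≃o
        {t : Finset W // t.Nonempty ∧ H.IsClique (t : Set W) ∧ f v ∉ t})) →
    Nonempty ({s : Finset V // s.Nonempty ∧ G.IsClique (s : Set V)} ≃o
      {t : Finset W // t.Nonempty ∧ H.IsClique (t : Set W)})

theorem count_V (ε : ℝ) (hε : 0 < ε) :
    ∃ n₀ : ℕ, ∀ (V : Type) [Fintype V], n₀ ≤ Fintype.card V →
      (Nat.card {G : SimpleGraph V // ¬ Rec G} : ℝ) ≤
        2 ^ ((2 / 9 + ε) * (Fintype.card V : ℝ) ^ 2) := by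
  have hNCSUM := p_NCSUM
  have hREM := p_REMOVE
  have hCOMP := p_COMP
  have hFREE := p_FREE p_DVD p_FOUR
  have hNTW := p_NTW p_INV hFREE
  have hWT := p_WT p_SIZE p_DVD p_FOUR
  have hEXC := p_EXC p_EXC1 p_EXC2
  have hTZ := p_TZ hCOMP
  have hCL := p_CLASSES hNCSUM hWT hEXC hTZ p_INEQ
  have hREL := p_RELLNK hREM
  obtain ⟨n₀, hn₀⟩ := count p_BIN p_ASY (p_CODEB p_CODEA)
    (fun V _ _ G H ψ h K L hL hK => exists_code p_SAT p_MERGE p_VORB p_BAL p_NVN p_TYPES p_HOLE
      p_INV hNTW p_COL p_GENLINK hREL hCL h hL hK) ε hε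
  refine ⟨n₀, fun V _ hV => ?_⟩
  have h := hn₀ V hV (univ.filter (fun G : SimpleGraph V => ¬ Rec G))
    (fun G hG => p_START V G (mem_filter.mp hG).2)
  rw [Nat.card_eq_fintype_card, Fintype.card_subtype]
  exact h

end Pool.Agent.Two9
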