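import Pool.Agent.Two9.Targets

set_option autoImplicit false
set_option linter.unusedSectionVars false

namespace Pool.Agent.Two9

open Finset Classical

namespace RELLNK_

variable {V : Type} [Fintype V] {K : ℕ}

/-- pairs with a hole of the `i`-th permutation -/
def hp (ω : Code V K) (x : Fin K × Fin 4 × V) : V × V :=
  if x.2.1 = 0 then ((ω.1 x.1).2.1, x.2.2)
  else if x.2.1 = 1 then ((ω.1 x.1).2.2, x.2.2)
  else if x.2.1 = 2 then (x.2.2, (ω.1 x.1).2.1)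
  else (x.2.2, (ω.1 x.1).2.2)

noncomputable def E1 (ω : Code V K) : Finset ((V × V) × (V × V)) :=
  (univ : Finset (Fin K × Fin 4 × V)).image
    (fun x => (hp ω x, ((ω.1 x.1).1 (hp ω x).1, (ω.1 x.1).1 (hp ω x).2)))

noncomputable def E2 (ω : Code V K) : Finset ((V × V) × (V × V)) :=
  ω.2.2.2.2.image (fun p => (p, (ω.2.1 p.1, p.2)))

noncomputable def E3 (ω : Code V K) : Finset ((V × V) × (V × V)) :=
  (univ : Finset V).image (fun l => ((l, (ω.2.2.1 l).1), (l, (ω.2.2.1 l).2)))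

theorem card_E1 (ω : Code V K) : (E1 ω).card ≤ 4 * K * Fintype.card V := by
  refine card_image_le.trans ?_
  rw [card_univ, Fintype.card_prod, Fintype.card_prod, Fintype.card_fin, Fintype.card_fin]
  apply le_of_eq
  ring

theorem card_E2 (ω : Code V K) : (E2 ω).card ≤ ω.2.2.2.2.card := card_image_le

theorem card_E3 (ω : Code V K) : (E3 ω).card ≤ Fintype.card V :=
  card_image_le.trans (by rw [card_univ])

theorem exists_hp (ω : Code V K) (i : Fin K) (p : V × V)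
    (h : ¬ (p.1 ≠ (ω.1 i).2.1 ∧ p.1 ≠ (ω.1 i).2.2 ∧ p.2 ≠ (ω.1 i).2.1 ∧ p.2 ≠ (ω.1 i).2.2)) :
    ∃ c : Fin 4, ∃ v : V, hp ω (i, c, v) = p := by
  by_cases h1 : p.1 = (ω.1 i).2.1
  · exact ⟨0, p.2, by simp [hp, ← h1]⟩
  by_cases h2 : p.1 = (ω.1 i).2.2
  · exact ⟨1, p.2, by simp [hp, ← h2]⟩
  by_cases h3 : p.2 = (ω.1 i).2.1
  · exact ⟨2, p.1, by simp [hp, ← h3]⟩
  by_cases h4 : p.2 = (ω.1 i).2.2
  · exact ⟨3, p.1, by simp [hp, ← h4]⟩
  exact absurd ⟨h1, h2, h3, h4⟩ h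

end RELLNK_

open RELLNK_ in
theorem p_RELLNK (h1 : T_REMOVE) : T_RELLNK := by
  intro V _ K ω
  have key := h1 (V × V) (lnk {g | ∃ i, g = (ω.1 i).1} ω.2.1 ω.2.2.2.1.1 ω.2.2.2.1.2.1
    ω.2.2.2.1.2.2.1 ω.2.2.2.1.2.2.2 ω.2.2.1) (rel ω) (E1 ω ∪ E2 ω ∪ E3 ω) ?_
  · have c1 := card_E1 ω
    have c2 := card_E2 ω
    have c3 := card_E3 ω
    have c4 := card_union_le (E1 ω ∪ E2 ω) (E3 ω)
    have c5 := card_union_le (E1 ω) (E2 ω)
    omega
  · rintro p q (h | ⟨φ, ⟨i, rfl⟩, hφ1, hφ2⟩ | ⟨hN, hX, hq1, hq2⟩ | ⟨hT, hq1, l, hl, hp2, hq2⟩)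
    · exact Or.inl (Or.inl h)
    · by_cases hh : (p.1 ≠ (ω.1 i).2.1 ∧ p.1 ≠ (ω.1 i).2.2 ∧ p.2 ≠ (ω.1 i).2.1 ∧
        p.2 ≠ (ω.1 i).2.2)
      · exact Or.inl (Or.inr (Or.inl ⟨i, hh, hφ1, hφ2⟩))
      · right
        rw [mem_union, mem_union]
        refine Or.inl (Or.inl ?_)
        obtain ⟨c, v, hcv⟩ := exists_hp ω i p hh
        unfold E1
        rw [mem_image]
        refine ⟨(i, c, v), mem_univ _, ?_⟩
        rw [hcv]
        exact Prod.ext rfl (Prod.ext hφ1 hφ2)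
    · by_cases hD : p ∈ ω.2.2.2.2
      · right
        rw [mem_union, mem_union]
        refine Or.inl (Or.inr ?_)
        unfold E2
        rw [mem_image]
        exact ⟨p, hD, Prod.ext rfl (Prod.ext hq1.symm hq2.symm)⟩
      · exact Or.inl (Or.inr (Or.inr (Or.inl ⟨hD, hN, hX, hq1, hq2⟩)))
    · by_cases hlp : l = p.1
      · right
        rw [mem_union]
        refine Or.inr ?_
        unfold E3
        rw [mem_image]
        exact ⟨l, mem_univ _, Prod.ext (Prod.ext hlp hp2.symm)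
          (Prod.ext (hlp.trans hq1.symm) hq2.symm)⟩
      · exact Or.inl (Or.inr (Or.inr (Or.inr ⟨hT, hq1, l, hl, hlp, hp2, hq2⟩)))

end Pool.Agent.Two9
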