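import Pool.Agent.Two9.Targets

set_option autoImplicit false
set_option linter.unusedSectionVars false

namespace Pool.Agent.Two9

open Finset Classical

namespace SAT_

variable {V : Type} [Fintype V]

lemma n2_le (Γ : Subgroup (Equiv.Perm V)) : n2 Γ ≤ Fintype.card V ^ 2 := by
  unfold n2
  refine Finset.card_image_le.trans ?_
  rw [Finset.card_univ, Fintype.card_prod, sq]

lemma n2_pos [Nonempty V] (Γ : Subgroup (Equiv.Perm V)) : 1 ≤ n2 Γ := by
  unfold n2
  obtain ⟨v⟩ := (inferInstance : Nonempty V)
  exact Finset.card_pos.2 ⟨orb2 Γ (v, v), Finset.mem_image_of_mem _ (Finset.mem_univ _)⟩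

lemma al_self (ψ : V → Equiv.Perm V) (v : V) : al ψ v v = 1 := by
  unfold al
  exact inv_mul_cancel _

lemma gen_update (ψ : V → Equiv.Perm V) {K : ℕ} (κ : Fin K → V × V) (j : Fin K) (v0 : V)
    (hj : κ j = (v0, v0)) (p : V × V) :
    gen ψ (univ.image (Function.update κ j p)) = gen ψ (insert p (univ.image κ)) := by
  unfold gen
  apply le_antisymm
  · refine Subgroup.closure_mono ?_
    rintro g ⟨q, hq, rfl⟩
    obtain ⟨i, -, rfl⟩ := Finset.mem_image.1 hq
    refine ⟨_, ?_, rfl⟩
    rw [Finset.mem_insert]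
    by_cases hi : i = j
    · left
      rw [hi, Function.update_self]
    · right
      rw [Function.update_of_ne hi]
      exact Finset.mem_image_of_mem _ (Finset.mem_univ _)
  · rw [Subgroup.closure_le]
    rintro g ⟨q, hq, rfl⟩
    rw [Finset.mem_insert] at hq
    rcases hq with rfl | hq
    · refine Subgroup.subset_closure ⟨q, ?_, rfl⟩
      rw [Finset.mem_image]
      exact ⟨j, Finset.mem_univ _, Function.update_self _ _ _⟩
    · obtain ⟨i, -, rfl⟩ := Finset.mem_image.1 hq
      by_cases hi : i = j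
      · rw [hi, hj]
        show al ψ v0 v0 ∈ _
        rw [al_self]
        exact Subgroup.one_mem _
      · refine Subgroup.subset_closure ⟨κ i, ?_, rfl⟩
        rw [Finset.mem_image]
        exact ⟨i, Finset.mem_univ _, Function.update_of_ne hi _ _⟩

end SAT_

open SAT_ in
theorem p_SAT : T_SAT := by
  intro V _ _ ψ K hK
  by_contra hcon
  push Not at hcon
  obtain ⟨v0⟩ := (inferInstance : Nonempty V)
  have key : ∀ j : ℕ, j ≤ K → ∃ κ : Fin K → V × V, (∀ i : Fin K, j ≤ i.1 → κ i = (v0, v0)) ∧
      K * n2 (gen ψ (univ.image κ)) + j * Fintype.card V ^ 2 ≤ K * Fintype.card V ^ 2 := by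
    intro j
    induction j with
    | zero =>
      intro _
      refine ⟨fun _ => (v0, v0), fun _ _ => rfl, ?_⟩
      rw [zero_mul, add_zero]
      exact Nat.mul_le_mul_left _ (n2_le _)
    | succ j ih =>
      intro hj
      obtain ⟨κ, h1, h2⟩ := ih (by omega)
      obtain ⟨w, w', h3⟩ := hcon κ
      refine ⟨Function.update κ ⟨j, by omega⟩ (w, w'), ?_, ?_⟩
      · intro i hi
        have hne : i ≠ ⟨j, by omega⟩ := by
          intro h
          rw [h] at hi
          simp at hi
        rw [Function.update_of_ne hne]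
        exact h1 i (by omega)
      · rw [gen_update ψ κ ⟨j, by omega⟩ v0 (h1 _ le_rfl) (w, w')]
        rw [add_mul, one_mul]
        omega
  obtain ⟨κ, -, h⟩ := key K le_rfl
  have h1 := n2_pos (gen ψ (univ.image κ))
  have h2 : 0 < K * n2 (gen ψ (univ.image κ)) := Nat.mul_pos hK h1
  omega

end Pool.Agent.Two9
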