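import Pool.Agent.Two9.Defs

/-!
Targets.  Every target `T_X` is proved in its own file `Pool/Agent/Two9/X.lean` as
`theorem p_X (h1 : T_A) ... : T_X`.  See `Blueprint.lean.txt`.
-/

set_option autoImplicit false

namespace Pool.Agent.Two9

open Finset Classical

/-! ## Groups -/

/-- A saturated family of `K` pairs. -/
def T_SAT : Prop := ∀ (V : Type) [Fintype V] [Nonempty V] (ψ : V → Equiv.Perm V) (K : ℕ), 0 < K →
  ∃ κ : Fin K → V × V, ∀ w w', K * n2 (gen ψ (univ.image κ)) ≤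
    K * n2 (gen ψ (insert (w, w') (univ.image κ))) + Fintype.card V ^ 2

/-- If adding `α` merges few orbits of pairs then few orbits of pairs are not invariant. -/
def T_MERGE : Prop := ∀ (V : Type) [Fintype V] (Γ Γ' : Subgroup (Equiv.Perm V))
  (α : Equiv.Perm V) (m : ℕ), Γ ≤ Γ' → α ∈ Γ' → n2 Γ ≤ n2 Γ' + m →
  ((univ.filter (fun p : V × V => (α p.1, α p.2) ∉ orb2 Γ p)).image (orb2 Γ)).card ≤ 2 * m

/-- Few orbits of vertices are not invariant. -/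
def T_VORB : Prop := ∀ (V : Type) [Fintype V] (Γ : Subgroup (Equiv.Perm V))
  (α : Equiv.Perm V) (M : ℕ),
  ((univ.filter (fun p : V × V => (α p.1, α p.2) ∉ orb2 Γ p)).image (orb2 Γ)).card ≤ M →
  nio Γ α * nv Γ ≤ M

/-- `α` is nearly trivial or nearly the swap on a set of vertices with the same stabilizer. -/
def T_BAL : Prop := ∀ (V : Type) [Fintype V] (Γ : Subgroup (Equiv.Perm V))
  (α : Equiv.Perm V) (M : ℕ),
  ((univ.filter (fun p : V × V => (α p.1, α p.2) ∉ orb2 Γ p)).image (orb2 Γ)).card ≤ M →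
  ∀ C : Finset V, (∀ a ∈ C, (orb Γ a).card = 2) → (∀ a ∈ C, ∀ b ∈ C, eqv Γ a b) →
  (C.filter (fun a => α a = a)).card * (C.filter (fun a => α a ≠ a ∧ α a ∈ orb Γ a)).card ≤ 2 * M

/-- There are at most `|V|` times as many orbits of pairs as orbits of vertices. -/
def T_NVN : Prop := ∀ (V : Type) [Fintype V] (Γ : Subgroup (Equiv.Perm V)),
  n2 Γ ≤ nv Γ * Fintype.card V

/-- The size of an orbit of pairs is divisible by the sizes of the orbits of its entries. -/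
def T_DVD : Prop := ∀ (V : Type) [Fintype V] (Γ : Subgroup (Equiv.Perm V)) (a b : V),
  (orb Γ a).card ∣ (orb2 Γ (a, b)).card ∧ (orb Γ b).card ∣ (orb2 Γ (a, b)).card

/-- Two orbits of size two with different stabilizers. -/
def T_FOUR : Prop := ∀ (V : Type) [Fintype V] (Γ : Subgroup (Equiv.Perm V)) (a b : V),
  (orb Γ a).card = 2 → (orb Γ b).card = 2 → ¬ eqv Γ a b →
  4 ≤ (orb2 Γ (a, b)).card ∧ ∀ b' ∈ orb Γ b, ∃ g ∈ Γ, g a = a ∧ g b = b'

/-- The stabilizer of a vertex of `big` is transitive on the small orbits outside `big`. -/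
def T_FREE : Prop := ∀ (V : Type) [Fintype V] (Γ : Subgroup (Equiv.Perm V)) (L : ℕ) (v x : V),
  v ∈ big Γ L → x ∉ big Γ L → (orb Γ x).card ≤ 3 → ∀ x' ∈ orb Γ x, ∃ g ∈ Γ, g v = v ∧ g x = x'

/-- The colouring of the vertices such that `al ψ w w'` nearly fixes `big` for all `w`, `w'` of
the same colour. -/
def T_TYPES : Prop := ∀ (V : Type) [Fintype V] (ψ : V → Equiv.Perm V)
  (Γ : Subgroup (Equiv.Perm V)) (L K : ℕ), 0 < L → 40 * L ≤ K →
  (∀ w w', nio Γ (al ψ w w') * K ≤ 10 * Fintype.card V) →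
  (∀ w w', ∀ C : Finset V, (∀ a ∈ C, (orb Γ a).card = 2) → (∀ a ∈ C, ∀ b ∈ C, eqv Γ a b) →
    (C.filter (fun a => al ψ w w' a = a)).card *
      (C.filter (fun a => al ψ w w' a ≠ a ∧ al ψ w w' a ∈ orb Γ a)).card * K ≤
      4 * Fintype.card V ^ 2) →
  ∃ c : V → Finset (Finset V), (univ.image c).card ≤ 2 ^ L ∧ ∀ w w', c w = c w' →
    ((big Γ L).filter (fun a => al ψ w w' a ≠ a)).card * K ≤ 100 * L ^ 2 * Fintype.card V

/-! ## Hypomorphic graphs -/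

/-- Avoiding the holes. -/
def T_HOLE : Prop := ∀ (V : Type) (ψ : V → Equiv.Perm V), (∀ w, ψ w w = w) →
  ∀ S : Finset V, 3 ≤ S.card → ∀ w ∈ S, ∀ w' ∈ S, ∀ v, al ψ w w' v ≠ v →
  ∃ u ∈ S, ∃ u' ∈ S, al ψ u u' v ≠ v ∧ v ≠ u ∧ al ψ u u' v ≠ u'

/-- `G` is invariant under the group off the vertices whose orbit contains a hole, and these
vertices are few. -/
def T_INV : Prop := ∀ (V : Type) [Fintype V] (G H : SimpleGraph V) (ψ : V → Equiv.Perm V),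
  Hyp G H ψ → ∀ Φ : Finset (V × V),
  (∀ g ∈ gen ψ Φ, ∀ a b, a ∉ hol ψ Φ → b ∉ hol ψ Φ → (G.Adj a b ↔ G.Adj (g a) (g b))) ∧
  ((hol ψ Φ).filter (fun x => (orb (gen ψ Φ) x).card ≤ 3)).card ≤ 6 * Φ.card

/-- A vertex of `big` which is moved by some `al ψ w w'` has a near twin. -/
def T_NTW : Prop := ∀ (V : Type) [Fintype V] (G H : SimpleGraph V) (ψ : V → Equiv.Perm V),
  Hyp G H ψ → ∀ (Φ : Finset (V × V)) (L : ℕ) (w w' v : V), v ∈ big (gen ψ Φ) L →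
  v ∉ hol ψ Φ → v ≠ w → al ψ w w' v ≠ w' →
  nd (gen ψ Φ) G v (al ψ w w' v) ≤
    ((big (gen ψ Φ) L).filter (fun a => al ψ w w' a ≠ a)).card +
      3 * nio (gen ψ Φ) (al ψ w w') + 6 * Φ.card + 8

/-- The collision lemma. -/
def T_COL : Prop := ∀ (V : Type) [Fintype V] (G H : SimpleGraph V) (ψ : V → Equiv.Perm V),
  Hyp G H ψ → ∀ (W : Finset V) (c : V → Finset (Finset V)),
  (∀ w ∈ W, ∀ w' ∈ W, c w = c w' → ∀ u ∈ W, al ψ w w' u = u) →
  ∃ (I : Finset V) (e : V → V × V), I ⊆ W ∧ W.card ≤ I.card + 2 * (univ.image c).card ∧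
    (∀ l ∈ I, (e l).1 ∉ W ∧ (e l).2 ∉ W ∧ ¬ (G.Adj l (e l).1 ↔ G.Adj l (e l).2)) ∧
    ∀ l ∈ I, ∀ t ∈ I, t ≠ l → (G.Adj t (e l).1 ↔ G.Adj t (e l).2)

/-! ## Classes -/

/-- The number of classes is at most the sum of the inverse sizes. -/
def T_NCSUM : Prop := ∀ (P : Type) [Fintype P] (r : P → P → Prop) (E : Finset P),
  (nc r : ℝ) ≤ ((E.image (cls r)).card : ℝ) + ∑ p ∈ Eᶜ, ((cls r p).card : ℝ)⁻¹

/-- Removing `k` links increases the number of classes by at most `k`. -/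
def T_REMOVE : Prop := ∀ (P : Type) [Fintype P] (r s : P → P → Prop) (E : Finset (P × P)),
  (∀ p q, r p q → s p q ∨ (p, q) ∈ E) → nc s ≤ nc r + E.card

/-- The components of the forest of the edges `e l`. -/
def T_COMP : Prop := ∀ (V : Type) [Fintype V] (Z I : Finset V) (e : V → V × V)
  (g : V → V → Prop),
  (∀ l ∈ I, (e l).1 ∈ Z ∧ (e l).2 ∈ Z ∧ ¬ (g l (e l).1 ↔ g l (e l).2)) →
  (∀ l ∈ I, ∀ t ∈ I, t ≠ l → (g t (e l).1 ↔ g t (e l).2)) →
  ∀ r : V → V → Prop, (∀ l ∈ I, r (e l).1 (e l).2) →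
  (Z.image (cls r)).card + I.card ≤ Z.card

/-- Links by generators and links by the group. -/
def T_GENLINK : Prop := ∀ (V : Type) [Fintype V] (S : Set (Equiv.Perm V)) (f : V → V)
  (N X T I : Finset V) (e : V → V × V),
  nc (lnk S f N X T I e) ≤
    nc (lnk (Subgroup.closure S : Set (Equiv.Perm V)) f N X T I e) ∧
  nc (lnk (Subgroup.closure S : Set (Equiv.Perm V)) f N X T I e) ≤ n2 (Subgroup.closure S)

/-- The exceptions of a code. -/
def T_RELLNK : Prop := ∀ (V : Type) [Fintype V] (K : ℕ) (ω : Code V K),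
  nc (rel ω) ≤ nc (lnk {g | ∃ i, g = (ω.1 i).1} ω.2.1 ω.2.2.2.1.1 ω.2.2.2.1.2.1
    ω.2.2.2.1.2.2.1 ω.2.2.2.1.2.2.2 ω.2.2.1) + 4 * K * Fintype.card V + ω.2.2.2.2.card +
    Fintype.card V

/-- The basic lower bounds for the sizes of the classes. -/
def T_SIZE : Prop := ∀ (V : Type) [Fintype V] (Γ : Subgroup (Equiv.Perm V)) (f : V → V)
  (N X T I : Finset V) (e : V → V × V) (a b : V), orb Γ a ≠ orb Γ b →
  2 * (orb2 Γ (a, b)).card ≤
    (cls (lnk (Γ : Set (Equiv.Perm V)) f N X T I e) (a, b)).card ∧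
  (a ∈ N → b ∈ X → f a ∉ orb Γ b → (f a, b) ∉ orb2 Γ (a, b) →
    2 * ((orb2 Γ (a, b)).card + (orb2 Γ (f a, b)).card) ≤
      (cls (lnk (Γ : Set (Equiv.Perm V)) f N X T I e) (a, b)).card) ∧
  (a ∈ N → b ∈ N → (orb Γ a).card = 1 → (orb Γ b).card = 1 → f a ≠ a → f b ≠ b → f a ≠ b →
    f b ≠ a → f a ≠ f b → (∀ x, (orb Γ x).card ≤ 3 → x ∈ X) →
    8 ≤ (cls (lnk (Γ : Set (Equiv.Perm V)) f N X T I e) (a, b)).card) ∧
  (cls (lnk (Γ : Set (Equiv.Perm V)) f N X T I e) (a, b)).card =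
    (cls (lnk (Γ : Set (Equiv.Perm V)) f N X T I e) (b, a)).card

/-- The lower bounds for the sizes of the classes. -/
def T_WT : Prop := ∀ (V : Type) [Fintype V] (Γ : Subgroup (Equiv.Perm V)) (L : ℕ) (f : V → V)
  (N X T I : Finset V) (e : V → V × V), N ⊆ big Γ L → (∀ v ∈ N, f v ≠ v) → I ⊆ big Γ L →
  (∀ x, (orb Γ x).card ≤ 3 → x ∈ X) → ∀ a b, ¬ exc Γ L f N I (a, b) →
  2 * wt (ty Γ I a) (ty Γ I b) ≤
    (cls (lnk (Γ : Set (Equiv.Perm V)) f N X T I e) (a, b)).card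

/-- Few classes contain exceptional pairs of the first two kinds. -/
def T_EXC1 : Prop := ∀ (V : Type) [Fintype V] (Γ : Subgroup (Equiv.Perm V)) (f : V → V)
  (N X T I : Finset V) (e : V → V × V),
  ((univ.filter (fun p : V × V => orb Γ p.1 = orb Γ p.2)).image
    (cls (lnk (Γ : Set (Equiv.Perm V)) f N X T I e))).card ≤ Fintype.card V ∧
  (N ⊆ X → ((univ.filter (fun p : V × V => p.1 ∈ N ∧ p.2 ∈ N ∧ f p.1 = f p.2)).image
    (cls (lnk (Γ : Set (Equiv.Perm V)) f N X T I e))).card ≤ Fintype.card V)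

/-- There are few exceptional pairs of the other kinds. -/
def T_EXC2 : Prop := ∀ (V : Type) [Fintype V] (Γ : Subgroup (Equiv.Perm V)) (L : ℕ) (f : V → V)
  (N B : Finset V),
  L * (univ.filter (fun p : V × V => (orb Γ p.1).card = 2 ∧ (orb Γ p.2).card = 2 ∧
    p.1 ∉ big Γ L ∧ p.2 ∉ big Γ L ∧ eqv Γ p.1 p.2)).card ≤ Fintype.card V ^ 2 ∧
  (univ.filter (fun p : V × V => p.1 ∈ B ∨ p.2 ∈ B)).card ≤ 2 * B.card * Fintype.card V ∧
  (univ.filter (fun p : V × V => p.1 ∈ N ∧ f p.1 ∈ orb Γ p.2 ∧ (orb Γ p.2).card ≤ 3)).card ≤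
    3 * Fintype.card V ∧
  (univ.filter (fun p : V × V => p.2 ∈ N ∧ f p.2 ∈ orb Γ p.1 ∧ (orb Γ p.1).card ≤ 3)).card ≤
    3 * Fintype.card V

/-- The number of classes which contain exceptional pairs. -/
def T_EXC : Prop := ∀ (V : Type) [Fintype V] (Γ : Subgroup (Equiv.Perm V)) (L : ℕ) (f : V → V)
  (N X T I : Finset V) (e : V → V × V), N ⊆ big Γ L → (∀ x, (orb Γ x).card ≤ 3 → x ∈ X) →
  L * ((univ.filter (exc Γ L f N I)).image
    (cls (lnk (Γ : Set (Equiv.Perm V)) f N X T I e))).card ≤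
    L * (8 + 2 * (big Γ L \ (I ∪ N)).card) * Fintype.card V + Fintype.card V ^ 2

/-- The number of classes which contain pairs `(t, z)`, `t ∈ T`, `z ∉ I`. -/
def T_TZ : Prop := ∀ (V : Type) [Fintype V] (Γ : Subgroup (Equiv.Perm V)) (f : V → V)
  (N X T I : Finset V) (e : V → V × V) (g : V → V → Prop),
  (∀ l ∈ I, (e l).1 ∉ I ∧ (e l).2 ∉ I ∧ ¬ (g l (e l).1 ↔ g l (e l).2)) →
  (∀ l ∈ I, ∀ t ∈ I, t ≠ l → (g t (e l).1 ↔ g t (e l).2)) →
  2 * I.card ≤ Fintype.card V ∧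
  ((univ.filter (fun p : V × V => (p.1 ∈ T ∧ p.2 ∉ I) ∨ (p.2 ∈ T ∧ p.1 ∉ I))).image
    (cls (lnk (Γ : Set (Equiv.Perm V)) f N X T I e))).card ≤
    T.card * (Fintype.card V - 2 * I.card)

/-- The inequality. -/
def T_INEQ : Prop := ∀ t y b s : ℝ, 0 ≤ t → 0 ≤ y → 0 ≤ b → 0 ≤ s → t + y ≤ b + s →
  t ^ 2 / 2 + t * y / 2 + y ^ 2 / 4 + y * b / 4 + y * s / 6 + b ^ 2 / 8 + b * s / 6 + s ^ 2 / 6 +
    t * min (b / 2 + s / 3) (b + s - t - y) ≤ 2 / 9 * (t + y + b + s) ^ 2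

/-- The number of classes. -/
def T_CLASSES : Prop := ∀ (V : Type) [Fintype V] (Γ : Subgroup (Equiv.Perm V)) (L : ℕ)
  (f : V → V) (N X T I : Finset V) (e : V → V × V) (g : V → V → Prop), 0 < L → N ⊆ big Γ L →
  (∀ v ∈ N, f v ≠ v) → I ⊆ big Γ L → (∀ x, (orb Γ x).card ≤ 3 → x ∈ X) →
  T = I.filter (fun t => (orb Γ t).card = 1) →
  (∀ l ∈ I, (e l).1 ∉ I ∧ (e l).2 ∉ I ∧ ¬ (g l (e l).1 ↔ g l (e l).2)) →
  (∀ l ∈ I, ∀ t ∈ I, t ≠ l → (g t (e l).1 ↔ g t (e l).2)) →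
  (nc (lnk (Γ : Set (Equiv.Perm V)) f N X T I e) : ℝ) ≤ 2 / 9 * (Fintype.card V : ℝ) ^ 2 +
    (8 + 2 * ((big Γ L \ (I ∪ N)).card : ℝ)) * Fintype.card V + (Fintype.card V : ℝ) ^ 2 / L

/-! ## Codes and asymptotics -/

/-- The graphs which respect given links. -/
def T_CODEA : Prop := ∀ (V : Type) [Fintype V] (r : V × V → V × V → Prop),
  (univ.filter (fun G : SimpleGraph V => ∀ p q, r p q →
    (G.Adj p.1 p.2 ↔ G.Adj q.1 q.2))).card ≤ 2 ^ nc r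

/-- The union bound over the codes. -/
def T_CODEB : Prop := ∀ (V : Type) [Fintype V] (K D U : ℕ) (F : Finset (SimpleGraph V)),
  (∀ G ∈ F, ∃ ω : Code V K, ω.2.2.2.2.card ≤ D ∧ nc (rel ω) ≤ U ∧
    ∀ p q, rel ω p q → (G.Adj p.1 p.2 ↔ G.Adj q.1 q.2)) →
  F.card ≤ (Fintype.card V ^ Fintype.card V * Fintype.card V ^ 2) ^ K *
    Fintype.card V ^ Fintype.card V * (Fintype.card V ^ 2) ^ Fintype.card V *
    2 ^ (4 * Fintype.card V) *
    (univ.filter (fun E : Finset (V × V) => E.card ≤ D)).card * 2 ^ U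

/-- There are few small sets. -/
def T_BIN : Prop := ∀ ε : ℝ, 0 < ε → ∃ η : ℝ, 0 < η ∧ ∀ (P : Type) [Fintype P],
  ((univ.filter (fun E : Finset P => (E.card : ℝ) ≤ η * Fintype.card P)).card : ℝ) ≤
    2 ^ (ε * Fintype.card P)

/-- The asymptotic estimate. -/
def T_ASY : Prop := ∀ (ε : ℝ) (K : ℕ), 0 < ε → ∃ n₀ : ℕ, ∀ n : ℕ, n₀ ≤ n →
  (((n ^ n * n ^ 2) ^ K * n ^ n * (n ^ 2) ^ n * 2 ^ (4 * n) * 2 ^ (K * n + K) : ℕ) : ℝ) ≤
    2 ^ (ε * (n : ℝ) ^ 2)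

/-- Non-reconstructible truncated clique lattices. -/
def T_START : Prop := ∀ (V : Type) [Fintype V] (G : SimpleGraph V),
  (¬ ∀ (W : Type) [Fintype W] (H : SimpleGraph W) (f : V ≃ W),
    (∀ v : V,
      Nonempty ({s : Finset V // s.Nonempty ∧ G.IsClique (s : Set V) ∧ v ∉ s} ≃o
        {t : Finset W // t.Nonempty ∧ H.IsClique (t : Set W) ∧ f v ∉ t})) →
    Nonempty ({s : Finset V // s.Nonempty ∧ G.IsClique (s : Set V)} ≃o
      {t : Finset W // t.Nonempty ∧ H.IsClique (t : Set W)})) →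
  ∃ (H : SimpleGraph V) (ψ : V → Equiv.Perm V), Hyp G H ψ

end Pool.Agent.Two9
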